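import Pool.Agent.LR.B1.PD

/-!
The doubling identity and the master inequality for lattice Gaussian sums.
-/

namespace Pool.Agent.LR

open Finset Filter Topology

section

variable {A E : Type*} [AddCommGroup A] [AddCommGroup E] [Module ℝ E]

/-- extension by zero from `2A` -/
noncomputable def ext2 (F : A → ℝ) : A → ℝ := Function.extend (fun a : A => a + a) F 0

variable (h2 : Function.Injective (fun a : A => a + a))

include h2

theorem ext2_apply (F : A → ℝ) (a : A) : ext2 F (a + a) = F a := h2.extend_apply F 0 a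

theorem PD.ext2 {F : A → ℝ} (hF : PD F) : PD (ext2 F) :=
  PD.extend (AddMonoidHom.mk' (fun a : A => a + a) (fun a b => by abel)) h2 hF

/-- doubling of sums over pairs -/
theorem tsum_double (g : A × A → ℝ) (k : A → ℝ) :
    ∑' x : A × A, ext2 k (x.1 - x.2) * g x = ∑' x : A × A, k x.2 * g (x.1 + x.2, x.1 - x.2) := by
  have hi : Function.Injective (fun x : A × A => (x.1 + x.2, x.1 - x.2)) := by
    intro x y h
    simp only [Prod.mk.injEq] at h
    have e1 : x.1 + x.1 = y.1 + y.1 := by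
      have : (x.1 + x.2) + (x.1 - x.2) = (y.1 + y.2) + (y.1 - y.2) := by rw [h.1, h.2]
      have e : (x.1 + x.2) + (x.1 - x.2) = x.1 + x.1 := by abel
      have e' : (y.1 + y.2) + (y.1 - y.2) = y.1 + y.1 := by abel
      rw [← e, this, e']
    have e2 : x.1 = y.1 := h2 e1
    have e3 : x.2 = y.2 := by
      have := h.1
      rw [e2] at this
      exact add_left_cancel this
    exact Prod.ext e2 e3
  have hs : Function.support (fun x : A × A => ext2 k (x.1 - x.2) * g x) ⊆
      Set.range (fun x : A × A => (x.1 + x.2, x.1 - x.2)) := by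
    intro x hx
    rw [Function.mem_support] at hx
    by_contra hc
    apply hx
    have : ext2 k (x.1 - x.2) = 0 := by
      unfold ext2
      rw [Function.extend_apply' _ _ _ ?_]
      · rfl
      · rintro ⟨b, hb⟩
        apply hc
        refine ⟨(x.2 + b, b), ?_⟩
        have hb' : b + b = x.1 - x.2 := hb
        have : x.2 + b + b = x.1 := by rw [add_assoc, hb']; abel
        refine Prod.ext ?_ ?_
        · simpa using this
        · simp
    rw [this, zero_mul]
  rw [← hi.tsum_eq hs]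
  refine tsum_congr fun x => ?_
  have : x.1 + x.2 - (x.1 - x.2) = x.2 + x.2 := by abel
  simp only [this]
  rw [ext2_apply h2]

end

theorem ext2_mul {A : Type*} [AddCommGroup A] (h2 : Function.Injective (fun a : A => a + a))
    (F G : A → ℝ) (a : A) : ext2 F a * ext2 G a = ext2 (fun a => F a * G a) a := by
  by_cases h : ∃ b, b + b = a
  · obtain ⟨b, rfl⟩ := h
    rw [ext2_apply h2, ext2_apply h2, ext2_apply h2]
  · unfold ext2
    rw [Function.extend_apply' F _ _ h, Function.extend_apply' _ _ _ h,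
      Function.extend_apply' _ _ _ h]
    simp

section master

variable {A E : Type*} [AddCommGroup A] [AddCommGroup E] [Module ℝ E]
  (e : A →+ E) (M : E →ₗ[ℝ] E →ₗ[ℝ] ℝ)

/-- Gaussian weights -/
noncomputable def gw (h : E) (a : A) : ℝ := Real.exp (-(1 / 2) * M (e a - h) (e a - h))

theorem gw_pos (h : E) (a : A) : 0 < gw e M h a := Real.exp_pos _

theorem quarter (hs : ∀ x y, M x y = M y x) (s d x y : E) (hsx : s = x + y) (hd : d = x - y)
    (a b : A) :
    Real.exp (-(1 / 4) * M (e (a + b) - s) (e (a + b) - s)) *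
      Real.exp (-(1 / 4) * M (e (a - b) - d) (e (a - b) - d)) = gw e M x a * gw e M y b := by
  unfold gw
  rw [← Real.exp_add, ← Real.exp_add]
  congr 1
  subst hsx hd
  have e1 : e (a + b) - (x + y) = (e a - x) + (e b - y) := by rw [map_add]; abel
  have e2 : e (a - b) - (x - y) = (e a - x) - (e b - y) := by rw [map_sub]; abel
  rw [e1, e2]
  simp only [map_add, map_sub, LinearMap.add_apply, LinearMap.sub_apply]
  rw [hs (e b) (e a), hs (e b) x, hs y (e a), hs y x]
  ring

/-- the master inequality -/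
theorem master (h2 : Function.Injective (fun a : A => a + a)) (hs : ∀ x y, M x y = M y x)
    (hn : ∀ x, 0 ≤ M x x)
    (hsum : ∀ h : E, Summable (fun a : A => Real.exp (-(1 / 4) * M (e a - h) (e a - h))))
    {F G : A → ℝ} (hF : PD F) (hG : PD G) (xi eta : A →+ ℝ) (r t : ℝ) (x y : E) :
    ((∑' a, F a * Real.cos (xi a + r) * gw e M x a) *
        (∑' a, G a * Real.cos (eta a + t) * gw e M y a)) ^ 2 ≤
      (∑' a, gw e M (x + y) a) * (∑' a, gw e M (x - y) a) *
        (∑' a, F a * Real.cos (xi a) * (G a * Real.cos (eta a)) * gw e M 0 a) ^ 2 := by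
  obtain ⟨w, hw⟩ : ∃ w : E → A → ℝ, w = fun h a =>
    Real.exp (-(1 / 4) * M (e a - h) (e a - h)) := ⟨_, rfl⟩
  have hwpos : ∀ h a, 0 < w h a := by intro h a; rw [hw]; exact Real.exp_pos _
  have hwsum : ∀ h, Summable (w h) := by intro h; rw [hw]; exact hsum h
  have hwabs : ∀ h, Summable fun a => |w h a| := fun h => (hwsum h).abs
  have hq : ∀ a b, w (x + y) (a + b) * w (x - y) (a - b) = gw e M x a * gw e M y b := by
    intro a b; rw [hw]; exact quarter e M hs _ _ x y rfl rfl a b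
  have hq' : ∀ s a b, w s (a + b) * w s (a - b) = gw e M s a * gw e M 0 b := by
    intro s a b; rw [hw]; exact quarter e M hs _ _ s 0 (by simp) (by simp) a b
  have hgw : ∀ h, Summable (gw e M h) := by
    intro h
    refine Summable.of_nonneg_of_le (fun a => (gw_pos e M h a).le) (fun a => ?_) (hsum h)
    unfold gw
    rw [Real.exp_le_exp]
    nlinarith [hn (e a - h)]
  have hbd : ∀ {k : A → ℝ} {C : ℝ}, (∀ a, |k a| ≤ C) → ∀ h,
      Summable (fun a => ‖k a * gw e M h a‖) := by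
    intro k C hk h
    refine Summable.of_nonneg_of_le (fun a => norm_nonneg _) (fun a => ?_) ((hgw h).mul_left C)
    rw [norm_mul, Real.norm_eq_abs, Real.norm_eq_abs, abs_of_pos (gw_pos e M h a)]
    exact mul_le_mul_of_nonneg_right (hk a) (gw_pos e M h a).le
  have hFc : ∀ (r : ℝ) (a : A), |F a * Real.cos (xi a + r)| ≤ F 0 := by
    intro r a
    rw [abs_mul]
    calc |F a| * |Real.cos (xi a + r)| ≤ F 0 * 1 :=
          mul_le_mul (hF.abs_le a) (Real.abs_cos_le_one _) (abs_nonneg _) hF.zero_nonneg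
      _ = F 0 := mul_one _
  have hGc : ∀ (r : ℝ) (a : A), |G a * Real.cos (eta a + r)| ≤ G 0 := by
    intro r a
    rw [abs_mul]
    calc |G a| * |Real.cos (eta a + r)| ≤ G 0 * 1 :=
          mul_le_mul (hG.abs_le a) (Real.abs_cos_le_one _) (abs_nonneg _) hG.zero_nonneg
      _ = G 0 := mul_one _
  -- the kernel
  have hK : PSD (fun P Q : (A × A) × (ℝ × ℝ) => (ext2 F (P.1.1 - Q.1.1) * ext2 G (P.1.2 - Q.1.2))
      * (Real.cos (P.2.1 - Q.2.1) * Real.cos (P.2.2 - Q.2.2))) := by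
    refine PSD.mul (PSD.mul ?_ ?_) (PSD.mul ?_ ?_)
    · exact PSD.pull (hF.ext2 h2) (fun P : (A × A) × (ℝ × ℝ) => P.1.1)
    · exact PSD.pull (hG.ext2 h2) (fun P : (A × A) × (ℝ × ℝ) => P.1.2)
    · exact PSD.pull pd_cos_real (fun P : (A × A) × (ℝ × ℝ) => P.2.1)
    · exact PSD.pull pd_cos_real (fun P : (A × A) × (ℝ × ℝ) => P.2.2)
  have hB : ∀ P Q : (A × A) × (ℝ × ℝ), |(ext2 F (P.1.1 - Q.1.1) * ext2 G (P.1.2 - Q.1.2))
      * (Real.cos (P.2.1 - Q.2.1) * Real.cos (P.2.2 - Q.2.2))| ≤ (F 0 * G 0) * (1 * 1) := by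
    intro P Q
    rw [abs_mul, abs_mul, abs_mul]
    have h0 : ext2 F 0 = F 0 := by
      have := ext2_apply h2 F 0; rwa [add_zero] at this
    have h0' : ext2 G 0 = G 0 := by
      have := ext2_apply h2 G 0; rwa [add_zero] at this
    have i1 := (hF.ext2 h2).abs_le (P.1.1 - Q.1.1)
    have i2 := (hG.ext2 h2).abs_le (P.1.2 - Q.1.2)
    rw [h0] at i1
    rw [h0'] at i2
    refine mul_le_mul (mul_le_mul i1 i2 (abs_nonneg _) hF.zero_nonneg)
      (mul_le_mul (Real.abs_cos_le_one _) (Real.abs_cos_le_one _) (abs_nonneg _) zero_le_one)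
      (by positivity) (mul_nonneg hF.zero_nonneg hG.zero_nonneg)
  have key := hK.cs hB (hwabs (x + y)) (hwabs (x - y))
    (fun u => ((u, u), (xi u / 2 + r, eta u / 2 + t)))
    (fun v => ((-v, v), (-(xi v / 2), eta v / 2)))
  -- left side
  have L : (∑' a, F a * Real.cos (xi a + r) * gw e M x a) *
        (∑' a, G a * Real.cos (eta a + t) * gw e M y a)
      = ∑' p : A × A, w (x + y) p.1 * w (x - y) p.2 *
        ((ext2 F (p.1 - -p.2) * ext2 G (p.1 - p.2)) *
          (Real.cos (xi p.1 / 2 + r - -(xi p.2 / 2)) * Real.cos (eta p.1 / 2 + t - eta p.2 / 2))) := by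
    rw [tsum_mul_tsum_of_summable_norm (hbd (hFc r) x) (hbd (hGc t) y)]
    have := tsum_double h2 (fun p : A × A => w (x + y) p.1 * w (x - y) p.2 *
        (ext2 F (p.1 - -p.2) * (Real.cos (xi p.1 / 2 + r - -(xi p.2 / 2)) *
          Real.cos (eta p.1 / 2 + t - eta p.2 / 2)))) G
    have e1 : (∑' p : A × A, w (x + y) p.1 * w (x - y) p.2 *
        ((ext2 F (p.1 - -p.2) * ext2 G (p.1 - p.2)) *
          (Real.cos (xi p.1 / 2 + r - -(xi p.2 / 2)) * Real.cos (eta p.1 / 2 + t - eta p.2 / 2))))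
        = ∑' p : A × A, ext2 G (p.1 - p.2) * (w (x + y) p.1 * w (x - y) p.2 *
        (ext2 F (p.1 - -p.2) * (Real.cos (xi p.1 / 2 + r - -(xi p.2 / 2)) *
          Real.cos (eta p.1 / 2 + t - eta p.2 / 2)))) := tsum_congr fun p => by ring
    rw [e1, this]
    refine tsum_congr fun p => ?_
    have a1 : p.1 + p.2 - -(p.1 - p.2) = p.1 + p.1 := by abel
    have a2 : xi (p.1 + p.2) / 2 + r - -(xi (p.1 - p.2) / 2) = xi p.1 + r := by
      rw [map_add, map_sub]; ring
    have a3 : eta (p.1 + p.2) / 2 + t - eta (p.1 - p.2) / 2 = eta p.2 + t := by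
      rw [map_add, map_sub]; ring
    simp only [a1, a2, a3]
    rw [ext2_apply h2, hq]
    ring
  have R : ∀ s : E, ∑' p : A × A, w s p.1 * w s p.2 *
        ((ext2 F (p.1 - p.2) * ext2 G (p.1 - p.2)) *
          (Real.cos (xi p.1 / 2 - xi p.2 / 2) * Real.cos (eta p.1 / 2 - eta p.2 / 2)))
      = (∑' a, gw e M s a) *
        (∑' a, F a * Real.cos (xi a) * (G a * Real.cos (eta a)) * gw e M 0 a) := by
    intro s
    have b0 : ∀ a, |F a * Real.cos (xi a) * (G a * Real.cos (eta a))| ≤ F 0 * G 0 := by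
      intro a
      have i1 := hFc 0 a
      have i2 := hGc 0 a
      rw [add_zero] at i1 i2
      rw [abs_mul]
      exact mul_le_mul i1 i2 (abs_nonneg _) hF.zero_nonneg
    rw [tsum_mul_tsum_of_summable_norm (by simpa using hbd (k := fun _ => 1) (C := 1) (by simp) s)
      (hbd b0 0)]
    have := tsum_double h2 (fun p : A × A => w s p.1 * w s p.2 *
        ((Real.cos (xi p.1 / 2 - xi p.2 / 2) * Real.cos (eta p.1 / 2 - eta p.2 / 2))))
        (fun a => F a * G a)
    have e1 : (∑' p : A × A, w s p.1 * w s p.2 *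
        ((ext2 F (p.1 - p.2) * ext2 G (p.1 - p.2)) *
          (Real.cos (xi p.1 / 2 - xi p.2 / 2) * Real.cos (eta p.1 / 2 - eta p.2 / 2))))
        = ∑' p : A × A, ext2 (fun a => F a * G a) (p.1 - p.2) * (w s p.1 * w s p.2 *
        ((Real.cos (xi p.1 / 2 - xi p.2 / 2) * Real.cos (eta p.1 / 2 - eta p.2 / 2)))) :=
      tsum_congr fun p => by rw [ext2_mul h2]; ring
    rw [e1, this]
    refine tsum_congr fun p => ?_
    have a2 : xi (p.1 + p.2) / 2 - xi (p.1 - p.2) / 2 = xi p.2 := by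
      rw [map_add, map_sub]; ring
    have a3 : eta (p.1 + p.2) / 2 - eta (p.1 - p.2) / 2 = eta p.2 := by
      rw [map_add, map_sub]; ring
    simp only [a2, a3]
    rw [hq']
    ring
  rw [L]
  refine key.trans (le_of_eq ?_)
  have R1 : (∑' p : A × A, w (x + y) p.1 * w (x + y) p.2 *
      ((ext2 F (p.1 - p.2) * ext2 G (p.1 - p.2)) *
          (Real.cos (xi p.1 / 2 + r - (xi p.2 / 2 + r)) *
            Real.cos (eta p.1 / 2 + t - (eta p.2 / 2 + t)))))
      = (∑' a, gw e M (x + y) a) *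
        (∑' a, F a * Real.cos (xi a) * (G a * Real.cos (eta a)) * gw e M 0 a) := by
    rw [← R (x + y)]
    refine tsum_congr fun p => ?_
    have a1 : xi p.1 / 2 + r - (xi p.2 / 2 + r) = xi p.1 / 2 - xi p.2 / 2 := by ring
    have a2 : eta p.1 / 2 + t - (eta p.2 / 2 + t) = eta p.1 / 2 - eta p.2 / 2 := by ring
    rw [a1, a2]
  have R2 : (∑' p : A × A, w (x - y) p.1 * w (x - y) p.2 *
      ((ext2 F (-p.1 - -p.2) * ext2 G (p.1 - p.2)) *
          (Real.cos (-(xi p.1 / 2) - -(xi p.2 / 2)) *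
            Real.cos (eta p.1 / 2 - eta p.2 / 2))))
      = (∑' a, gw e M (x - y) a) *
        (∑' a, F a * Real.cos (xi a) * (G a * Real.cos (eta a)) * gw e M 0 a) := by
    rw [← R (x - y)]
    refine tsum_congr fun p => ?_
    have a1 : -(xi p.1 / 2) - -(xi p.2 / 2) = -(xi p.1 / 2 - xi p.2 / 2) := by ring
    have a2 : -p.1 - -p.2 = -(p.1 - p.2) := by abel
    rw [a1, a2, Real.cos_neg, (hF.ext2 h2).even]
  rw [R1, R2]
  ring

/-- the general master inequality: `F`, `G` positive definite on groups `B`, `B'` into which `A`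
is mapped, with arbitrary translations `τ`, `τ'` -/
theorem master_gen {B B' : Type*} [AddCommGroup B] [AddCommGroup B']
    (hA : Function.Injective (fun a : A => a + a)) (hB : Function.Injective (fun a : B => a + a))
    (hB' : Function.Injective (fun a : B' => a + a)) (hs : ∀ x y, M x y = M y x)
    (hn : ∀ x, 0 ≤ M x x)
    (hsum : ∀ h : E, Summable (fun a : A => Real.exp (-(1 / 4) * M (e a - h) (e a - h))))
    {F : B → ℝ} {G : B' → ℝ} (hF : PD F) (hG : PD G) (j : A →+ B) (j' : A →+ B') (τ : B) (τ' : B')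
    (x y : E) :
    ((∑' a, F (j a + τ) * gw e M x a) * (∑' a, G (j' a + τ') * gw e M y a)) ^ 2 ≤
      (∑' a, gw e M (x + y) a) * (∑' a, gw e M (x - y) a) *
        (∑' a, F (j a) * G (j' a) * gw e M 0 a) ^ 2 := by
  obtain ⟨w, hw⟩ : ∃ w : E → A → ℝ, w = fun h a =>
    Real.exp (-(1 / 4) * M (e a - h) (e a - h)) := ⟨_, rfl⟩
  have hwsum : ∀ h, Summable (w h) := by intro h; rw [hw]; exact hsum h
  have hwabs : ∀ h, Summable fun a => |w h a| := fun h => (hwsum h).abs
  have hq : ∀ a b, w (x + y) (a + b) * w (x - y) (a - b) = gw e M x a * gw e M y b := by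
    intro a b; rw [hw]; exact quarter e M hs _ _ x y rfl rfl a b
  have hq' : ∀ s a b, w s (a + b) * w s (a - b) = gw e M s a * gw e M 0 b := by
    intro s a b; rw [hw]; exact quarter e M hs _ _ s 0 (by simp) (by simp) a b
  have hgw : ∀ h, Summable (gw e M h) := by
    intro h
    refine Summable.of_nonneg_of_le (fun a => (gw_pos e M h a).le) (fun a => ?_) (hsum h)
    unfold gw
    rw [Real.exp_le_exp]
    nlinarith [hn (e a - h)]
  have hbd : ∀ {k : A → ℝ} {C : ℝ}, (∀ a, |k a| ≤ C) → ∀ h,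
      Summable (fun a => ‖k a * gw e M h a‖) := by
    intro k C hk h
    refine Summable.of_nonneg_of_le (fun a => norm_nonneg _) (fun a => ?_) ((hgw h).mul_left C)
    rw [norm_mul, Real.norm_eq_abs, Real.norm_eq_abs, abs_of_pos (gw_pos e M h a)]
    exact mul_le_mul_of_nonneg_right (hk a) (gw_pos e M h a).le
  -- the kernel
  have hone : PD (fun _ : A => (1:ℝ)) := pd_one
  have hK : PSD (fun P Q : B × B' × A => (ext2 F (P.1 - Q.1) * ext2 G (P.2.1 - Q.2.1))
      * ext2 (fun _ : A => (1:ℝ)) (P.2.2 - Q.2.2)) := by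
    refine PSD.mul (PSD.mul ?_ ?_) ?_
    · exact PSD.pull (hF.ext2 hB) (fun P : B × B' × A => P.1)
    · exact PSD.pull (hG.ext2 hB') (fun P : B × B' × A => P.2.1)
    · exact PSD.pull (hone.ext2 hA) (fun P : B × B' × A => P.2.2)
  have h0 : ext2 F 0 = F 0 := by
    have := ext2_apply hB F 0; rwa [add_zero] at this
  have h0' : ext2 G 0 = G 0 := by
    have := ext2_apply hB' G 0; rwa [add_zero] at this
  have h0'' : ext2 (fun _ : A => (1:ℝ)) 0 = 1 := by
    have := ext2_apply hA (fun _ : A => (1:ℝ)) 0; rwa [add_zero] at this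
  have hbound : ∀ P Q : B × B' × A, |(ext2 F (P.1 - Q.1) * ext2 G (P.2.1 - Q.2.1))
      * ext2 (fun _ : A => (1:ℝ)) (P.2.2 - Q.2.2)| ≤ (F 0 * G 0) * 1 := by
    intro P Q
    rw [abs_mul, abs_mul]
    have i1 := (hF.ext2 hB).abs_le (P.1 - Q.1)
    have i2 := (hG.ext2 hB').abs_le (P.2.1 - Q.2.1)
    have i3 := (hone.ext2 hA).abs_le (P.2.2 - Q.2.2)
    rw [h0] at i1
    rw [h0'] at i2
    rw [h0''] at i3
    exact mul_le_mul (mul_le_mul i1 i2 (abs_nonneg _) hF.zero_nonneg) i3
      (abs_nonneg _) (mul_nonneg hF.zero_nonneg hG.zero_nonneg)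
  have key := hK.cs hbound (hwabs (x + y)) (hwabs (x - y))
    (fun u => (j u + (τ + τ), (j' u + (τ' + τ'), u)))
    (fun v => (-(j v), (j' v, v)))
  -- left side
  have L : (∑' a, F (j a + τ) * gw e M x a) * (∑' a, G (j' a + τ') * gw e M y a)
      = ∑' p : A × A, w (x + y) p.1 * w (x - y) p.2 *
        ((ext2 F (j p.1 + (τ + τ) - -(j p.2)) * ext2 G (j' p.1 + (τ' + τ') - j' p.2)) *
          ext2 (fun _ : A => (1:ℝ)) (p.1 - p.2)) := by
    rw [tsum_mul_tsum_of_summable_norm (hbd (fun a => hF.abs_le (j a + τ)) x)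
      (hbd (fun a => hG.abs_le (j' a + τ')) y)]
    have := tsum_double hA (fun p : A × A => w (x + y) p.1 * w (x - y) p.2 *
        (ext2 F (j p.1 + (τ + τ) - -(j p.2)) * ext2 G (j' p.1 + (τ' + τ') - j' p.2)))
        (fun _ : A => (1:ℝ))
    have e1 : (∑' p : A × A, w (x + y) p.1 * w (x - y) p.2 *
        ((ext2 F (j p.1 + (τ + τ) - -(j p.2)) * ext2 G (j' p.1 + (τ' + τ') - j' p.2)) *
          ext2 (fun _ : A => (1:ℝ)) (p.1 - p.2)))
        = ∑' p : A × A, ext2 (fun _ : A => (1:ℝ)) (p.1 - p.2) * (w (x + y) p.1 * w (x - y) p.2 *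
        (ext2 F (j p.1 + (τ + τ) - -(j p.2)) * ext2 G (j' p.1 + (τ' + τ') - j' p.2))) :=
      tsum_congr fun p => by ring
    rw [e1, this]
    refine tsum_congr fun p => ?_
    have a1 : j (p.1 + p.2) + (τ + τ) - -(j (p.1 - p.2)) = (j p.1 + τ) + (j p.1 + τ) := by
      rw [map_add, map_sub]; abel
    have a2 : j' (p.1 + p.2) + (τ' + τ') - j' (p.1 - p.2) = (j' p.2 + τ') + (j' p.2 + τ') := by
      rw [map_add, map_sub]; abel
    simp only [a1, a2]
    rw [ext2_apply hB, ext2_apply hB', hq]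
    ring
  have R : ∀ (s : E) (c : B) (c' : B'), (∑' p : A × A, w s p.1 * w s p.2 *
        ((ext2 F (j p.1 - j p.2) * ext2 G (j' p.1 - j' p.2)) *
          ext2 (fun _ : A => (1:ℝ)) (p.1 - p.2)))
      = (∑' a, gw e M s a) * (∑' a, F (j a) * G (j' a) * gw e M 0 a) := by
    intro s _ _
    have b0 : ∀ a, |F (j a) * G (j' a)| ≤ F 0 * G 0 := by
      intro a
      rw [abs_mul]
      exact mul_le_mul (hF.abs_le _) (hG.abs_le _) (abs_nonneg _) hF.zero_nonneg
    rw [tsum_mul_tsum_of_summable_norm (by simpa using hbd (k := fun _ => 1) (C := 1) (by simp) s)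
      (hbd b0 0)]
    have := tsum_double hA (fun p : A × A => w s p.1 * w s p.2 *
        ((ext2 F (j p.1 - j p.2) * ext2 G (j' p.1 - j' p.2)))) (fun _ : A => (1:ℝ))
    have e1 : (∑' p : A × A, w s p.1 * w s p.2 *
        ((ext2 F (j p.1 - j p.2) * ext2 G (j' p.1 - j' p.2)) *
          ext2 (fun _ : A => (1:ℝ)) (p.1 - p.2)))
        = ∑' p : A × A, ext2 (fun _ : A => (1:ℝ)) (p.1 - p.2) * (w s p.1 * w s p.2 *
        ((ext2 F (j p.1 - j p.2) * ext2 G (j' p.1 - j' p.2)))) :=
      tsum_congr fun p => by ring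
    rw [e1, this]
    refine tsum_congr fun p => ?_
    have a1 : j (p.1 + p.2) - j (p.1 - p.2) = j p.2 + j p.2 := by
      rw [map_add, map_sub]; abel
    have a2 : j' (p.1 + p.2) - j' (p.1 - p.2) = j' p.2 + j' p.2 := by
      rw [map_add, map_sub]; abel
    simp only [a1, a2]
    rw [ext2_apply hB, ext2_apply hB', hq']
    ring
  rw [L]
  refine key.trans (le_of_eq ?_)
  have R1 : (∑' p : A × A, w (x + y) p.1 * w (x + y) p.2 *
      ((ext2 F (j p.1 + (τ + τ) - (j p.2 + (τ + τ))) *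
        ext2 G (j' p.1 + (τ' + τ') - (j' p.2 + (τ' + τ')))) *
          ext2 (fun _ : A => (1:ℝ)) (p.1 - p.2)))
      = (∑' a, gw e M (x + y) a) * (∑' a, F (j a) * G (j' a) * gw e M 0 a) := by
    rw [← R (x + y) τ τ']
    refine tsum_congr fun p => ?_
    rw [add_sub_add_right_eq_sub, add_sub_add_right_eq_sub]
  have R2 : (∑' p : A × A, w (x - y) p.1 * w (x - y) p.2 *
      ((ext2 F (-(j p.1) - -(j p.2)) * ext2 G (j' p.1 - j' p.2)) *
          ext2 (fun _ : A => (1:ℝ)) (p.1 - p.2)))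
      = (∑' a, gw e M (x - y) a) * (∑' a, F (j a) * G (j' a) * gw e M 0 a) := by
    rw [← R (x - y) τ τ']
    refine tsum_congr fun p => ?_
    have a1 : -(j p.1) - -(j p.2) = -(j p.1 - j p.2) := by abel
    rw [a1, (hF.ext2 hB).even]
  rw [R1, R2]
  ring

theorem pd_sum_nonneg (h2 : Function.Injective (fun a : A => a + a)) (hs : ∀ x y, M x y = M y x)
    (hn : ∀ x, 0 ≤ M x x)
    (hsum : Summable (fun a : A => Real.exp (-(1 / 4) * M (e a - 0) (e a - 0))))
    {F : A → ℝ} (hF : PD F) : 0 ≤ ∑' a, F a * gw e M 0 a := by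
  obtain ⟨w, hw⟩ : ∃ w : A → ℝ, w = fun a =>
    Real.exp (-(1 / 4) * M (e a - 0) (e a - 0)) := ⟨_, rfl⟩
  have hq' : ∀ a b, w (a + b) * w (a - b) = gw e M 0 a * gw e M 0 b := by
    intro a b; rw [hw]; exact quarter e M hs _ _ 0 0 (by simp) (by simp) a b
  have hgw : Summable (gw e M 0) := by
    refine Summable.of_nonneg_of_le (fun a => (gw_pos e M 0 a).le) (fun a => ?_) hsum
    unfold gw
    rw [Real.exp_le_exp]
    nlinarith [hn (e a - 0)]
  have hFs : Summable (fun a => ‖F a * gw e M 0 a‖) := by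
    refine Summable.of_nonneg_of_le (fun a => norm_nonneg _) (fun a => ?_) (hgw.mul_left (F 0))
    rw [norm_mul, Real.norm_eq_abs, Real.norm_eq_abs, abs_of_pos (gw_pos e M 0 a)]
    exact mul_le_mul_of_nonneg_right (hF.abs_le a) (gw_pos e M 0 a).le
  have hgs : Summable (fun a => ‖gw e M 0 a‖) := hgw.norm
  have h1 : (∑' a, gw e M 0 a) * (∑' a, F a * gw e M 0 a)
      = ∑' p : A × A, w p.1 * w p.2 * ext2 F (p.1 - p.2) := by
    rw [tsum_mul_tsum_of_summable_norm hgs hFs]
    have := tsum_double h2 (fun p : A × A => w p.1 * w p.2) F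
    have e1 : (∑' p : A × A, w p.1 * w p.2 * ext2 F (p.1 - p.2))
        = ∑' p : A × A, ext2 F (p.1 - p.2) * (w p.1 * w p.2) := tsum_congr fun p => by ring
    rw [e1, this]
    refine tsum_congr fun p => ?_
    simp only []
    rw [hq']
    ring
  have hws : Summable (fun a => |w a|) := by
    rw [hw]; exact hsum.abs
  have h0 : ext2 F 0 = F 0 := by
    have := ext2_apply h2 F 0; rwa [add_zero] at this
  have h3 : 0 ≤ ∑' p : A × A, w p.1 * w p.2 * ext2 F (p.1 - p.2) :=
    PSD.tsum_nonneg (hF.ext2 h2) (B := F 0)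
      (fun x y => by rw [← h0]; exact (hF.ext2 h2).abs_le _) hws (fun a => a)
  rw [← h1] at h3
  have h4 : 0 < ∑' a, gw e M 0 a := hgw.tsum_pos (fun a => (gw_pos e M 0 a).le) 0 (gw_pos e M 0 0)
  exact nonneg_of_mul_nonneg_right h3 h4

end master

end Pool.Agent.LR
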