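import Pool.Agent.LR.Defs
import Pool.Agent.LR.B1.Dbl

/-!
B1: embeddings, coercivity, tame functions, summability.
-/

set_option autoImplicit false
set_option linter.unusedSectionVars false

noncomputable section

open scoped BigOperators Topology
open Filter Set

namespace Pool.Agent.LR

variable {W : Type*} [DecidableEq W] {M D : BF W} {O : Finset W}

/-! ### embedding -/

theorem emb_apply_mem {ψ : O → ℤ} {x : W} (h : x ∈ O) : emb O ψ x = (ψ ⟨x, h⟩ : ℝ) := by
  simp [emb, h]

theorem emb_apply_coe (ψ : O → ℤ) (x : O) : emb O ψ x = (ψ x : ℝ) := by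
  simp [emb]

theorem emb_apply_not {ψ : O → ℤ} {x : W} (h : x ∉ O) : emb O ψ x = 0 := by
  simp [emb, h]

theorem supp_emb (ψ : O → ℤ) : Supp O (emb O ψ) := fun _ h => emb_apply_not h

theorem emb_add (ψ χ : O → ℤ) : emb O (ψ + χ) = emb O ψ + emb O χ := by
  funext x
  by_cases h : x ∈ O
  · simp [emb, h]
  · simp [emb, h]

theorem emb_zero : emb O (0 : O → ℤ) = 0 := by
  funext x
  by_cases h : x ∈ O
  · simp [emb, h]
  · simp [emb, h]

theorem emb_neg (ψ : O → ℤ) : emb O (-ψ) = -emb O ψ := by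
  funext x
  by_cases h : x ∈ O
  · simp [emb, h]
  · simp [emb, h]

theorem emb_sub (ψ χ : O → ℤ) : emb O (ψ - χ) = emb O ψ - emb O χ := by
  rw [sub_eq_add_neg, emb_add, emb_neg, sub_eq_add_neg]

/-- `emb` as a homomorphism -/
def embH (O : Finset W) : (O → ℤ) →+ (W → ℝ) where
  toFun := emb O
  map_zero' := emb_zero
  map_add' := emb_add

@[simp] theorem embH_apply (ψ : O → ℤ) : embH O ψ = emb O ψ := rfl

theorem emb_inj : Function.Injective (emb O) := by
  intro ψ χ h
  funext x
  have := congrFun h (x : W)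
  rw [emb_apply_coe, emb_apply_coe] at this
  exact_mod_cast this

theorem supp_zero : Supp O (0 : W → ℝ) := fun _ _ => rfl

theorem Supp.add {f g : W → ℝ} (hf : Supp O f) (hg : Supp O g) : Supp O (f + g) := by
  intro x hx; simp [hf x hx, hg x hx]

theorem Supp.sub {f g : W → ℝ} (hf : Supp O f) (hg : Supp O g) : Supp O (f - g) := by
  intro x hx; simp [hf x hx, hg x hx]

theorem Supp.neg {f : W → ℝ} (hf : Supp O f) : Supp O (-f) := by
  intro x hx; simp [hf x hx]

theorem Supp.smul {f : W → ℝ} (hf : Supp O f) (a : ℝ) : Supp O (a • f) := by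
  intro x hx; simp [hf x hx]

theorem Supp.mono {O' : Finset W} (h : O ⊆ O') {f : W → ℝ} (hf : Supp O f) : Supp O' f :=
  fun x hx => hf x (fun hx' => hx (h hx'))

/-! ### the pairing -/

theorem pr_add_left (f g φ : W → ℝ) : pr O (f + g) φ = pr O f φ + pr O g φ := by
  simp [pr, add_mul, Finset.sum_add_distrib]

theorem pr_add_right (f φ χ : W → ℝ) : pr O f (φ + χ) = pr O f φ + pr O f χ := by
  simp [pr, mul_add, Finset.sum_add_distrib]

theorem pr_smul_left (a : ℝ) (f φ : W → ℝ) : pr O (a • f) φ = a * pr O f φ := by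
  simp [pr, Finset.mul_sum, mul_assoc]

theorem pr_smul_right (a : ℝ) (f φ : W → ℝ) : pr O f (a • φ) = a * pr O f φ := by
  simp only [pr, Finset.mul_sum, Pi.smul_apply, smul_eq_mul]
  exact Finset.sum_congr rfl fun x _ => by ring

theorem pr_neg_left (f φ : W → ℝ) : pr O (-f) φ = -pr O f φ := by
  simp [pr]

theorem pr_neg_right (f φ : W → ℝ) : pr O f (-φ) = -pr O f φ := by
  simp [pr]

theorem pr_sub_left (f g φ : W → ℝ) : pr O (f - g) φ = pr O f φ - pr O g φ := by
  rw [sub_eq_add_neg, pr_add_left, pr_neg_left, sub_eq_add_neg]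

theorem pr_sub_right (f φ χ : W → ℝ) : pr O f (φ - χ) = pr O f φ - pr O f χ := by
  rw [sub_eq_add_neg, pr_add_right, pr_neg_right, sub_eq_add_neg]

theorem pr_zero_left (φ : W → ℝ) : pr O 0 φ = 0 := by simp [pr]

theorem pr_zero_right (f : W → ℝ) : pr O f 0 = 0 := by simp [pr]

theorem pr_comm (f φ : W → ℝ) : pr O f φ = pr O φ f := by
  simp only [pr]
  exact Finset.sum_congr rfl fun x _ => mul_comm _ _

theorem pr_emb (f : W → ℝ) (ψ : O → ℤ) : pr O f (emb O ψ) = ∑ x : O, f x * (ψ x : ℝ) := by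
  unfold pr
  rw [← Finset.sum_coe_sort O (fun x => f x * emb O ψ x)]
  exact Finset.sum_congr rfl fun x _ => by rw [emb_apply_coe]

/-- the pairing as a homomorphism on integer fields -/
def prH (O : Finset W) (f : W → ℝ) : (O → ℤ) →+ ℝ where
  toFun ψ := pr O f (emb O ψ)
  map_zero' := by rw [emb_zero, pr_zero_right]
  map_add' ψ χ := by rw [emb_add, pr_add_right]

@[simp] theorem prH_apply (f : W → ℝ) (ψ : O → ℤ) : prH O f ψ = pr O f (emb O ψ) := rfl

/-! ### forms -/

theorem IsForm.add (hM : IsForm M) (hD : IsForm D) : IsForm (M + D) :=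
  ⟨fun f g => by simp [hM.symm f g, hD.symm f g], fun f => by
    simpa using add_nonneg (hM.nonneg f) (hD.nonneg f)⟩

theorem IsForm.zero : IsForm (0 : BF W) := ⟨fun f g => by simp, fun f => by simp⟩

theorem IsForm.smul (hM : IsForm M) {a : ℝ} (ha : 0 ≤ a) : IsForm (a • M) :=
  ⟨fun f g => by simp [hM.symm f g], fun f => by
    simpa using mul_nonneg ha (hM.nonneg f)⟩

theorem isForm_rk {a : ℝ} (ha : 0 ≤ a) (l : (W → ℝ) →ₗ[ℝ] ℝ) : IsForm (rk a l) :=
  ⟨fun f g => by simp [rk]; ring, fun f => by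
    have : rk a l f f = a * (l f * l f) := by simp [rk]; ring
    rw [this]
    exact mul_nonneg ha (mul_self_nonneg _)⟩

theorem rk_apply (a : ℝ) (l : (W → ℝ) →ₗ[ℝ] ℝ) (f g : W → ℝ) : rk a l f g = a * l f * l g := by
  simp [rk]

theorem IsForm.sum {κ : Type*} (t : Finset κ) {Mk : κ → BF W} (h : ∀ k ∈ t, IsForm (Mk k)) :
    IsForm (∑ k ∈ t, Mk k) := by
  classical
  induction t using Finset.induction_on with
  | empty => simpa using (IsForm.zero (W := W))
  | insert a t ha ih =>
    rw [Finset.sum_insert ha]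
    exact (h a (by simp)).add (ih fun k hk => h k (by simp [hk]))

theorem PDef.add_form (hP : PDef M O) (hD : IsForm D) : PDef (M + D) O := fun f hf h0 => by
  have := hP f hf h0
  have := hD.nonneg f
  simp only [LinearMap.add_apply]
  linarith

theorem PDef.mono {O' : Finset W} (h : O' ⊆ O) (hP : PDef M O) : PDef M O' :=
  fun f hf h0 => hP f (hf.mono h) h0

theorem IsForm.add_sq (hM : IsForm M) (f g : W → ℝ) :
    M (f + g) (f + g) = M f f + 2 * M f g + M g g := by
  simp only [map_add, LinearMap.add_apply]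
  rw [hM.symm g f]; ring

theorem IsForm.sub_sq (hM : IsForm M) (f g : W → ℝ) :
    M (f - g) (f - g) = M f f - 2 * M f g + M g g := by
  simp only [map_sub, LinearMap.sub_apply]
  rw [hM.symm g f]; ring

theorem smul_sq (M : BF W) (a : ℝ) (f : W → ℝ) : M (a • f) (a • f) = a ^ 2 * M f f := by
  simp only [map_smul, LinearMap.smul_apply, smul_eq_mul]; ring

theorem neg_sq' (M : BF W) (f : W → ℝ) : M (-f) (-f) = M f f := by
  simp

theorem IsForm.para (hM : IsForm M) (f g : W → ℝ) :
    M (f + g) (f + g) + M (f - g) (f - g) = 2 * M f f + 2 * M g g := by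
  rw [hM.add_sq, hM.sub_sq]; ring

/-- Cauchy-Schwarz -/
theorem IsForm.cs (hM : IsForm M) (f g : W → ℝ) : (M f g) ^ 2 ≤ M f f * M g g := by
  have key : ∀ t : ℝ, 0 ≤ M g g * (t * t) + (2 * M f g) * t + M f f := by
    intro t
    have := hM.nonneg (f + t • g)
    rw [hM.add_sq, smul_sq] at this
    simp only [map_smul, smul_eq_mul] at this
    linarith
  have := discrim_le_zero key
  unfold discrim at this
  nlinarith [this]

theorem IsForm.abs_le (hM : IsForm M) (f g : W → ℝ) :
    |M f g| ≤ Real.sqrt (M f f) * Real.sqrt (M g g) := by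
  rw [← Real.sqrt_mul (hM.nonneg f)]
  exact Real.abs_le_sqrt (hM.cs f g)

/-- triangle inequality for the energy seminorm -/
theorem IsForm.tri (hM : IsForm M) (f g : W → ℝ) :
    Real.sqrt (M (f + g) (f + g)) ≤ Real.sqrt (M f f) + Real.sqrt (M g g) := by
  rw [Real.sqrt_le_left (by positivity), hM.add_sq]
  have h1 := Real.sq_sqrt (hM.nonneg f)
  have h2 := Real.sq_sqrt (hM.nonneg g)
  have h3 := (le_abs_self _).trans (hM.abs_le f g)
  nlinarith

theorem IsForm.two_mul_le (hM : IsForm M) (f g : W → ℝ) : 2 * M f g ≤ M f f + M g g := by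
  have := hM.nonneg (f - g)
  rw [hM.sub_sq] at this
  linarith

theorem IsForm.le_two (hM : IsForm M) (f g : W → ℝ) :
    M f f ≤ 2 * M (f - g) (f - g) + 2 * M g g := by
  have := hM.para (f - g) g
  have h2 := hM.nonneg (f - g - g)
  rw [sub_add_cancel] at this
  linarith

end Pool.Agent.LR
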