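import Pool.Agent.LR.B1.Pot

/-!
B1: 1.2 (RSD), 1.3, 1.4, 1.5.
-/

set_option autoImplicit false
set_option linter.unusedSectionVars false

noncomputable section

open scoped BigOperators Topology
open Filter Set

namespace Pool.Agent.LR

variable {W : Type*} [DecidableEq W] {M D : BF W} {O : Finset W}

theorem isPD_iff {F : (O → ℤ) → ℝ} : IsPD O F ↔ PD F := by
  constructor
  · rintro ⟨h1, h2⟩
    exact ⟨fun x y => by
      show F (x - y) = F (y - x)
      rw [← h1 (x - y)]; congr 1; abel, h2⟩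
  · intro h
    exact ⟨h.even, h.2⟩

theorem IsPD.pd {F : (O → ℤ) → ℝ} (h : IsPD O F) : PD F := isPD_iff.1 h

theorem PD.isPD {F : (O → ℤ) → ℝ} (h : PD F) : IsPD O F := isPD_iff.2 h

theorem PD.tame {F : (O → ℤ) → ℝ} (h : PD F) : Tame F := tame_bdd (F 0) h.abs_le

theorem two_inj : Function.Injective (fun ψ : O → ℤ => ψ + ψ) := by
  intro ψ χ h
  funext x
  have := congrFun h x
  simp only [Pi.add_apply] at this
  omega

theorem gw_eq (M : BF W) (O : Finset W) (h : W → ℝ) (ψ : O → ℤ) :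
    gw (embH O) M h ψ = wt M O h ψ := rfl

theorem quarter_sum (hM : IsForm M) (hP : PDef M O) (h : W → ℝ) :
    Summable (fun ψ : O → ℤ => Real.exp (-(1 / 4) * M (embH O ψ - h) (embH O ψ - h))) := by
  have := summable_gen hM hP (t := 1 / 4) (by norm_num) h (tame_const (O := O) 1)
  simpa using this

/-- the master inequality in the notation of expectations -/
theorem master_Ex (hM : IsForm M) (hP : PDef M O) {F G : (O → ℤ) → ℝ} (hF : PD F) (hG : PD G)
    (ξ η x y : W → ℝ) (r t : ℝ) :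
    ((Th M O x * Ex M O x (fun ψ => F ψ * Real.cos (pr O ξ (emb O ψ) + r))) *
      (Th M O y * Ex M O y (fun ψ => G ψ * Real.cos (pr O η (emb O ψ) + t)))) ^ 2 ≤
      Th M O (x + y) * Th M O (x - y) *
        (Th M O 0 * Ex M O 0 (fun ψ => F ψ * Real.cos (pr O ξ (emb O ψ)) *
          (G ψ * Real.cos (pr O η (emb O ψ))))) ^ 2 := by
  have key := master (embH O) M two_inj hM.symm hM.nonneg (quarter_sum hM hP) hF hG
    (prH O ξ) (prH O η) r t x y
  have e : ∀ (h : W → ℝ) (K : (O → ℤ) → ℝ), Th M O h * Ex M O h K = ∑' ψ, K ψ * wt M O h ψ := by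
    intro h K
    unfold Ex
    rw [mul_div_cancel₀ _ (Th_pos hM hP h).ne']
    exact tsum_congr fun ψ => mul_comm _ _
  rw [e, e, e]
  exact key

/-- 1.2 (RSD), in terms of `Th` -/
theorem Th_rsd (hM : IsForm M) (hP : PDef M O) (x y : W → ℝ) :
    (Th M O x * Th M O y) ^ 2 ≤ Th M O (x + y) * Th M O (x - y) * (Th M O 0) ^ 2 := by
  have := master_Ex hM hP (pd_one (E := O → ℤ)) (pd_one (E := O → ℤ)) 0 0 x y 0 0
  simpa [pr_zero_left, Ex_const hM hP] using this

/-- 1.2 (RSD) -/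
theorem En_rsd (hM : IsForm M) (hP : PDef M O) (x y : W → ℝ) :
    En M O (x + y) + En M O (x - y) ≤ 2 * En M O x + 2 * En M O y := by
  have h := Th_rsd hM hP x y
  rw [Th_eq hM hP x, Th_eq hM hP y, Th_eq hM hP (x + y), Th_eq hM hP (x - y)] at h
  have h0 := Th_pos hM hP (0 : W → ℝ)
  have h1 : Real.exp (2 * (-En M O x) + 2 * (-En M O y))
      ≤ Real.exp (-En M O (x + y) + -En M O (x - y)) := by
    rw [Real.exp_add, Real.exp_add, show (2 : ℝ) * (-En M O x) = -En M O x + -En M O x by ring,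
      show (2 : ℝ) * (-En M O y) = -En M O y + -En M O y by ring, Real.exp_add, Real.exp_add]
    have h2 : 0 < Th M O 0 ^ 4 := by positivity
    refine le_of_mul_le_mul_left ?_ h2
    calc Th M O 0 ^ 4 * (Real.exp (-En M O x) * Real.exp (-En M O x) *
          (Real.exp (-En M O y) * Real.exp (-En M O y)))
        = (Th M O 0 * Real.exp (-En M O x) * (Th M O 0 * Real.exp (-En M O y))) ^ 2 := by ring
      _ ≤ _ := h
      _ = _ := by ring
  have := Real.exp_le_exp.1 h1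
  linarith

/-- positive definite functions have nonnegative mean -/
theorem Ex_pd_nonneg (hM : IsForm M) (hP : PDef M O) {F : (O → ℤ) → ℝ} (hF : PD F) :
    0 ≤ Ex M O 0 F := by
  unfold Ex
  refine div_nonneg ?_ (Th_nonneg M O 0)
  have := pd_sum_nonneg (embH O) M two_inj hM.symm hM.nonneg (quarter_sum hM hP 0) hF
  refine this.trans_eq (tsum_congr fun ψ => ?_)
  rw [gw_eq, mul_comm]

/-- 1.3, 1.4 (a) with a phase -/
theorem Ex_pd_cos (hM : IsForm M) (hP : PDef M O) {F : (O → ℤ) → ℝ} (hF : PD F) (ξ h : W → ℝ)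
    (θ : ℝ) : |Ex M O h (fun ψ => F ψ * Real.cos (pr O ξ (emb O ψ) + θ))| ≤
      Ex M O 0 (fun ψ => F ψ * Real.cos (pr O ξ (emb O ψ))) := by
  have key := master_Ex hM hP hF (pd_one (E := O → ℤ)) ξ 0 h 0 θ 0
  simp only [pr_zero_left, add_zero, Real.cos_zero, mul_one, sub_zero] at key
  rw [Ex_const hM hP, mul_one] at key
  have h0 := Th_pos hM hP (0 : W → ℝ)
  have h1 := Th_pos hM hP h
  obtain ⟨a, ha⟩ : ∃ a, a = Ex M O h (fun ψ => F ψ * Real.cos (pr O ξ (emb O ψ) + θ)) := ⟨_, rfl⟩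
  obtain ⟨b, hb⟩ : ∃ b, b = Ex M O 0 (fun ψ => F ψ * Real.cos (pr O ξ (emb O ψ))) := ⟨_, rfl⟩
  have hb0 : 0 ≤ b := by
    rw [hb]
    exact Ex_pd_nonneg hM hP (hF.mul (pd_cos (prH O ξ)))
  rw [← ha, ← hb] at key ⊢
  have hsq : a ^ 2 ≤ b ^ 2 := by
    have h2 : 0 < (Th M O h * Th M O 0) ^ 2 := by positivity
    refine le_of_mul_le_mul_left ?_ h2
    calc (Th M O h * Th M O 0) ^ 2 * a ^ 2 = (Th M O h * a * Th M O 0) ^ 2 := by ring
      _ ≤ _ := key
      _ = _ := by ring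
  exact abs_le_of_sq_le_sq hsq hb0

theorem Ex_pd (hM : IsForm M) (hP : PDef M O) {F : (O → ℤ) → ℝ} (hF : PD F) (h : W → ℝ) :
    |Ex M O h F| ≤ Ex M O 0 F := by
  have := Ex_pd_cos hM hP hF 0 h 0
  simpa [pr_zero_left] using this

theorem Ex_cos (hM : IsForm M) (hP : PDef M O) (ξ h : W → ℝ) (θ : ℝ) :
    |Ex M O h (fun ψ => Real.cos (pr O ξ (emb O ψ) + θ))| ≤
      Ex M O 0 (fun ψ => Real.cos (pr O ξ (emb O ψ))) := by
  have := Ex_pd_cos hM hP (pd_one (E := O → ℤ)) ξ h θ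
  simpa using this

theorem Ex_pd_mul (hM : IsForm M) (hP : PDef M O) {F G : (O → ℤ) → ℝ} (hF : PD F) (hG : PD G) :
    Ex M O 0 F * Ex M O 0 G ≤ Ex M O 0 (fun ψ => F ψ * G ψ) := by
  have key := master_Ex hM hP hF hG 0 0 0 0 0 0
  simp only [pr_zero_left, add_zero, Real.cos_zero, mul_one, sub_zero] at key
  have h0 := Th_pos hM hP (0 : W → ℝ)
  obtain ⟨a, ha⟩ : ∃ a, a = Ex M O 0 F := ⟨_, rfl⟩
  obtain ⟨b, hb⟩ : ∃ b, b = Ex M O 0 G := ⟨_, rfl⟩
  obtain ⟨c, hc⟩ : ∃ c, c = Ex M O 0 (fun ψ => F ψ * G ψ) := ⟨_, rfl⟩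
  have hc0 : 0 ≤ c := by
    rw [hc]
    exact Ex_pd_nonneg hM hP (hF.mul hG)
  rw [← ha, ← hb, ← hc] at key ⊢
  have hsq : (a * b) ^ 2 ≤ c ^ 2 := by
    have h2 : 0 < Th M O 0 ^ 4 := by positivity
    refine le_of_mul_le_mul_left ?_ h2
    calc Th M O 0 ^ 4 * (a * b) ^ 2 = (Th M O 0 * a * (Th M O 0 * b)) ^ 2 := by ring
      _ ≤ _ := key
      _ = _ := by ring
  exact (le_abs_self _).trans (abs_le_of_sq_le_sq hsq hc0)

/-! ### general translated version -/

/-- `F` positive definite on a group `B` (no 2-torsion), `j : ℤ^O → B`, translation `τ`. -/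
theorem Ex_pd_gen (hM : IsForm M) (hP : PDef M O) {B : Type*} [AddCommGroup B]
    (hB : Function.Injective (fun a : B => a + a)) {F : B → ℝ} (hF : PD F) (j : (O → ℤ) →+ B)
    (τ : B) (h : W → ℝ) :
    |Ex M O h (fun ψ => F (j ψ + τ))| ≤ Ex M O 0 (fun ψ => F (j ψ)) := by
  have key := master_gen (embH O) M two_inj hB two_inj hM.symm hM.nonneg (quarter_sum hM hP)
    hF (pd_one (E := O → ℤ)) j (AddMonoidHom.id _) τ 0 h 0
  have e : ∀ (h : W → ℝ) (K : (O → ℤ) → ℝ), Th M O h * Ex M O h K = ∑' ψ, K ψ * wt M O h ψ := by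
    intro h K
    unfold Ex
    rw [mul_div_cancel₀ _ (Th_pos hM hP h).ne']
    exact tsum_congr fun ψ => mul_comm _ _
  have h0 := Th_pos hM hP (0 : W → ℝ)
  have h1 := Th_pos hM hP h
  have key2 : ((Th M O h * Ex M O h (fun ψ => F (j ψ + τ))) * (Th M O 0 * 1)) ^ 2 ≤
      Th M O h * Th M O h * (Th M O 0 * Ex M O 0 (fun ψ => F (j ψ))) ^ 2 := by
    rw [e, e, ← Ex_const hM hP 0 1, e]
    simp only [add_zero, sub_zero, mul_one] at key
    exact key
  obtain ⟨a, ha⟩ : ∃ a, a = Ex M O h (fun ψ => F (j ψ + τ)) := ⟨_, rfl⟩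
  obtain ⟨b, hb⟩ : ∃ b, b = Ex M O 0 (fun ψ => F (j ψ)) := ⟨_, rfl⟩
  have hb0 : 0 ≤ b := by
    rw [hb]
    exact Ex_pd_nonneg hM hP (hF.comp j)
  rw [← ha, ← hb] at key2 ⊢
  have hsq : a ^ 2 ≤ b ^ 2 := by
    have h2 : 0 < (Th M O h * Th M O 0) ^ 2 := by positivity
    refine le_of_mul_le_mul_left ?_ h2
    calc (Th M O h * Th M O 0) ^ 2 * a ^ 2 = (Th M O h * a * (Th M O 0 * 1)) ^ 2 := by ring
      _ ≤ _ := key2
      _ = _ := by ring
  exact abs_le_of_sq_le_sq hsq hb0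

theorem fun_two_inj : Function.Injective (fun f : W → ℝ => f + f) := by
  intro f g h
  funext x
  have := congrFun h x
  simp only [Pi.add_apply] at this
  linarith

/-- the version with `F (ψ - a)`, `F` positive definite on `W → ℝ` -/
theorem Ex_pd_shift (hM : IsForm M) (hP : PDef M O) {F : (W → ℝ) → ℝ} (hF : PD F)
    (h a : W → ℝ) :
    |Ex M O h (fun ψ => F (emb O ψ - a))| ≤ Ex M O 0 (fun ψ => F (emb O ψ)) := by
  have := Ex_pd_gen hM hP fun_two_inj hF (embH O) (-a) h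
  simpa [sub_eq_add_neg] using this

/-! ### 1.4 (c) -/

/-- 1.4 (c) -/
theorem Ex_pd_exp (hM : IsForm M) (hP : PDef M O) {F : (O → ℤ) → ℝ} (hF : PD F) (f : W → ℝ) :
    Ex M O 0 (fun ψ => F ψ * Real.exp (pr O f (emb O ψ))) ≤
      Ex M O 0 F * Real.exp (La M O f) := by
  obtain ⟨u, hu⟩ := exists_pot hM hP f
  have h1 := Ex_mul_exp_zero hM hP u F
  simp only [hu.emb' hM] at h1
  rw [h1, La_eq hM hP hu, hu.nsq_eq hM, mul_comm]
  exact mul_le_mul_of_nonneg_right ((le_abs_self _).trans (Ex_pd hM hP hF u)) (Real.exp_pos _).le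

/-! ### Gaussian factors -/

/-- the factor `e^{-D/2}` -/
def GF (D : BF W) (φ : W → ℝ) : ℝ := Real.exp (-(1 / 2) * D φ φ)

theorem GF_pos (D : BF W) (φ : W → ℝ) : 0 < GF D φ := Real.exp_pos _

theorem pd_GF (hD : IsForm D) : PD (GF D) := by
  have := pd_gauss D hD.symm hD.nonneg
  refine cast ?_ this
  congr 1
  funext φ
  unfold GF
  congr 1
  ring

theorem pd_GF_emb (hD : IsForm D) : PD (fun ψ : O → ℤ => GF D (emb O ψ)) :=
  (pd_GF hD).comp (embH O)

theorem GF_le_one (hD : IsForm D) (φ : W → ℝ) : GF D φ ≤ 1 := by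
  unfold GF
  rw [Real.exp_le_one_iff]
  have := hD.nonneg φ
  linarith

theorem wt_add (M D : BF W) (O : Finset W) (h : W → ℝ) (ψ : O → ℤ) :
    wt (M + D) O h ψ = wt M O h ψ * GF D (emb O ψ - h) := by
  unfold wt GF
  rw [← Real.exp_add]
  congr 1
  simp only [LinearMap.add_apply]
  ring

theorem tame_GF (hD : IsForm D) (h : W → ℝ) : Tame (O := O) (fun ψ => GF D (emb O ψ - h)) :=
  tame_bdd 1 fun ψ => by rw [abs_of_pos (GF_pos _ _)]; exact GF_le_one hD _

theorem Th_add (hM : IsForm M) (hP : PDef M O) (D : BF W) (h : W → ℝ) :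
    Th (M + D) O h = Th M O h * Ex M O h (fun ψ => GF D (emb O ψ - h)) := by
  unfold Ex
  rw [mul_div_cancel₀ _ (Th_pos hM hP h).ne']
  unfold Th
  simp only [wt_add]

theorem Ex_add_form (hM : IsForm M) (hP : PDef M O) (D : BF W) (h : W → ℝ)
    (F : (O → ℤ) → ℝ) :
    Ex (M + D) O h F = Ex M O h (fun ψ => GF D (emb O ψ - h) * F ψ) /
      Ex M O h (fun ψ => GF D (emb O ψ - h)) := by
  have h1 : Ex (M + D) O h F
      = (∑' ψ : O → ℤ, wt M O h ψ * (GF D (emb O ψ - h) * F ψ)) / Th (M + D) O h := by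
    unfold Ex
    simp only [wt_add, mul_assoc]
  rw [h1, Th_add hM hP]
  unfold Ex
  rw [div_div]

/-! ### 1.5 -/

/-- 1.5 (a) -/
theorem En_add_form (hM : IsForm M) (hP : PDef M O) (hD : IsForm D) (h : W → ℝ) :
    En M O h ≤ En (M + D) O h := by
  have hMD := hM.add hD
  have hPD := hP.add_form hD
  have h1 : Real.exp (-En (M + D) O h) ≤ Real.exp (-En M O h) := by
    rw [En_def' hMD hPD, En_def' hM hP, Th_add hM hP, Th_add hM hP]
    simp only [sub_zero]
    have h2 := (le_abs_self _).trans (Ex_pd_shift hM hP (pd_GF hD) h h)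
    have h3 : 0 < Ex M O 0 (fun ψ => GF D (emb O ψ)) :=
      Ex_pos hM hP 0 (by simpa using tame_GF (O := O) hD 0) fun ψ => GF_pos _ _
    have h4 := Th_pos hM hP h
    have h5 := Th_pos hM hP (0 : W → ℝ)
    rw [div_le_div_iff₀ (mul_pos h5 h3) h5]
    calc Th M O h * Ex M O h (fun ψ => GF D (emb O ψ - h)) * Th M O 0
        ≤ Th M O h * Ex M O 0 (fun ψ => GF D (emb O ψ)) * Th M O 0 := by gcongr
      _ = _ := by ring
  have := Real.exp_le_exp.1 h1
  linarith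

/-- 1.5 (d) -/
theorem Ex_pd_add_form (hM : IsForm M) (hP : PDef M O) (hD : IsForm D) {F : (O → ℤ) → ℝ}
    (hF : PD F) : Ex M O 0 F ≤ Ex (M + D) O 0 F := by
  rw [Ex_add_form hM hP]
  simp only [sub_zero]
  have h3 : 0 < Ex M O 0 (fun ψ => GF D (emb O ψ)) :=
    Ex_pos hM hP 0 (by simpa using tame_GF (O := O) hD 0) fun ψ => GF_pos _ _
  rw [le_div_iff₀ h3, mul_comm]
  exact Ex_pd_mul hM hP (pd_GF_emb hD) hF

/-! ### sublattices -/

/-- extension of integer fields by zero -/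
def up {O' : Finset W} (O : Finset W) (ψ : O' → ℤ) : O → ℤ :=
  fun x => if h : (x : W) ∈ O' then ψ ⟨x, h⟩ else 0

theorem emb_up {O' : Finset W} (hO : O' ⊆ O) (ψ : O' → ℤ) : emb O (up O ψ) = emb O' ψ := by
  funext x
  by_cases h : x ∈ O'
  · rw [emb_apply_mem (hO h), emb_apply_mem h]
    simp [up, h]
  · rw [emb_apply_not h]
    by_cases h' : x ∈ O
    · rw [emb_apply_mem h']
      simp [up, h]
    · exact emb_apply_not h'

theorem up_inj {O' : Finset W} (hO : O' ⊆ O) : Function.Injective (up (O' := O') O) := by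
  intro ψ χ h
  apply emb_inj
  rw [← emb_up hO, ← emb_up hO, h]

/-- the sublattice of the fields vanishing off `O'` -/
def subL (O O' : Finset W) : AddSubgroup (O → ℤ) where
  carrier := {ψ | ∀ x : O, (x : W) ∉ O' → ψ x = 0}
  zero_mem' := fun _ _ => rfl
  add_mem' := fun {a b} ha hb x hx => by simp [ha x hx, hb x hx]
  neg_mem' := fun {a} ha x hx => by simp [ha x hx]

theorem mem_subL {O' : Finset W} {ψ : O → ℤ} :
    ψ ∈ subL O O' ↔ ∀ x : O, (x : W) ∉ O' → ψ x = 0 := Iff.rfl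

theorem up_mem {O' : Finset W} (ψ : O' → ℤ) : up O ψ ∈ subL O O' := by
  intro x hx
  simp [up, hx]

theorem mem_subL_iff {O' : Finset W} (hO : O' ⊆ O) {ψ : O → ℤ} :
    ψ ∈ subL O O' ↔ ψ ∈ Set.range (up (O' := O') O) := by
  constructor
  · intro h
    refine ⟨fun x => ψ ⟨x, hO x.2⟩, ?_⟩
    funext x
    by_cases hx : (x : W) ∈ O'
    · simp [up, hx]
    · simp [up, hx, h x hx]
  · rintro ⟨χ, rfl⟩
    exact up_mem χ

open Classical in
/-- indicator of the sublattice -/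
def ind (O O' : Finset W) (ψ : O → ℤ) : ℝ := if ψ ∈ subL O O' then 1 else 0

theorem pd_ind (O O' : Finset W) : PD (ind O O') := by
  classical
  have := pd_subgroup (subL O O')
  exact this

theorem ind_nonneg (O O' : Finset W) (ψ : O → ℤ) : 0 ≤ ind O O' ψ := by
  unfold ind; split_ifs <;> norm_num

theorem tame_ind (O O' : Finset W) : Tame (ind O O') := (pd_ind O O').tame

theorem tsum_sub {O' : Finset W} (hO : O' ⊆ O) (g : (O → ℤ) → ℝ) :
    ∑' ψ : O' → ℤ, g (up O ψ) = ∑' ψ : O → ℤ, ind O O' ψ * g ψ := by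
  have hs : Function.support (fun ψ : O → ℤ => ind O O' ψ * g ψ) ⊆
      Set.range (up (O' := O') O) := by
    intro ψ hψ
    rw [← mem_subL_iff hO]
    by_contra hc
    apply hψ
    simp [ind, hc]
  rw [← (up_inj hO).tsum_eq hs]
  refine tsum_congr fun ψ => ?_
  simp [ind, up_mem]

theorem wt_up {O' : Finset W} (hO : O' ⊆ O) (M : BF W) (h : W → ℝ) (ψ : O' → ℤ) :
    wt M O h (up O ψ) = wt M O' h ψ := by
  unfold wt
  rw [emb_up hO]

theorem Th_sub (hM : IsForm M) (hP : PDef M O) {O' : Finset W} (hO : O' ⊆ O) (h : W → ℝ) :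
    Th M O' h = Th M O h * Ex M O h (ind O O') := by
  unfold Ex
  rw [mul_div_cancel₀ _ (Th_pos hM hP h).ne']
  have : Th M O' h = ∑' ψ : O' → ℤ, wt M O h (up O ψ) := by
    unfold Th
    exact tsum_congr fun ψ => (wt_up hO M h ψ).symm
  rw [this, tsum_sub hO]
  exact tsum_congr fun ψ => mul_comm _ _

theorem Ex_sub_lattice (hM : IsForm M) (hP : PDef M O) {O' : Finset W} (hO : O' ⊆ O)
    (h : W → ℝ) (F : (O' → ℤ) → ℝ) (F' : (O → ℤ) → ℝ) (hF : ∀ ψ, F' (up O ψ) = F ψ) :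
    Ex M O' h F = Ex M O h (fun ψ => ind O O' ψ * F' ψ) / Ex M O h (ind O O') := by
  have h1 : ∑' ψ : O' → ℤ, wt M O' h ψ * F ψ
      = ∑' ψ : O → ℤ, wt M O h ψ * (ind O O' ψ * F' ψ) := by
    have : ∑' ψ : O' → ℤ, wt M O' h ψ * F ψ
        = ∑' ψ : O' → ℤ, wt M O h (up O ψ) * F' (up O ψ) :=
      tsum_congr fun ψ => by rw [wt_up hO, hF]
    rw [this, tsum_sub hO (fun ψ => wt M O h ψ * F' ψ)]
    exact tsum_congr fun ψ => by ring
  have h2 : Ex M O' h F = (∑' ψ : O' → ℤ, wt M O' h ψ * F ψ) / Th M O' h := rfl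
  rw [h2, h1, Th_sub hM hP hO]
  have h3 : ∀ K : (O → ℤ) → ℝ, Ex M O h K = (∑' ψ : O → ℤ, wt M O h ψ * K ψ) / Th M O h :=
    fun K => rfl
  rw [h3 (fun ψ => ind O O' ψ * F' ψ), div_div]

theorem Ex_ind_pos (hM : IsForm M) (hP : PDef M O) {O' : Finset W} (hO : O' ⊆ O) (h : W → ℝ) :
    0 < Ex M O h (ind O O') := by
  have h1 := Th_sub hM hP hO h
  have h2 := Th_pos hM (hP.mono hO) h
  have h3 := Th_pos hM hP h
  rw [h1] at h2
  exact pos_of_mul_pos_of_pos_left' h2 h3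
  where
    pos_of_mul_pos_of_pos_left' {a b : ℝ} (h : 0 < a * b) (ha : 0 < a) : 0 < b := by
      by_contra hb
      push Not at hb
      have := mul_nonpos_of_nonneg_of_nonpos ha.le hb
      linarith

/-- 1.5 (b) -/
theorem En_sub_lattice (hM : IsForm M) (hP : PDef M O) {O' : Finset W} (hO : O' ⊆ O)
    (h : W → ℝ) : En M O h ≤ En M O' h := by
  have hP' := hP.mono hO
  have h1 : Real.exp (-En M O' h) ≤ Real.exp (-En M O h) := by
    rw [En_def' hM hP', En_def' hM hP, Th_sub hM hP hO, Th_sub hM hP hO]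
    have h2 := (le_abs_self _).trans (Ex_pd hM hP (pd_ind O O') h)
    have h3 := Ex_ind_pos hM hP hO 0
    have h4 := Th_pos hM hP h
    have h5 := Th_pos hM hP (0 : W → ℝ)
    rw [div_le_div_iff₀ (mul_pos h5 h3) h5]
    calc Th M O h * Ex M O h (ind O O') * Th M O 0
        ≤ Th M O h * Ex M O 0 (ind O O') * Th M O 0 := by gcongr
      _ = _ := by ring
  have := Real.exp_le_exp.1 h1
  linarith

/-- 1.5 (d) for sublattices -/
theorem Ex_pd_sub_lattice (hM : IsForm M) (hP : PDef M O) {O' : Finset W} (hO : O' ⊆ O)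
    {F : (W → ℝ) → ℝ} (hF : PD (fun ψ : O → ℤ => F (emb O ψ))) :
    Ex M O 0 (fun ψ => F (emb O ψ)) ≤ Ex M O' 0 (fun ψ => F (emb O' ψ)) := by
  rw [Ex_sub_lattice hM hP hO 0 (fun ψ => F (emb O' ψ)) (fun ψ => F (emb O ψ))
    (fun ψ => by rw [emb_up hO])]
  rw [le_div_iff₀ (Ex_ind_pos hM hP hO 0), mul_comm]
  exact Ex_pd_mul hM hP (pd_ind O O') hF

/-- 1.5 (c) -/
theorem La_mono (hM : IsForm M) (hP : PDef M O) (hD : IsForm D) {O' : Finset W} (hO : O' ⊆ O)
    (f : W → ℝ) : La (M + D) O' f ≤ La M O f := by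
  have hMD := hM.add hD
  have hPD := hP.add_form hD
  have hPD' := hPD.mono hO
  have h1 : Real.exp (La (M + D) O' f) ≤ Real.exp (La M O f) := by
    rw [exp_La hMD hPD']
    rw [Ex_sub_lattice hMD hPD hO 0 (fun ψ => Real.exp (pr O' f (emb O' ψ)))
      (fun ψ => Real.exp (pr O f (emb O ψ)))
      (fun ψ => by rw [emb_up hO, pr_eq_of_supp hO f (supp_emb ψ)])]
    rw [div_le_iff₀ (Ex_ind_pos hMD hPD hO 0), Ex_add_form hM hP, Ex_add_form hM hP]
    simp only [sub_zero]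
    have h3 : 0 < Ex M O 0 (fun ψ => GF D (emb O ψ)) :=
      Ex_pos hM hP 0 (by simpa using tame_GF (O := O) hD 0) fun ψ => GF_pos _ _
    rw [← mul_div_assoc]
    gcongr
    have := Ex_pd_exp hM hP ((pd_GF_emb (O := O) hD).mul (pd_ind O O')) f
    rw [mul_comm (Real.exp (La M O f))]
    refine le_trans (le_of_eq ?_) this
    congr 1
    funext ψ
    ring
  exact Real.exp_le_exp.1 h1

end Pool.Agent.LR
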