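import Pool.Agent.LR.B1.Gau

/-!
B1: 1.6 (bounds of `En`, the quadratic form `qf`, moments, perturbation).
-/

set_option autoImplicit false
set_option linter.unusedSectionVars false

noncomputable section

open scoped BigOperators Topology
open Filter Set

namespace Pool.Agent.LR

variable {W : Type*} [DecidableEq W] {M D : BF W} {O : Finset W}

/-! ### 1.6 (a), (b) -/

theorem En_two (hM : IsForm M) (hP : PDef M O) (h : W → ℝ) :
    En M O ((2 : ℝ) • h) ≤ 4 * En M O h := by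
  have := En_rsd hM hP h h
  rw [sub_self, En_zero hM hP, ← two_smul ℝ h] at this
  linarith

theorem En_two_pow (hM : IsForm M) (hP : PDef M O) (h : W → ℝ) (k : ℕ) :
    En M O ((2 : ℝ) ^ k • h) ≤ 4 ^ k * En M O h := by
  induction k with
  | zero => simp
  | succ k ih =>
    have := En_two hM hP ((2 : ℝ) ^ k • h)
    rw [smul_smul, ← pow_succ'] at this
    calc En M O ((2 : ℝ) ^ (k + 1) • h) ≤ 4 * En M O ((2 : ℝ) ^ k • h) := this
      _ ≤ 4 * (4 ^ k * En M O h) := by gcongr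
      _ = _ := by ring

/-- a minimiser of `M(ψ - y)` -/
theorem exists_min (hM : IsForm M) (hP : PDef M O) (y : W → ℝ) :
    ∃ ψ₀ : O → ℤ, ∀ ψ, wt M O y ψ ≤ wt M O y ψ₀ := by
  have h1 := (summable_wt hM hP y).tendsto_cofinite_zero
  have h2 : {ψ : O → ℤ | wt M O y 0 ≤ wt M O y ψ}.Finite := by
    have := h1.eventually (gt_mem_nhds (wt_pos M O y 0))
    rw [Filter.eventually_cofinite] at this
    refine this.subset fun ψ hψ => ?_
    exact not_lt.2 hψ
  obtain ⟨ψ₀, hψ₀, hmax⟩ := Set.exists_max_image _ (wt M O y) h2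
    ⟨0, show wt M O y 0 ≤ wt M O y 0 from le_rfl⟩
  refine ⟨ψ₀, fun ψ => ?_⟩
  by_cases hψ : wt M O y 0 ≤ wt M O y ψ
  · exact hmax ψ hψ
  · exact (not_le.1 hψ).le.trans hψ₀

/-- uniform bound of the theta function -/
theorem Th_le (hM : IsForm M) (hP : PDef M O) (y : W → ℝ) :
    Th M O y ≤ ∑' ψ : O → ℤ, Real.exp (-(1 / 8) * M (emb O ψ - 0) (emb O ψ - 0)) * 1 := by
  obtain ⟨ψ₀, hmin⟩ := exists_min hM hP y
  have hs := summable_gen hM hP (t := 1 / 8) (by norm_num) 0 (tame_const (O := O) 1)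
  have h1 : Th M O y = ∑' χ : O → ℤ, wt M O y (χ + ψ₀) :=
    ((Equiv.addRight ψ₀).tsum_eq (wt M O y)).symm
  rw [h1]
  have hs1 : Summable (fun χ : O → ℤ => wt M O y (χ + ψ₀)) :=
    (Equiv.addRight ψ₀).summable_iff.2 (summable_wt hM hP y)
  refine hs1.tsum_le_tsum (fun χ => ?_) hs
  rw [mul_one]
  have h2 : M (emb O ψ₀ - y) (emb O ψ₀ - y) ≤
      M (emb O (χ + ψ₀) - y) (emb O (χ + ψ₀) - y) := by
    have := hmin (χ + ψ₀)
    unfold wt at this
    rw [Real.exp_le_exp] at this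
    linarith
  unfold wt
  rw [Real.exp_le_exp]
  have h3 := hM.le_two (emb O χ) (-(emb O ψ₀ - y))
  rw [neg_sq'] at h3
  have e : emb O χ - -(emb O ψ₀ - y) = emb O (χ + ψ₀) - y := by
    rw [emb_add]; abel
  rw [e] at h3
  rw [sub_zero]
  linarith

theorem En_nonneg (hM : IsForm M) (hP : PDef M O) (h : W → ℝ) : 0 ≤ En M O h := by
  obtain ⟨B, hB⟩ : ∃ B, B = ∑' ψ : O → ℤ,
    Real.exp (-(1 / 8) * M (emb O ψ - 0) (emb O ψ - 0)) * 1 := ⟨_, rfl⟩
  have hlow : ∀ y, -Real.log (B / Th M O 0) ≤ En M O y := by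
    intro y
    unfold En
    rw [neg_le_neg_iff]
    refine Real.log_le_log (div_pos (Th_pos hM hP y) (Th_pos hM hP 0)) ?_
    have := Th_le hM hP y
    rw [← hB] at this
    exact div_le_div_of_nonneg_right this (Th_nonneg M O 0)
  have h1 : ∀ k : ℕ, -Real.log (B / Th M O 0) * ((1 / 4 : ℝ)) ^ k ≤ En M O h := by
    intro k
    have h2 := (hlow ((2 : ℝ) ^ k • h)).trans (En_two_pow hM hP h k)
    have h3 : (0 : ℝ) < (1 / 4) ^ k := by positivity
    calc -Real.log (B / Th M O 0) * ((1 / 4 : ℝ)) ^ k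
        ≤ (4 ^ k * En M O h) * (1 / 4) ^ k := mul_le_mul_of_nonneg_right h2 h3.le
      _ = (4 * (1 / 4)) ^ k * En M O h := by rw [mul_pow]; ring
      _ = En M O h := by norm_num
  have h4 : Tendsto (fun k : ℕ => -Real.log (B / Th M O 0) * ((1 / 4 : ℝ)) ^ k) atTop (𝓝 0) := by
    have := (tendsto_pow_atTop_nhds_zero_of_lt_one (r := (1 / 4 : ℝ)) (by norm_num)
      (by norm_num)).const_mul (-Real.log (B / Th M O 0))
    simpa using this
  exact le_of_tendsto' h4 h1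

theorem Ex_lin_zero (M : BF W) (O : Finset W) (l : (W → ℝ) →ₗ[ℝ] ℝ) :
    Ex M O 0 (fun ψ => l (emb O ψ)) = 0 :=
  Ex_zero_odd M O fun ψ => by rw [emb_neg, map_neg]

theorem En_le (hM : IsForm M) (hP : PDef M O) (h : W → ℝ) : En M O h ≤ M h h / 2 := by
  have h1 := Ex_exp_zero hM hP h
  have h2 := Ex_jensen hM hP 0 (tame_form_right (O := O) M h)
    (by simpa using tame_exp_lin (O := O) (M.flip h))
  have h3 := Ex_lin_zero M O (M.flip h)
  simp only [LinearMap.flip_apply] at h3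
  rw [h3, h1, Real.exp_le_exp] at h2
  linarith

theorem La_nonneg (hM : IsForm M) (hP : PDef M O) (f : W → ℝ) : 0 ≤ La M O f := by
  obtain ⟨u, hu⟩ := exists_pot hM hP f
  rw [La_eq hM hP hu, hu.nsq_eq hM]
  have := En_le hM hP u
  linarith

theorem La_le (hM : IsForm M) (hP : PDef M O) (f : W → ℝ) : La M O f ≤ nsq M O f / 2 := by
  obtain ⟨u, hu⟩ := exists_pot hM hP f
  rw [La_eq hM hP hu]
  have := En_nonneg hM hP u
  linarith

/-! ### hyperbolic cosine -/

theorem four_le_cosh (x : ℝ) : x ^ 4 / 24 ≤ Real.cosh x := by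
  have h := Real.hasSum_cosh x
  have := le_hasSum h 2 (fun n _ => div_nonneg (by rw [pow_mul]; positivity) (by positivity))
  norm_num [Nat.factorial] at this
  exact this

theorem sq_le_cosh (x : ℝ) : 1 + x ^ 2 / 2 ≤ Real.cosh x := by
  have h := Real.hasSum_cosh x
  have := sum_le_hasSum (Finset.range 2)
    (fun n _ => div_nonneg (by rw [pow_mul]; positivity) (by positivity)) h
  rw [Finset.sum_range_succ, Finset.sum_range_one] at this
  norm_num [Nat.factorial] at this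
  exact this

theorem cosh_mul_le {a : ℝ} (ha0 : 0 ≤ a) (ha : a ≤ 1) (x : ℝ) :
    Real.cosh (a * x) ≤ 1 + a ^ 2 * x ^ 2 / 2 + a ^ 4 * Real.cosh x := by
  have h1 := Real.hasSum_cosh (a * x)
  have h2 := (Real.hasSum_cosh x).mul_left (a ^ 4)
  have h3 := hasSum_ite_eq (0 : ℕ) (1 : ℝ)
  have h4 := hasSum_ite_eq (1 : ℕ) (a ^ 2 * x ^ 2 / 2)
  have h5 := (h3.add h4).add h2
  refine hasSum_le (fun n => ?_) h1 h5
  rcases n with _ | _ | n
  · norm_num [Nat.factorial]
    positivity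
  · norm_num [Nat.factorial]
    have : (a * x) ^ 2 / 2 = a ^ 2 * x ^ 2 / 2 := by ring
    rw [this]
    have : 0 ≤ a ^ 4 * (x ^ 2 / 2) := by positivity
    linarith
  · have hn0 : ¬ (n + 1 + 1 = 0) := by omega
    have hn1 : ¬ (n + 1 + 1 = 1) := by omega
    simp only [hn0, hn1, if_false, zero_add]
    have e1 : (a * x) ^ (2 * (n + 1 + 1)) = a ^ (2 * (n + 1 + 1)) * (x ^ 2) ^ (n + 1 + 1) := by
      rw [mul_pow, pow_mul x]
    have e2 : x ^ (2 * (n + 1 + 1)) = (x ^ 2) ^ (n + 1 + 1) := pow_mul x 2 _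
    rw [e1, e2, mul_div_assoc]
    have e3 : a ^ (2 * (n + 1 + 1)) ≤ a ^ 4 := pow_le_pow_of_le_one ha0 ha (by omega)
    refine mul_le_mul_of_nonneg_right e3 ?_
    positivity

/-! ### 1.6 (c) -/

theorem Ex_exp_eq_cosh (hM : IsForm M) (hP : PDef M O) (l : (W → ℝ) →ₗ[ℝ] ℝ) :
    Ex M O 0 (fun ψ => Real.exp (l (emb O ψ))) = Ex M O 0 (fun ψ => Real.cosh (l (emb O ψ))) := by
  have h1 : (fun ψ : O → ℤ => Real.exp (l (emb O ψ)))
      = fun ψ => Real.cosh (l (emb O ψ)) + Real.sinh (l (emb O ψ)) := by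
    funext ψ; rw [Real.cosh_add_sinh]
  have t1 : Tame (O := O) (fun ψ => Real.exp (l (emb O ψ))) := tame_exp_lin l
  have t2 : Tame (O := O) (fun ψ => Real.exp (-(l (emb O ψ)))) := by
    simpa using tame_exp_lin (O := O) (-l)
  have tc : Tame (O := O) (fun ψ => Real.cosh (l (emb O ψ))) := by
    have := (t1.add t2).smul (1 / 2)
    refine this.of_le fun ψ => le_of_eq ?_
    rw [Real.cosh_eq]; congr 1; ring
  have ts : Tame (O := O) (fun ψ => Real.sinh (l (emb O ψ))) := by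
    have := (t1.sub t2).smul (1 / 2)
    refine this.of_le fun ψ => le_of_eq ?_
    rw [Real.sinh_eq]; congr 1; ring
  rw [h1, Ex_add hM hP 0 tc ts]
  have : Ex M O 0 (fun ψ => Real.sinh (l (emb O ψ))) = 0 :=
    Ex_zero_odd M O fun ψ => by rw [emb_neg, map_neg, Real.sinh_neg]
  rw [this, add_zero]

theorem tame_cosh (l : (W → ℝ) →ₗ[ℝ] ℝ) : Tame (O := O) (fun ψ => Real.cosh (l (emb O ψ))) := by
  have t1 : Tame (O := O) (fun ψ => Real.exp (l (emb O ψ))) := tame_exp_lin l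
  have t2 : Tame (O := O) (fun ψ => Real.exp (-(l (emb O ψ)))) := by
    simpa using tame_exp_lin (O := O) (-l)
  have := (t1.add t2).smul (1 / 2)
  refine this.of_le fun ψ => le_of_eq ?_
  rw [Real.cosh_eq]; congr 1; ring

/-- the quadratic form `q(x) = M(x) - E_0 T_x²`, polarised -/
def qf (M : BF W) (O : Finset W) (x y : W → ℝ) : ℝ :=
  M x y - Ex M O 0 (fun ψ => M (emb O ψ) x * M (emb O ψ) y)

theorem qf_symm (hM : IsForm M) (O : Finset W) (x y : W → ℝ) : qf M O x y = qf M O y x := by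
  unfold qf
  rw [hM.symm x y]
  congr 2
  funext ψ
  ring

theorem qf_add_left (hM : IsForm M) (hP : PDef M O) (x y z : W → ℝ) :
    qf M O (x + y) z = qf M O x z + qf M O y z := by
  unfold qf
  have : (fun ψ : O → ℤ => M (emb O ψ) (x + y) * M (emb O ψ) z)
      = fun ψ => M (emb O ψ) x * M (emb O ψ) z + M (emb O ψ) y * M (emb O ψ) z := by
    funext ψ; rw [map_add]; ring
  rw [this, Ex_add hM hP 0 ((tame_form_right M x).mul (tame_form_right M z))
    ((tame_form_right M y).mul (tame_form_right M z)), map_add, LinearMap.add_apply]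
  ring

theorem qf_smul_left (_hM : IsForm M) (_hP : PDef M O) (a : ℝ) (x z : W → ℝ) :
    qf M O (a • x) z = a * qf M O x z := by
  unfold qf
  have : (fun ψ : O → ℤ => M (emb O ψ) (a • x) * M (emb O ψ) z)
      = fun ψ => a * (M (emb O ψ) x * M (emb O ψ) z) := by
    funext ψ; rw [map_smul, smul_eq_mul]; ring
  rw [this, Ex_mul_left, map_smul, LinearMap.smul_apply, smul_eq_mul]
  ring

/-- `qf` as a bilinear form -/
def qfB (hM : IsForm M) (hP : PDef M O) : BF W :=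
  LinearMap.mk₂ ℝ (fun x y => qf M O x y) (qf_add_left hM hP) (qf_smul_left hM hP)
    (fun x y z => by rw [qf_symm hM, qf_add_left hM hP, qf_symm hM O y, qf_symm hM O z])
    (fun a x y => by rw [qf_symm hM, qf_smul_left hM hP, qf_symm hM O y, smul_eq_mul])

@[simp] theorem qfB_apply (hM : IsForm M) (hP : PDef M O) (x y : W → ℝ) :
    qfB hM hP x y = qf M O x y := rfl

theorem qf_self (M : BF W) (O : Finset W) (x : W → ℝ) :
    qf M O x x = M x x - Ex M O 0 (fun ψ => (M (emb O ψ) x) ^ 2) := by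
  unfold qf
  congr 2
  funext ψ
  ring

theorem qf_smul_self (hM : IsForm M) (hP : PDef M O) (a : ℝ) (x : W → ℝ) :
    qf M O (a • x) (a • x) = a ^ 2 * qf M O x x := by
  rw [qf_smul_left hM hP, qf_symm hM, qf_smul_left hM hP]
  ring

theorem qf_le (M : BF W) (O : Finset W) (x : W → ℝ) : qf M O x x ≤ M x x := by
  rw [qf_self]
  have := Ex_nonneg M O (0 : W → ℝ) (F := fun ψ => (M (emb O ψ) x) ^ 2) (fun ψ => sq_nonneg _)
  linarith

theorem En_le_qf_add (hM : IsForm M) (hP : PDef M O) (x : W → ℝ) :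
    2 * En M O x ≤ qf M O x x + (M x x - qf M O x x) ^ 2 / 4 := by
  have h1 := Ex_exp_zero hM hP x
  have h2 := Ex_exp_eq_cosh hM hP (M.flip x)
  simp only [LinearMap.flip_apply] at h2
  rw [h1] at h2
  obtain ⟨s, hs⟩ : ∃ s, s = Ex M O 0 (fun ψ => (M (emb O ψ) x) ^ 2) := ⟨_, rfl⟩
  have hs0 : 0 ≤ s := by rw [hs]; exact Ex_nonneg M O 0 fun ψ => sq_nonneg _
  have h3 : 1 + s / 2 ≤ Real.exp (M x x / 2 - En M O x) := by
    rw [h2]
    have tc : Tame (O := O) (fun ψ => Real.cosh (M (emb O ψ) x)) := by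
      simpa using tame_cosh (O := O) (M.flip x)
    have t2 : Tame (O := O) (fun ψ => (M (emb O ψ) x) ^ 2) := (tame_form_right M x).pow 2
    have := Ex_mono hM hP 0 ((tame_const (O := O) 1).add (t2.smul (1 / 2))) tc
      (fun ψ => by have := sq_le_cosh (M (emb O ψ) x); linarith)
    rw [Ex_add hM hP 0 (tame_const 1) (t2.smul _), Ex_const hM hP, Ex_mul_left, ← hs] at this
    linarith
  have h4 : Real.log (1 + s / 2) ≤ M x x / 2 - En M O x := by
    rw [Real.log_le_iff_le_exp (by positivity)]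
    exact h3
  have h5 := Real.le_log_one_add_of_nonneg (x := s / 2) (by positivity)
  have h6 : s / 2 - (s / 2) ^ 2 / 2 ≤ 2 * (s / 2) / (s / 2 + 2) := by
    rw [le_div_iff₀ (by positivity)]
    nlinarith [mul_nonneg hs0 hs0, mul_nonneg (mul_nonneg hs0 hs0) hs0]
  rw [qf_self, ← hs]
  nlinarith

/-- 1.6 (c), upper bound -/
theorem En_le_qf (hM : IsForm M) (hP : PDef M O) (x : W → ℝ) : 2 * En M O x ≤ qf M O x x := by
  obtain ⟨d, hd⟩ : ∃ d, d = (M x x - qf M O x x) ^ 2 / 4 := ⟨_, rfl⟩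
  have key : ∀ k : ℕ, 2 * En M O x ≤ qf M O x x + (1 / 4 : ℝ) ^ k * d := by
    intro k
    have h1 := En_two_pow hM hP (((1 / 2 : ℝ) ^ k) • x) k
    rw [smul_smul, ← mul_pow] at h1
    norm_num at h1
    have h2 := En_le_qf_add hM hP (((1 / 2 : ℝ) ^ k) • x)
    rw [qf_smul_self hM hP, smul_sq] at h2
    have h3 : (4 : ℝ) ^ k * ((1 / 2 : ℝ) ^ k) ^ 2 = 1 := by
      rw [← pow_mul, mul_comm k 2, pow_mul, ← mul_pow]; norm_num
    have h4 : (0 : ℝ) < 4 ^ k := by positivity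
    have h5 : ((1 / 2 : ℝ) ^ k) ^ 2 = (1 / 4 : ℝ) ^ k := by
      rw [← pow_mul, mul_comm k 2, pow_mul]; norm_num
    rw [h5] at h2 h3
    have e2 : ((1 / 4 : ℝ) ^ k * M x x - (1 / 4 : ℝ) ^ k * qf M O x x) ^ 2 / 4
        = (1 / 4 : ℝ) ^ k * ((1 / 4 : ℝ) ^ k * d) := by
      rw [hd]; ring
    rw [e2] at h2
    have h1' : En M O x ≤ 4 ^ k * En M O ((1 / 2 : ℝ) ^ k • x) := by
      norm_num
      exact h1
    calc 2 * En M O x ≤ 4 ^ k * (2 * En M O ((1 / 2 : ℝ) ^ k • x)) := by linarith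
      _ ≤ 4 ^ k * ((1 / 4 : ℝ) ^ k * qf M O x x + (1 / 4 : ℝ) ^ k * ((1 / 4 : ℝ) ^ k * d)) := by
          gcongr
      _ = (4 ^ k * (1 / 4 : ℝ) ^ k) * qf M O x x
          + (4 ^ k * (1 / 4 : ℝ) ^ k) * ((1 / 4 : ℝ) ^ k * d) := by ring
      _ = _ := by rw [h3]; ring
  have h6 : Tendsto (fun k : ℕ => qf M O x x + (1 / 4 : ℝ) ^ k * d) atTop
      (𝓝 (qf M O x x + 0 * d)) :=
    ((tendsto_pow_atTop_nhds_zero_of_lt_one (r := (1 / 4 : ℝ)) (by norm_num)
      (by norm_num)).mul_const d).const_add _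
  have := ge_of_tendsto' h6 key
  linarith

theorem qf_nonneg (hM : IsForm M) (hP : PDef M O) (x : W → ℝ) : 0 ≤ qf M O x x := by
  have := En_le_qf hM hP x
  have := En_nonneg hM hP x
  linarith

theorem isForm_qfB (hM : IsForm M) (hP : PDef M O) : IsForm (qfB hM hP) :=
  ⟨fun f g => qf_symm hM O f g, fun f => qf_nonneg hM hP f⟩

/-- second moments -/
theorem Ex_form_sq_le (hM : IsForm M) (hP : PDef M O) (x : W → ℝ) :
    Ex M O 0 (fun ψ => (M (emb O ψ) x) ^ 2) ≤ M x x := by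
  have := qf_nonneg hM hP x
  rw [qf_self] at this
  linarith

theorem Ex_sq_le (hM : IsForm M) (hP : PDef M O) (f : W → ℝ) :
    Ex M O 0 (fun ψ => (pr O f (emb O ψ)) ^ 2) ≤ nsq M O f := by
  obtain ⟨u, hu⟩ := exists_pot hM hP f
  have := Ex_form_sq_le hM hP u
  rw [hu.nsq_eq hM]
  simpa only [hu.emb' hM] using this

/-- 1.6 (c), lower bound -/
theorem qf_sub_le (hM : IsForm M) (hP : PDef M O) (x : W → ℝ) (hx : M x x ≤ 1) :
    qf M O x x - 4 * (M x x) ^ 2 ≤ 2 * En M O x := by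
  rcases (hM.nonneg x).eq_or_lt with h0 | hpos
  · have h1 := qf_le M O x
    have h2 := En_nonneg hM hP x
    rw [← h0] at h1 ⊢
    linarith
  obtain ⟨a, ha⟩ : ∃ a, a = Real.sqrt (M x x) := ⟨_, rfl⟩
  have ha0 : 0 < a := by rw [ha]; exact Real.sqrt_pos.2 hpos
  have ha2 : a ^ 2 = M x x := by rw [ha]; exact Real.sq_sqrt hpos.le
  have ha1 : a ≤ 1 := by
    rw [ha, Real.sqrt_le_left zero_le_one]; simpa using hx
  have h1 := Ex_exp_zero hM hP x
  have h2 := Ex_exp_eq_cosh hM hP (M.flip x)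
  simp only [LinearMap.flip_apply] at h2
  rw [h1] at h2
  -- the normalised vector
  have hN := Ex_exp_zero hM hP (a⁻¹ • x)
  have hN2 := Ex_exp_eq_cosh hM hP (M.flip (a⁻¹ • x))
  simp only [LinearMap.flip_apply] at hN2
  rw [hN, smul_sq] at hN2
  have e1 : (a⁻¹) ^ 2 * M x x = 1 := by rw [← ha2]; field_simp
  rw [e1] at hN2
  have hN3 : Ex M O 0 (fun ψ => Real.cosh (M (emb O ψ) (a⁻¹ • x))) ≤ 2 := by
    rw [← hN2]
    have h3 := En_nonneg hM hP (a⁻¹ • x)
    calc Real.exp (1 / 2 - En M O (a⁻¹ • x)) ≤ Real.exp (1 / 2) :=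
          Real.exp_le_exp.2 (by linarith)
      _ ≤ 2 := by
          have h4 := Real.exp_one_lt_d9
          have h5 : Real.exp (1 / 2) ^ 2 = Real.exp 1 := by
            rw [← Real.exp_nat_mul]; norm_num
          nlinarith [Real.exp_pos (1 / 2)]
  have t1 : Tame (O := O) (fun ψ => Real.cosh (M (emb O ψ) x)) := by
    simpa using tame_cosh (O := O) (M.flip x)
  have t2 : Tame (O := O) (fun ψ => (M (emb O ψ) x) ^ 2) := (tame_form_right M x).pow 2
  have t3 : Tame (O := O) (fun ψ => Real.cosh (M (emb O ψ) (a⁻¹ • x))) := by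
    simpa only [LinearMap.flip_apply] using tame_cosh (O := O) (M.flip (a⁻¹ • x))
  have hle : ∀ ψ : O → ℤ, Real.cosh (M (emb O ψ) x) ≤ (1 + (1 / 2) * (M (emb O ψ) x) ^ 2)
      + a ^ 4 * Real.cosh (M (emb O ψ) (a⁻¹ • x)) := by
    intro ψ
    have h5 := cosh_mul_le ha0.le ha1 (M (emb O ψ) (a⁻¹ • x))
    rw [map_smul, smul_eq_mul] at h5 ⊢
    have e2 : a * (a⁻¹ * M (emb O ψ) x) = M (emb O ψ) x := by field_simp
    have e3 : a ^ 2 * (a⁻¹ * M (emb O ψ) x) ^ 2 / 2 = (1 / 2) * (M (emb O ψ) x) ^ 2 := by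
      field_simp
    rw [e2, e3] at h5
    exact h5
  have h6 := Ex_mono hM hP 0 t1 (((tame_const 1).add (t2.smul _)).add (t3.smul _)) hle
  rw [Ex_add hM hP 0 ((tame_const 1).add (t2.smul _)) (t3.smul _),
    Ex_add hM hP 0 (tame_const 1) (t2.smul _), Ex_const hM hP, Ex_mul_left, Ex_mul_left, ← h2]
    at h6
  have h7 := Real.add_one_le_exp (M x x / 2 - En M O x)
  have h8 := qf_self M O x
  have h9 : a ^ 4 = (M x x) ^ 2 := by rw [← ha2]; ring
  rw [h9] at h6
  have h10 : (M x x) ^ 2 * Ex M O 0 (fun ψ => Real.cosh (M (emb O ψ) (a⁻¹ • x)))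
      ≤ (M x x) ^ 2 * 2 := mul_le_mul_of_nonneg_left hN3 (sq_nonneg _)
  linarith

/-! ### 1.6 (d) -/

theorem En_add_le (hM : IsForm M) (hP : PDef M O) (y w : W → ℝ) :
    Real.sqrt (2 * En M O (y + w)) ≤ Real.sqrt (2 * En M O y) + Real.sqrt (M w w) := by
  obtain ⟨A, hA⟩ : ∃ A, A = Real.sqrt (2 * En M O y) := ⟨_, rfl⟩
  obtain ⟨B, hB⟩ : ∃ B, B = Real.sqrt (M w w) := ⟨_, rfl⟩
  have hA0 : 0 ≤ A := by rw [hA]; exact Real.sqrt_nonneg _
  have hB0 : 0 ≤ B := by rw [hB]; exact Real.sqrt_nonneg _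
  have hA2 : A ^ 2 = 2 * En M O y := by
    rw [hA]; exact Real.sq_sqrt (by have := En_nonneg hM hP y; linarith)
  have hB2 : B ^ 2 = M w w := by rw [hB]; exact Real.sq_sqrt (hM.nonneg w)
  rw [← hA, ← hB]
  -- Jensen
  have hJ : ∀ v : W → ℝ, En M O (y + v) ≤ En M O y + M v v / 2
      - Ex M O y (fun ψ => M (emb O ψ - y) v) := by
    intro v
    have e : (fun ψ : O → ℤ => M (emb O ψ - y) v) = fun ψ => M (emb O ψ) v + -(M y v) := by
      funext ψ; rw [map_sub, LinearMap.sub_apply]; ring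
    have t1 : Tame (O := O) (fun ψ => M (emb O ψ - y) v) := by
      rw [e]; exact (tame_form_right M v).add (tame_const _)
    have t2 : Tame (O := O) (fun ψ => Real.exp (M (emb O ψ - y) v)) := by
      have := (tame_exp_lin (O := O) (M.flip v)).smul (Real.exp (-(M y v)))
      refine this.of_le fun ψ => le_of_eq ?_
      rw [← Real.exp_add]
      congr 2
      rw [map_sub, LinearMap.sub_apply, LinearMap.flip_apply]; ring
    have h1 := Ex_jensen hM hP y t1 t2
    rw [Ex_exp hM hP, Real.exp_le_exp] at h1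
    linarith
  have key : ∀ t : ℝ, 0 < t → 2 * En M O (y + w) ≤ (1 + t) * (A ^ 2 / t + B ^ 2) := by
    intro t ht
    have h1 := hJ w
    have h2 := hJ (-(t • w))
    have h3 := En_nonneg hM hP (y + -(t • w))
    have e1 : Ex M O y (fun ψ => M (emb O ψ - y) (-(t • w)))
        = -(t * Ex M O y (fun ψ => M (emb O ψ - y) w)) := by
      rw [← Ex_mul_left, ← Ex_neg]
      congr 1
      funext ψ
      rw [map_neg, map_smul, smul_eq_mul]
    rw [e1, neg_sq', smul_sq] at h2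
    rw [hA2, hB2]
    have h4 : t * (2 * En M O (y + w)) ≤ t * ((1 + t) * (2 * En M O y / t + M w w)) := by
      have e2 : t * ((1 + t) * (2 * En M O y / t + M w w))
          = (1 + t) * (2 * En M O y) + (1 + t) * t * M w w := by
        field_simp
      rw [e2]
      nlinarith
    exact le_of_mul_le_mul_left h4 ht
  refine le_of_forall_pos_le_add fun ε hε => ?_
  have hbe : 0 < B + ε / 2 := by positivity
  have hae : 0 < A + ε / 2 := by positivity
  have h1 := key ((A + ε / 2) / (B + ε / 2)) (by positivity)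
  rw [Real.sqrt_le_left (by positivity)]
  refine h1.trans ?_
  have h2 : A ^ 2 / ((A + ε / 2) / (B + ε / 2)) ≤ (A + ε / 2) * (B + ε / 2) := by
    rw [div_le_iff₀ (by positivity)]
    have : (A + ε / 2) * (B + ε / 2) * ((A + ε / 2) / (B + ε / 2)) = (A + ε / 2) ^ 2 := by
      field_simp
    rw [this]
    nlinarith
  have h3 : B ^ 2 ≤ (B + ε / 2) ^ 2 := by nlinarith
  calc (1 + (A + ε / 2) / (B + ε / 2)) * (A ^ 2 / ((A + ε / 2) / (B + ε / 2)) + B ^ 2)
      ≤ (1 + (A + ε / 2) / (B + ε / 2)) * ((A + ε / 2) * (B + ε / 2) + (B + ε / 2) ^ 2) := by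
        gcongr
    _ = (A + B + ε) ^ 2 := by
        field_simp
        ring

/-- 1.6 (d) -/
theorem En_sqrt_lip (hM : IsForm M) (hP : PDef M O) (x y : W → ℝ) :
    |Real.sqrt (2 * En M O x) - Real.sqrt (2 * En M O y)| ≤ Real.sqrt (M (x - y) (x - y)) := by
  rw [abs_le]
  have h1 := En_add_le hM hP y (x - y)
  have h2 := En_add_le hM hP x (y - x)
  have e1 : y + (x - y) = x := by abel
  have e2 : x + (y - x) = y := by abel
  have e3 : M (y - x) (y - x) = M (x - y) (x - y) := by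
    rw [← neg_sub x y, neg_sq']
  rw [e1] at h1
  rw [e2, e3] at h2
  constructor <;> linarith

/-- invariance under directions of zero energy -/
theorem En_add_null (hM : IsForm M) (hP : PDef M O) (x w : W → ℝ) (hw : M w w = 0) :
    En M O (x + w) = En M O x := by
  have h := En_sqrt_lip hM hP (x + w) x
  rw [add_sub_cancel_left, hw, Real.sqrt_zero] at h
  have h0 := abs_nonpos_iff.1 h
  have h1 : Real.sqrt (2 * En M O (x + w)) = Real.sqrt (2 * En M O x) := by linarith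
  have h2 := En_nonneg hM hP (x + w)
  have h3 := En_nonneg hM hP x
  have := (Real.sqrt_inj (by linarith) (by linarith)).1 h1
  linarith

/-! ### 1.6 (e), fourth moments -/

theorem Ex_cosh_le (hM : IsForm M) (hP : PDef M O) (f : W → ℝ) :
    Ex M O 0 (fun ψ => Real.cosh (pr O f (emb O ψ))) ≤ Real.exp (nsq M O f / 2) := by
  have h1 := Ex_exp_eq_cosh hM hP (prL O f)
  simp only [prL_apply] at h1
  rw [← h1, ← exp_La hM hP, Real.exp_le_exp]
  exact La_le hM hP f

theorem Ex_four_le (hM : IsForm M) (hP : PDef M O) (f : W → ℝ) :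
    Ex M O 0 (fun ψ => (pr O f (emb O ψ)) ^ 4) ≤ 12 * (nsq M O f) ^ 2 := by
  rcases (nsq_nonneg hM hP f).eq_or_lt with h0 | hpos
  · have h1 : ∀ ψ : O → ℤ, (pr O f (emb O ψ)) ^ 4 = 0 := by
      intro ψ
      have h2 := pr_sq_le hM hP f (supp_emb ψ)
      rw [← h0, zero_mul] at h2
      have h3 : pr O f (emb O ψ) = 0 := by nlinarith [sq_nonneg (pr O f (emb O ψ))]
      rw [h3]; norm_num
    simp only [h1]
    rw [Ex_const hM hP, ← h0]
    norm_num
  obtain ⟨s, hs⟩ : ∃ s, s = 2 / Real.sqrt (nsq M O f) := ⟨_, rfl⟩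
  have hsq := Real.sq_sqrt hpos.le
  have hr : 0 < Real.sqrt (nsq M O f) := Real.sqrt_pos.2 hpos
  have hs2 : s ^ 2 * nsq M O f = 4 := by
    rw [hs, div_pow, hsq]; field_simp; norm_num
  have h1 := Ex_cosh_le hM hP (s • f)
  rw [nsq_smul hM hP, hs2] at h1
  have t1 : Tame (O := O) (fun ψ => Real.cosh (pr O (s • f) (emb O ψ))) := by
    simpa using tame_cosh (O := O) (prL O (s • f))
  have h2 := Ex_mono hM hP 0 (((tame_pr (O := O) f).pow 4).smul (s ^ 4 / 24)) t1 (fun ψ => by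
    have := four_le_cosh (pr O (s • f) (emb O ψ))
    rw [pr_smul_left] at this ⊢
    refine le_trans (le_of_eq ?_) this
    ring)
  rw [Ex_mul_left] at h2
  have h3 : s ^ 4 / 24 * Ex M O 0 (fun ψ => (pr O f (emb O ψ)) ^ 4) ≤ Real.exp 2 := by
    have := h2.trans h1
    norm_num at this
    exact this
  have h4 : Real.exp 2 ≤ 8 := by
    have h5 := Real.exp_one_lt_d9
    have h6 : Real.exp 2 = Real.exp 1 ^ 2 := by rw [← Real.exp_nat_mul]; norm_num
    rw [h6]
    nlinarith [Real.exp_pos 1]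
  have h7 : s ^ 4 * (nsq M O f) ^ 2 = 16 := by
    have : s ^ 4 * (nsq M O f) ^ 2 = (s ^ 2 * nsq M O f) ^ 2 := by ring
    rw [this, hs2]; norm_num
  have h8 : Ex M O 0 (fun ψ => (pr O f (emb O ψ)) ^ 4) * 16
      = (s ^ 4 / 24 * Ex M O 0 (fun ψ => (pr O f (emb O ψ)) ^ 4)) * (24 * (nsq M O f) ^ 2) := by
    rw [← h7]; ring
  have h9 : (s ^ 4 / 24 * Ex M O 0 (fun ψ => (pr O f (emb O ψ)) ^ 4)) * (24 * (nsq M O f) ^ 2)
      ≤ 8 * (24 * (nsq M O f) ^ 2) :=
    mul_le_mul_of_nonneg_right (h3.trans h4) (by positivity)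
  linarith

/-! ### 1.6 (f) -/

theorem En_pert (hM : IsForm M) (hP : PDef M O) (hD : IsForm D) (h : W → ℝ) :
    En (M + D) O h ≤ En M O h + 1 / 2 * Ex M O h (fun ψ => D (emb O ψ - h) (emb O ψ - h)) := by
  have hMD := hM.add hD
  have hPD := hP.add_form hD
  obtain ⟨m, hm⟩ : ∃ m, m = Ex M O h (fun ψ => D (emb O ψ - h) (emb O ψ - h)) := ⟨_, rfl⟩
  rw [← hm]
  have h0 := Th_pos hM hP (0 : W → ℝ)
  have h1 : Real.exp (-(En M O h + 1 / 2 * m)) ≤ Real.exp (-En (M + D) O h) := by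
    rw [En_def' hMD hPD, Th_add hM hP, Th_add hM hP, Th_eq hM hP h]
    simp only [sub_zero]
    have h2 : Real.exp (-(1 / 2) * m) ≤ Ex M O h (fun ψ => GF D (emb O ψ - h)) := by
      rw [hm, ← Ex_mul_left]
      exact Ex_jensen hM hP h ((tame_form D h h).smul _) (tame_GF hD h)
    have h3 : Ex M O 0 (fun ψ => GF D (emb O ψ)) ≤ 1 := by
      have := Ex_mono hM hP 0 (F := fun ψ => GF D (emb O ψ)) (G := fun _ => 1)
        (by simpa using tame_GF (O := O) hD 0) (tame_const 1) (fun ψ => GF_le_one hD _)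
      rwa [Ex_const hM hP] at this
    have h4 : 0 < Ex M O 0 (fun ψ => GF D (emb O ψ)) :=
      Ex_pos hM hP 0 (by simpa using tame_GF (O := O) hD 0) fun ψ => GF_pos _ _
    rw [le_div_iff₀ (mul_pos h0 h4)]
    calc Real.exp (-(En M O h + 1 / 2 * m)) * (Th M O 0 * Ex M O 0 (fun ψ => GF D (emb O ψ)))
        ≤ Real.exp (-(En M O h + 1 / 2 * m)) * (Th M O 0 * 1) := by gcongr
      _ = Th M O 0 * Real.exp (-En M O h) * Real.exp (-(1 / 2) * m) := by
          rw [show -(En M O h + 1 / 2 * m) = -En M O h + -(1 / 2) * m by ring, Real.exp_add]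
          ring
      _ ≤ _ := by gcongr
  have := Real.exp_le_exp.1 h1
  linarith

theorem La_pert (hM : IsForm M) (hP : PDef M O) (hD : IsForm D) (f : W → ℝ) :
    La M O f - 1 / 2 * Et M O f (fun ψ => D (emb O ψ) (emb O ψ)) ≤ La (M + D) O f := by
  have hMD := hM.add hD
  have hPD := hP.add_form hD
  obtain ⟨u, hu⟩ := exists_pot hM hP f
  rw [Et_eq_Ex hM hP hu]
  obtain ⟨m, hm⟩ : ∃ m, m = Ex M O u (fun ψ => D (emb O ψ) (emb O ψ)) := ⟨_, rfl⟩
  rw [← hm]
  have tG : Tame (O := O) (fun ψ => GF D (emb O ψ)) := by simpa using tame_GF (O := O) hD 0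
  have h1 : Real.exp (La M O f - 1 / 2 * m) ≤ Real.exp (La (M + D) O f) := by
    rw [exp_La hMD hPD, Ex_add_form hM hP]
    simp only [sub_zero]
    have h4 : 0 < Ex M O 0 (fun ψ => GF D (emb O ψ)) :=
      Ex_pos hM hP 0 tG fun ψ => GF_pos _ _
    have h3 : Ex M O 0 (fun ψ => GF D (emb O ψ)) ≤ 1 := by
      have := Ex_mono hM hP 0 (F := fun ψ => GF D (emb O ψ)) (G := fun _ => 1)
        tG (tame_const 1) (fun ψ => GF_le_one hD _)
      rwa [Ex_const hM hP] at this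
    have h5 := Ex_mul_exp_zero hM hP u (fun ψ => GF D (emb O ψ))
    simp only [hu.emb' hM] at h5
    have h6 : Real.exp (-(1 / 2) * m) ≤ Ex M O u (fun ψ => GF D (emb O ψ)) := by
      rw [hm, ← Ex_mul_left]
      exact Ex_jensen hM hP u ((tame_form_self D).smul _) tG
    rw [h5, le_div_iff₀ h4, La_eq hM hP hu, hu.nsq_eq hM]
    calc Real.exp (M u u / 2 - En M O u - 1 / 2 * m) * Ex M O 0 (fun ψ => GF D (emb O ψ))
        ≤ Real.exp (M u u / 2 - En M O u - 1 / 2 * m) * 1 := by gcongr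
      _ = Real.exp (M u u / 2 - En M O u) * Real.exp (-(1 / 2) * m) := by
          rw [← Real.exp_add, mul_one]; congr 1; ring
      _ ≤ _ := by gcongr
  exact Real.exp_le_exp.1 h1

end Pool.Agent.LR
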