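import Mathlib

/-!
Positive semidefinite real kernels and positive definite functions, with the
Cauchy-Schwarz inequality for infinite sums.
-/

namespace Pool.Agent.LR

open Finset Filter Topology

/-- positive semidefinite real kernels -/
def PSD {X : Type*} (K : X → X → ℝ) : Prop :=
  (∀ x y, K x y = K y x) ∧
    ∀ (s : Finset X) (c : X → ℝ), 0 ≤ ∑ x ∈ s, ∑ y ∈ s, c x * c y * K x y

section kernels

variable {X ι : Type*} {K K' : X → X → ℝ}

theorem PSD.symm (h : PSD K) (x y : X) : K x y = K y x := h.1 x y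

theorem PSD.fin (h : PSD K) (s : Finset X) (c : X → ℝ) :
    0 ≤ ∑ x ∈ s, ∑ y ∈ s, c x * c y * K x y := h.2 s c

theorem PSD.pull (h : PSD K) (f : ι → X) : PSD (fun i j => K (f i) (f j)) := by
  classical
  refine ⟨fun i j => h.1 _ _, fun s c => ?_⟩
  have key := h.2 (s.image f) (fun x => ∑ i ∈ s with f i = x, c i)
  have e : ∑ x ∈ s.image f, ∑ y ∈ s.image f,
      (∑ i ∈ s with f i = x, c i) * (∑ i ∈ s with f i = y, c i) * K x y
      = ∑ i ∈ s, ∑ j ∈ s, c i * c j * K (f i) (f j) := by
    have hm : ∀ i ∈ s, f i ∈ s.image f := fun i hi => mem_image_of_mem f hi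
    rw [← Finset.sum_fiberwise_of_maps_to hm
      (f := fun i => ∑ j ∈ s, c i * c j * K (f i) (f j))]
    refine sum_congr rfl fun x _ => ?_
    have : ∀ y ∈ s.image f, (∑ i ∈ s with f i = x, c i) * (∑ i ∈ s with f i = y, c i) * K x y
        = ∑ i ∈ s with f i = x, ∑ j ∈ s with f j = y, c i * c j * K (f i) (f j) := by
      intro y _
      rw [Finset.sum_mul_sum, Finset.sum_mul]
      refine sum_congr rfl fun i hi => ?_
      rw [Finset.sum_mul]
      refine sum_congr rfl fun j hj => ?_
      rw [(mem_filter.1 hi).2, (mem_filter.1 hj).2]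
    rw [sum_congr rfl this, Finset.sum_comm]
    refine sum_congr rfl fun i _ => ?_
    exact Finset.sum_fiberwise_of_maps_to hm (fun j => c i * c j * K (f i) (f j))
  rw [← e]
  exact key

theorem PSD.add (h : PSD K) (h' : PSD K') : PSD (fun x y => K x y + K' x y) := by
  refine ⟨fun x y => by
    show K x y + K' x y = K y x + K' y x
    rw [h.1 x y, h'.1 x y], fun s c => ?_⟩
  have := add_nonneg (h.2 s c) (h'.2 s c)
  rw [← Finset.sum_add_distrib] at this
  refine this.trans_eq (sum_congr rfl fun x _ => ?_)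
  rw [← Finset.sum_add_distrib]
  exact sum_congr rfl fun y _ => by ring

theorem psd_rank (g : X → ℝ) : PSD (fun x y => g x * g y) := by
  refine ⟨fun x y => mul_comm _ _, fun s c => ?_⟩
  have : ∑ x ∈ s, ∑ y ∈ s, c x * c y * (g x * g y) = (∑ x ∈ s, c x * g x) ^ 2 := by
    rw [sq, Finset.sum_mul_sum]
    exact sum_congr rfl fun x _ => sum_congr rfl fun y _ => by ring
  rw [this]
  exact sq_nonneg _

theorem PSD.scale (h : PSD K) (g : X → ℝ) : PSD (fun x y => g x * g y * K x y) := by
  refine ⟨fun x y => by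
    show g x * g y * K x y = g y * g x * K y x
    rw [h.1 x y]; ring, fun s c => ?_⟩
  refine (h.2 s (fun x => c x * g x)).trans_eq ?_
  exact sum_congr rfl fun x _ => sum_congr rfl fun y _ => by ring

theorem psd_const {a : ℝ} (ha : 0 ≤ a) : PSD (fun _ _ : X => a) := by
  have := psd_rank (X := X) (fun _ => Real.sqrt a)
  simpa [Real.mul_self_sqrt ha] using this

theorem PSD.smul (h : PSD K) {a : ℝ} (ha : 0 ≤ a) : PSD (fun x y => a * K x y) := by
  have := h.scale (fun _ => Real.sqrt a)
  simpa [Real.mul_self_sqrt ha] using this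

theorem PSD.lim {κ : Type*} {l : Filter κ} [l.NeBot] {Kn : κ → X → X → ℝ}
    (hn : ∀ n, PSD (Kn n)) (hl : ∀ x y, Tendsto (fun n => Kn n x y) l (𝓝 (K x y))) :
    PSD K := by
  refine ⟨fun x y => ?_, fun s c => ?_⟩
  · refine tendsto_nhds_unique (hl x y) ?_
    have := hl y x
    refine this.congr fun n => (hn n).1 _ _
  · refine ge_of_tendsto' (x := l) ?_ (fun n => (hn n).2 s c)
    refine tendsto_finsetSum _ fun x _ => tendsto_finsetSum _ fun y _ => ?_
    exact (hl x y).const_mul _

/-- Schur product -/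
theorem PSD.mul (h : PSD K) (h' : PSD K') : PSD (fun x y => K x y * K' x y) := by
  classical
  refine ⟨fun x y => by
    show K x y * K' x y = K y x * K' y x
    rw [h.1 x y, h'.1 x y], fun s c => ?_⟩
  have mk : ∀ {L : X → X → ℝ}, PSD L →
      (Matrix.of fun i j : s => L i j).PosSemidef := by
    intro L hL
    refine Matrix.PosSemidef.of_dotProduct_mulVec_nonneg ?_ ?_
    · ext i j
      simp [hL.1 (j : X) i]
    · intro v
      have := (hL.pull (fun i : s => (i : X))).2 Finset.univ v
      refine this.trans_eq ?_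
      simp only [dotProduct, Matrix.mulVec, Matrix.of_apply, star_trivial, Pi.star_apply]
      refine sum_congr rfl fun i _ => ?_
      rw [Finset.mul_sum]
      exact sum_congr rfl fun j _ => by ring
  have hh := (mk h).hadamard (mk h')
  have := hh.dotProduct_mulVec_nonneg (fun i : s => c i)
  refine this.trans_eq ?_
  simp only [dotProduct, Matrix.mulVec, Matrix.hadamard_apply, Matrix.of_apply, star_trivial,
    Pi.star_apply]
  rw [← Finset.sum_coe_sort s (fun x => ∑ y ∈ s, c x * c y * (K x y * K' x y))]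
  refine sum_congr rfl fun i _ => ?_
  rw [← Finset.sum_coe_sort s, Finset.mul_sum]
  exact sum_congr rfl fun j _ => by ring

theorem PSD.pow (h : PSD K) (n : ℕ) : PSD (fun x y => K x y ^ n) := by
  induction n with
  | zero => simpa using psd_const (X := X) zero_le_one
  | succ n ih => simpa [pow_succ] using ih.mul h

theorem psd_zero : PSD (fun _ _ : X => (0:ℝ)) := psd_const le_rfl

theorem PSD.sum {κ : Type*} (t : Finset κ) {Kn : κ → X → X → ℝ} (hn : ∀ n ∈ t, PSD (Kn n)) :
    PSD (fun x y => ∑ n ∈ t, Kn n x y) := by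
  classical
  induction t using Finset.induction_on with
  | empty => simpa using psd_zero
  | insert a t ha ih =>
    simp only [Finset.sum_insert ha]
    exact (hn a (by simp)).add (ih fun n hn' => hn n (by simp [hn']))

theorem PSD.exp (h : PSD K) : PSD (fun x y => Real.exp (K x y)) := by
  refine PSD.lim (l := atTop)
    (Kn := fun n x y => ∑ i ∈ range n, K x y ^ i / (Nat.factorial i : ℝ)) ?_ ?_
  · intro n
    refine PSD.sum _ fun i _ => ?_
    have := (h.pow i).smul (a := ((Nat.factorial i : ℝ))⁻¹) (by positivity)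
    refine cast ?_ this
    congr 1
    funext x y
    rw [div_eq_inv_mul]
  · intro x y
    have := (NormedSpace.expSeries_div_hasSum_exp (K x y)).tendsto_sum_nat
    rwa [← Real.exp_eq_exp_ℝ] at this

theorem psd_integral {Ω : Type*} [MeasurableSpace Ω] (μ : MeasureTheory.Measure Ω)
    (g : X → Ω → ℝ) (hg : ∀ x y, MeasureTheory.Integrable (fun o => g x o * g y o) μ) :
    PSD (fun x y => ∫ o, g x o * g y o ∂μ) := by
  refine ⟨fun x y => ?_, fun s c => ?_⟩
  · show ∫ o, g x o * g y o ∂μ = ∫ o, g y o * g x o ∂μ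
    congr 1
    funext o
    ring
  · have : ∑ x ∈ s, ∑ y ∈ s, c x * c y * ∫ o, g x o * g y o ∂μ
        = ∫ o, (∑ x ∈ s, c x * g x o) ^ 2 ∂μ := by
      have e : ∀ o, (∑ x ∈ s, c x * g x o) ^ 2
          = ∑ x ∈ s, ∑ y ∈ s, c x * c y * (g x o * g y o) := by
        intro o
        rw [sq, Finset.sum_mul_sum]
        exact sum_congr rfl fun x _ => sum_congr rfl fun y _ => by ring
      simp only [e]
      rw [MeasureTheory.integral_finsetSum]
      · refine sum_congr rfl fun x _ => ?_
        rw [MeasureTheory.integral_finsetSum]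
        · exact sum_congr rfl fun y _ => (MeasureTheory.integral_const_mul _ _).symm
        · exact fun y _ => (hg x y).const_mul _
      · exact fun x _ => MeasureTheory.integrable_finsetSum _ fun y _ => (hg x y).const_mul _
    rw [this]
    exact MeasureTheory.integral_nonneg fun _ => sq_nonneg _

theorem psd_rel (r : X → X → Prop) (hr : Equivalence r) [DecidableRel r] :
    PSD (fun x y => if r x y then (1:ℝ) else 0) := by
  classical
  refine ⟨fun x y => ?_, fun s c => ?_⟩
  · by_cases h : r x y
    · simp [h, hr.symm h]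
    · have h' : ¬ r y x := fun h' => h (hr.symm h')
      simp [h, h']
  · let S : Setoid X := ⟨r, hr⟩
    let f : X → Quotient S := Quotient.mk S
    have hm : ∀ i ∈ s, f i ∈ s.image f := fun i hi => mem_image_of_mem f hi
    have e : ∑ x ∈ s, ∑ y ∈ s, c x * c y * (if r x y then (1:ℝ) else 0)
        = ∑ q ∈ s.image f, (∑ x ∈ s with f x = q, c x) ^ 2 := by
      rw [← Finset.sum_fiberwise_of_maps_to hm]
      refine sum_congr rfl fun q _ => ?_
      rw [sq, Finset.sum_mul_sum]
      refine sum_congr rfl fun x hx => ?_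
      rw [Finset.sum_filter]
      refine sum_congr rfl fun y hy => ?_
      have : r x y ↔ f y = q := by
        rw [← (mem_filter.1 hx).2]
        constructor
        · intro h; exact Quotient.sound (hr.symm h)
        · intro h; exact hr.symm (Quotient.exact h)
      by_cases h : r x y
      · simp [h, this.1 h]
      · have h' : ¬ f y = q := fun h' => h (this.2 h')
        simp [h, h']
    rw [e]
    exact sum_nonneg fun _ _ => sq_nonneg _

/-- finite Cauchy-Schwarz -/
theorem PSD.cs_fin (hK : PSD K) (s : Finset ι) (w w' : ι → ℝ) (p q : ι → X) :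
    (∑ i ∈ s, ∑ j ∈ s, w i * w' j * K (p i) (q j)) ^ 2 ≤
      (∑ i ∈ s, ∑ j ∈ s, w i * w j * K (p i) (p j)) *
        (∑ i ∈ s, ∑ j ∈ s, w' i * w' j * K (q i) (q j)) := by
  obtain ⟨A, hA⟩ : ∃ A, A = ∑ i ∈ s, ∑ j ∈ s, w i * w j * K (p i) (p j) := ⟨_, rfl⟩
  obtain ⟨B, hB⟩ : ∃ B, B = ∑ i ∈ s, ∑ j ∈ s, w i * w' j * K (p i) (q j) := ⟨_, rfl⟩
  obtain ⟨C, hC⟩ : ∃ C, C = ∑ i ∈ s, ∑ j ∈ s, w' i * w' j * K (q i) (q j) := ⟨_, rfl⟩
  have hB' : B = ∑ i ∈ s, ∑ j ∈ s, w' i * w j * K (q i) (p j) := by
    rw [hB, Finset.sum_comm]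
    refine sum_congr rfl fun i _ => sum_congr rfl fun j _ => ?_
    rw [hK.1 (p j) (q i)]; ring
  have key : ∀ t : ℝ, 0 ≤ A * (t * t) + (2 * B) * t + C := by
    intro t
    have h := (hK.pull (Sum.elim p q)).2 (s.disjSum s) (Sum.elim (fun i => t * w i) w')
    rw [Finset.sum_disjSum] at h
    simp only [Finset.sum_disjSum, Sum.elim_inl, Sum.elim_inr, Finset.sum_add_distrib] at h
    have e1 : ∑ i ∈ s, ∑ j ∈ s, t * w i * (t * w j) * K (p i) (p j) = A * (t * t) := by
      rw [hA, Finset.sum_mul]
      refine sum_congr rfl fun i _ => ?_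
      rw [Finset.sum_mul]
      exact sum_congr rfl fun j _ => by ring
    have e2 : ∑ i ∈ s, ∑ j ∈ s, t * w i * w' j * K (p i) (q j) = B * t := by
      rw [hB, Finset.sum_mul]
      refine sum_congr rfl fun i _ => ?_
      rw [Finset.sum_mul]
      exact sum_congr rfl fun j _ => by ring
    have e3 : ∑ i ∈ s, ∑ j ∈ s, w' i * (t * w j) * K (q i) (p j) = B * t := by
      rw [hB', Finset.sum_mul]
      refine sum_congr rfl fun i _ => ?_
      rw [Finset.sum_mul]
      exact sum_congr rfl fun j _ => by ring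
    rw [e1, e2, e3, ← hC] at h
    linarith
  have := discrim_le_zero key
  unfold discrim at this
  rw [← hA, ← hB, ← hC]
  nlinarith [this]

theorem tendsto_prodSelf : Tendsto (fun s : Finset ι => s ×ˢ s) atTop atTop := by
  classical
  rw [tendsto_atTop_atTop]
  intro b
  refine ⟨b.image Prod.fst ∪ b.image Prod.snd, fun a ha x hx => ?_⟩
  rw [mem_product]
  constructor
  · exact ha (mem_union_left _ (mem_image_of_mem _ hx))
  · exact ha (mem_union_right _ (mem_image_of_mem _ hx))

theorem tendsto_double {g : ι × ι → ℝ} (hg : Summable g) :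
    Tendsto (fun s : Finset ι => ∑ i ∈ s, ∑ j ∈ s, g (i, j)) atTop (𝓝 (∑' x, g x)) := by
  have := hg.hasSum.comp (tendsto_prodSelf (ι := ι))
  refine this.congr fun s => ?_
  simp [Finset.sum_product]

theorem summable_ker {B : ℝ} {w w' : ι → ℝ} (hw : Summable fun i => |w i|)
    (hw' : Summable fun i => |w' i|) {k : ι → ι → ℝ} (hk : ∀ i j, |k i j| ≤ B) :
    Summable (fun x : ι × ι => w x.1 * w' x.2 * k x.1 x.2) := by
  have h := (hw.mul_of_nonneg hw' (fun _ => abs_nonneg _) (fun _ => abs_nonneg _)).mul_right B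
  refine Summable.of_norm_bounded h fun x => ?_
  rw [Real.norm_eq_abs, abs_mul, abs_mul]
  exact mul_le_mul_of_nonneg_left (hk _ _) (by positivity)

/-- Cauchy-Schwarz for infinite sums -/
theorem PSD.cs (hK : PSD K) {B : ℝ} (hB : ∀ x y, |K x y| ≤ B) {w w' : ι → ℝ}
    (hw : Summable fun i => |w i|) (hw' : Summable fun i => |w' i|) (p q : ι → X) :
    (∑' x : ι × ι, w x.1 * w' x.2 * K (p x.1) (q x.2)) ^ 2 ≤
      (∑' x : ι × ι, w x.1 * w x.2 * K (p x.1) (p x.2)) *
        (∑' x : ι × ι, w' x.1 * w' x.2 * K (q x.1) (q x.2)) := by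
  have h1 := tendsto_double (summable_ker hw hw' (k := fun i j => K (p i) (q j))
    (fun i j => hB _ _))
  have h2 := tendsto_double (summable_ker hw hw (k := fun i j => K (p i) (p j))
    (fun i j => hB _ _))
  have h3 := tendsto_double (summable_ker hw' hw' (k := fun i j => K (q i) (q j))
    (fun i j => hB _ _))
  exact le_of_tendsto_of_tendsto' (h1.pow 2) (h2.mul h3) (fun s => hK.cs_fin s w w' p q)

theorem PSD.tsum_nonneg (hK : PSD K) {B : ℝ} (hB : ∀ x y, |K x y| ≤ B) {w : ι → ℝ}
    (hw : Summable fun i => |w i|) (p : ι → X) :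
    0 ≤ ∑' x : ι × ι, w x.1 * w x.2 * K (p x.1) (p x.2) := by
  have h2 := tendsto_double (summable_ker hw hw (k := fun i j => K (p i) (p j))
    (fun i j => hB _ _))
  exact ge_of_tendsto' h2 (fun s => (hK.pull p).2 s w)

end kernels

section functions

variable {E : Type*} [AddCommGroup E] {F G : E → ℝ}

/-- positive definite functions -/
def PD (F : E → ℝ) : Prop := PSD (fun x y => F (x - y))

theorem PD.even (h : PD F) (x : E) : F (-x) = F x := by
  have := h.1 0 x
  simpa using this

theorem PD.zero_nonneg (h : PD F) : 0 ≤ F 0 := by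
  have := h.2 {0} (fun _ => 1)
  simpa using this

theorem PD.abs_le (h : PD F) (x : E) : |F x| ≤ F 0 := by
  classical
  by_cases hx : x = 0
  · subst hx; rw [abs_of_nonneg h.zero_nonneg]
  · have hs : ∀ c : E → ℝ, ∑ u ∈ ({x, 0} : Finset E), ∑ v ∈ ({x, 0} : Finset E),
        c u * c v * F (u - v) = c x * c x * F 0 + c x * c 0 * F x + (c 0 * c x * F x
          + c 0 * c 0 * F 0) := by
      intro c
      rw [Finset.sum_pair hx, Finset.sum_pair hx, Finset.sum_pair hx]
      simp [h.even]
    have h1 := h.2 {x, 0} (fun _ => 1)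
    have h2 := h.2 {x, 0} (fun u => if u = x then 1 else -1)
    rw [hs] at h1 h2
    have h0 : ¬ (0:E) = x := fun h => hx h.symm
    simp [h0] at h1 h2
    rw [_root_.abs_le]
    constructor <;> linarith

theorem PD.mul (hF : PD F) (hG : PD G) : PD (fun x => F x * G x) := PSD.mul hF hG

theorem PD.add (hF : PD F) (hG : PD G) : PD (fun x => F x + G x) := PSD.add hF hG

theorem PD.smul (hF : PD F) {a : ℝ} (ha : 0 ≤ a) : PD (fun x => a * F x) := PSD.smul hF ha

theorem pd_one : PD (fun _ : E => (1:ℝ)) := psd_const zero_le_one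

theorem pd_const {a : ℝ} (ha : 0 ≤ a) : PD (fun _ : E => a) := psd_const ha

theorem PD.comp {E' : Type*} [AddCommGroup E'] (hF : PD F) (f : E' →+ E) :
    PD (fun x => F (f x)) := by
  have := PSD.pull hF f
  refine cast ?_ this
  unfold PD
  congr 1
  funext x y
  show F (f x - f y) = F (f (x - y))
  rw [map_sub]

theorem PD.lim {κ : Type*} {l : Filter κ} [l.NeBot] {Fn : κ → E → ℝ}
    (hn : ∀ n, PD (Fn n)) (hl : ∀ x, Tendsto (fun n => Fn n x) l (𝓝 (F x))) :
    PD F := PSD.lim hn (fun x y => hl (x - y))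

theorem PD.sum {κ : Type*} (t : Finset κ) {Fn : κ → E → ℝ} (hn : ∀ n ∈ t, PD (Fn n)) :
    PD (fun x => ∑ n ∈ t, Fn n x) := PSD.sum t hn

theorem PD.prod {κ : Type*} (t : Finset κ) {Fn : κ → E → ℝ} (hn : ∀ n ∈ t, PD (Fn n)) :
    PD (fun x => ∏ n ∈ t, Fn n x) := by
  classical
  induction t using Finset.induction_on with
  | empty => simpa using pd_one
  | insert a t ha ih =>
    simp only [Finset.prod_insert ha]
    exact (hn a (by simp)).mul (ih fun n hn' => hn n (by simp [hn']))

/-- indicator functions of subgroups -/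
theorem pd_subgroup (V : AddSubgroup E) [DecidablePred (· ∈ V)] :
    PD (fun x => if x ∈ V then (1:ℝ) else 0) := by
  classical
  have hr : Equivalence (fun x y : E => x - y ∈ V) := by
    refine ⟨fun x => by simp, ?_, ?_⟩
    · intro x y h
      have := V.neg_mem h
      simpa using this
    · intro x y z h h'
      have := V.add_mem h h'
      simpa using this
  have := psd_rel _ hr
  refine cast ?_ this
  unfold PD
  congr 1

/-- extension by zero along an injective homomorphism -/
theorem PD.extend {B : Type*} [AddCommGroup B] (j : B →+ E) (hj : Function.Injective j)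
    {F : B → ℝ} (hF : PD F) : PD (Function.extend j F 0) := by
  classical
  have hr : Equivalence (fun x y : E => x - y ∈ j.range) := by
    refine ⟨fun x => by simp, ?_, ?_⟩
    · intro x y h
      have := j.range.neg_mem h
      simpa using this
    · intro x y z h h'
      have := j.range.add_mem h h'
      simpa using this
  let S : Setoid E := ⟨_, hr⟩
  let r : E → E := fun x => (Quotient.mk S x).out
  have h1 : ∀ x, x - r x ∈ j.range := fun x => hr.symm (Quotient.mk_out (s := S) x)
  choose q hq using h1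
  have h2 : ∀ x y, x - y ∈ j.range → r x = r y := by
    intro x y h
    show (Quotient.mk S x).out = (Quotient.mk S y).out
    rw [Quotient.sound (s := S) h]
  have h3 := (psd_rel _ hr).mul (PSD.pull hF q)
  refine cast ?_ h3
  unfold PD
  congr 1
  funext x y
  by_cases h : x - y ∈ j.range
  · have e : x - y = j (q x - q y) := by
      rw [map_sub, hq, hq, h2 x y h]
      abel
    simp only [h, if_true, one_mul]
    rw [e, hj.extend_apply]
  · simp only [h, if_false, zero_mul]
    rw [Function.extend_apply' _ _ _ (fun ⟨b, hb⟩ => h ⟨b, hb⟩)]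
    rfl

theorem pd_cos_real : PD (fun x : ℝ => Real.cos x) := by
  have := (psd_rank (fun x : ℝ => Real.cos x)).add (psd_rank (fun x : ℝ => Real.sin x))
  refine cast ?_ this
  unfold PD
  congr 1
  funext x y
  show _ = Real.cos (x - y)
  rw [Real.cos_sub]

/-- characters -/
theorem pd_cos (f : E →+ ℝ) : PD (fun x => Real.cos (f x)) := pd_cos_real.comp f

/-- exponentials of absolute values -/
theorem pd_abs_real {b : ℝ} (hb : 0 ≤ b) : PD (fun x : ℝ => Real.exp (-(b * |x|))) := by
  rcases hb.eq_or_lt with rfl | hb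
  · simpa using (pd_one (E := ℝ))
  have hi : ∀ c : ℝ, MeasureTheory.IntegrableOn (fun u : ℝ => Real.exp (2 * b * u)) (Set.Iic c) :=
    fun c => integrableOn_exp_mul_Iic (by positivity) c
  have hp : ∀ x y u : ℝ, (Set.Iic x).indicator (fun u : ℝ => Real.exp (b * u)) u
      * (Set.Iic y).indicator (fun u : ℝ => Real.exp (b * u)) u
      = (Set.Iic (min x y)).indicator (fun u : ℝ => Real.exp (2 * b * u)) u := by
    intro x y u
    by_cases h1 : u ≤ x
    · by_cases h2 : u ≤ y
      · have h3 : u ≤ min x y := le_min h1 h2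
        simp only [Set.indicator, Set.mem_Iic, h1, h2, h3, if_true]
        rw [← Real.exp_add]
        ring_nf
      · have h3 : ¬ u ≤ min x y := fun h => h2 (h.trans (min_le_right _ _))
        simp only [Set.indicator, Set.mem_Iic, h1, h2, h3, if_true, if_false, mul_zero]
    · have h3 : ¬ u ≤ min x y := fun h => h1 (h.trans (min_le_left _ _))
      simp only [Set.indicator, Set.mem_Iic, h1, h3, if_false, zero_mul]
  have h1 := psd_integral (X := ℝ) MeasureTheory.volume
    (fun x u => (Set.Iic x).indicator (fun u : ℝ => Real.exp (b * u)) u) (by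
      intro x y
      simp only [hp]
      exact (MeasureTheory.integrable_indicator_iff measurableSet_Iic).2 (hi _))
  have h2 := (h1.scale (fun x => Real.exp (-(b * x)))).smul (a := 2 * b) (by positivity)
  refine cast ?_ h2
  unfold PD
  congr 1
  funext x y
  simp only [hp]
  rw [MeasureTheory.integral_indicator measurableSet_Iic, integral_exp_mul_Iic (by positivity)]
  have e : -(b * |x - y|) = -(b * x) + -(b * y) + 2 * b * min x y := by
    rcases le_total x y with h | h
    · rw [min_eq_left h, abs_of_nonpos (by linarith)]; ring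
    · rw [min_eq_right h, abs_of_nonneg (by linarith)]; ring
  rw [e, Real.exp_add, Real.exp_add]
  field_simp

theorem pd_abs (f : E →+ ℝ) {b : ℝ} (hb : 0 ≤ b) : PD (fun x => Real.exp (-(b * |f x|))) :=
  (pd_abs_real hb).comp f

end functions

section forms

variable {E : Type*} [AddCommGroup E] [Module ℝ E]

/-- Gaussian factors of positive semidefinite forms -/
theorem pd_gauss (D : E →ₗ[ℝ] E →ₗ[ℝ] ℝ) (hs : ∀ x y, D x y = D y x) (hn : ∀ x, 0 ≤ D x x) :
    PD (fun x => Real.exp (-(D x x / 2))) := by
  have h1 : PSD (fun x y => D x y) := by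
    refine ⟨hs, fun s c => ?_⟩
    refine (hn (∑ x ∈ s, c x • x)).trans_eq ?_
    simp only [map_sum, LinearMap.sum_apply, map_smul, LinearMap.smul_apply, smul_eq_mul,
      Finset.mul_sum]
    rw [Finset.sum_comm]
    refine sum_congr rfl fun x _ => sum_congr rfl fun y _ => by ring
  have h2 := (h1.exp).scale (fun x => Real.exp (-(D x x / 2)))
  refine cast ?_ h2
  unfold PD
  congr 1
  funext x y
  rw [← Real.exp_add, ← Real.exp_add]
  congr 1
  simp only [map_sub, LinearMap.sub_apply]
  rw [hs y x]
  ring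

end forms

end Pool.Agent.LR
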