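import Pool.Agent.LR.B1.Sum

/-!
B1: potentials, dual norms, identities (1.0).
-/

set_option autoImplicit false
set_option linter.unusedSectionVars false

noncomputable section

open scoped BigOperators Topology
open Filter Set

namespace Pool.Agent.LR

variable {W : Type*} [DecidableEq W] {M D : BF W} {O : Finset W}

/-! ### potentials -/

theorem exists_pot (_hM : IsForm M) (hP : PDef M O) (f : W → ℝ) : ∃ u, IsPot M O f u := by
  classical
  let T : (O → ℝ) →ₗ[ℝ] (O → ℝ) := LinearMap.pi fun x =>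
    (M.flip (Pi.single (x : W) 1)).comp (ext0L O)
  have hT : ∀ g x, T g x = M (ext0 O g) (Pi.single (x : W) 1) := fun g x => rfl
  have hspan : ∀ g φ : W → ℝ, Supp O φ → M g φ = ∑ x : O, φ x * M g (Pi.single (x : W) 1) := by
    intro g φ hφ
    have e : φ = ∑ x : O, φ x • (Pi.single (x : W) (1:ℝ)) := by
      funext z
      by_cases h : z ∈ O
      · rw [Finset.sum_apply, Finset.sum_eq_single (⟨z, h⟩ : O)]
        · simp
        · intro b _ hb
          have : (b : W) ≠ z := fun e => hb (Subtype.ext e)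
          simp [this.symm]
        · simp
      · rw [hφ z h, Finset.sum_apply]
        symm
        refine Finset.sum_eq_zero fun b _ => ?_
        have : z ≠ (b : W) := fun e => h (e ▸ b.2)
        simp [this]
    conv_lhs => rw [e]
    rw [map_sum]
    exact Finset.sum_congr rfl fun x _ => by simp
  have hinj : Function.Injective T := by
    rw [injective_iff_map_eq_zero]
    intro g hg
    by_contra hne
    have h1 : ext0 O g ≠ 0 := by
      intro h0
      apply hne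
      funext x
      rw [← ext0_coe g x, h0]; rfl
    have h2 := hP _ (supp_ext0 g) h1
    rw [hspan _ _ (supp_ext0 g)] at h2
    have h3 : ∀ x : O, M (ext0 O g) (Pi.single (x : W) 1) = 0 := by
      intro x
      rw [← hT, hg]; rfl
    simp [h3] at h2
  have hsurj := (LinearMap.injective_iff_surjective (f := T)).1 hinj
  obtain ⟨g, hg⟩ := hsurj (fun x => f x)
  refine ⟨ext0 O g, supp_ext0 g, fun φ hφ => ?_⟩
  rw [hspan _ _ hφ]
  unfold pr
  rw [← Finset.sum_coe_sort O (fun x => f x * φ x)]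
  refine Finset.sum_congr rfl fun x _ => ?_
  rw [← hT, hg]; ring

theorem IsPot.add {f g u v : W → ℝ} (hu : IsPot M O f u) (hv : IsPot M O g v) :
    IsPot M O (f + g) (u + v) :=
  ⟨hu.1.add hv.1, fun φ hφ => by
    rw [map_add, LinearMap.add_apply, hu.2 φ hφ, hv.2 φ hφ, pr_add_left]⟩

theorem IsPot.smul {f u : W → ℝ} (hu : IsPot M O f u) (a : ℝ) : IsPot M O (a • f) (a • u) :=
  ⟨hu.1.smul a, fun φ hφ => by
    rw [map_smul, LinearMap.smul_apply, hu.2 φ hφ, pr_smul_left, smul_eq_mul]⟩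

theorem IsPot.neg {f u : W → ℝ} (hu : IsPot M O f u) : IsPot M O (-f) (-u) :=
  ⟨hu.1.neg, fun φ hφ => by
    rw [map_neg, LinearMap.neg_apply, hu.2 φ hφ, pr_neg_left]⟩

theorem IsPot.sub {f g u v : W → ℝ} (hu : IsPot M O f u) (hv : IsPot M O g v) :
    IsPot M O (f - g) (u - v) := by
  have := hu.add hv.neg
  simpa [sub_eq_add_neg] using this

theorem isPot_zero : IsPot M O 0 0 := ⟨supp_zero, fun φ _ => by simp [pr_zero_left]⟩

theorem IsPot.unique (_hM : IsForm M) (hP : PDef M O) {f u v : W → ℝ} (hu : IsPot M O f u)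
    (hv : IsPot M O f v) : u = v := by
  by_contra hne
  have h0 : u - v ≠ 0 := sub_ne_zero.2 hne
  have h1 := hP _ (hu.1.sub hv.1) h0
  have h2 := (hu.sub hv).2 (u - v) (hu.1.sub hv.1)
  rw [sub_self, pr_zero_left] at h2
  linarith

theorem IsPot.emb {f u : W → ℝ} (hu : IsPot M O f u) (ψ : O → ℤ) :
    M u (emb O ψ) = pr O f (emb O ψ) := hu.2 _ (supp_emb ψ)

theorem IsPot.emb' (hM : IsForm M) {f u : W → ℝ} (hu : IsPot M O f u) (ψ : O → ℤ) :
    M (LR.emb O ψ) u = pr O f (LR.emb O ψ) := by rw [hM.symm]; exact hu.2 _ (supp_emb ψ)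

theorem IsPot.pr_self {f u : W → ℝ} (hu : IsPot M O f u) : pr O f u = M u u :=
  (hu.2 u hu.1).symm

/-- completion of the square -/
theorem IsPot.square (hM : IsForm M) {f u : W → ℝ} (hu : IsPot M O f u) {φ : W → ℝ}
    (hφ : Supp O φ) : 2 * pr O f φ - M φ φ = M u u - M (φ - u) (φ - u) := by
  rw [hM.sub_sq, ← hu.2 φ hφ, hM.symm u φ]
  ring

theorem IsPot.isGreatest (hM : IsForm M) {f u : W → ℝ} (hu : IsPot M O f u) :
    IsGreatest {r : ℝ | ∃ φ, Supp O φ ∧ r = 2 * pr O f φ - M φ φ} (M u u) := by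
  constructor
  · refine ⟨u, hu.1, ?_⟩
    rw [hu.pr_self]; ring
  · rintro r ⟨φ, hφ, rfl⟩
    rw [hu.square hM hφ]
    have := hM.nonneg (φ - u)
    linarith

/-- `nsq = M(u,u)` -/
theorem IsPot.nsq_eq (hM : IsForm M) {f u : W → ℝ} (hu : IsPot M O f u) :
    nsq M O f = M u u := (hu.isGreatest hM).csSup_eq

theorem le_nsq (hM : IsForm M) (hP : PDef M O) (f : W → ℝ) {φ : W → ℝ} (hφ : Supp O φ) :
    2 * pr O f φ - M φ φ ≤ nsq M O f := by
  obtain ⟨u, hu⟩ := exists_pot hM hP f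
  rw [hu.nsq_eq hM]
  exact (hu.isGreatest hM).2 ⟨φ, hφ, rfl⟩

theorem nsq_le (f : W → ℝ) {r : ℝ} (h : ∀ φ, Supp O φ → 2 * pr O f φ - M φ φ ≤ r) :
    nsq M O f ≤ r :=
  csSup_le ⟨_, 0, supp_zero, rfl⟩ (by rintro s ⟨φ, hφ, rfl⟩; exact h φ hφ)

theorem nsq_nonneg (hM : IsForm M) (hP : PDef M O) (f : W → ℝ) : 0 ≤ nsq M O f := by
  obtain ⟨u, hu⟩ := exists_pot hM hP f
  rw [hu.nsq_eq hM]
  exact hM.nonneg u

theorem pr_sq_le (hM : IsForm M) (hP : PDef M O) (f : W → ℝ) {φ : W → ℝ} (hφ : Supp O φ) :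
    (pr O f φ) ^ 2 ≤ nsq M O f * M φ φ := by
  obtain ⟨u, hu⟩ := exists_pot hM hP f
  rw [hu.nsq_eq hM, ← hu.2 φ hφ]
  exact hM.cs u φ

theorem abs_pr_le (hM : IsForm M) (hP : PDef M O) (f : W → ℝ) {φ : W → ℝ} (hφ : Supp O φ) :
    |pr O f φ| ≤ Real.sqrt (nsq M O f) * Real.sqrt (M φ φ) := by
  rw [← Real.sqrt_mul (nsq_nonneg hM hP f)]
  exact Real.abs_le_sqrt (pr_sq_le hM hP f hφ)

/-- bound of the dual norm from a bound of the pairing -/
theorem nsq_le_of_sq (hM : IsForm M) (_hP : PDef M O) (f : W → ℝ) {r : ℝ} (hr : 0 ≤ r)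
    (h : ∀ φ, Supp O φ → (pr O f φ) ^ 2 ≤ r * M φ φ) : nsq M O f ≤ r := by
  refine nsq_le f fun φ hφ => ?_
  have h1 := h φ hφ
  have h2 := hM.nonneg φ
  have h3 : |pr O f φ| ≤ Real.sqrt (r * M φ φ) := Real.abs_le_sqrt h1
  rw [Real.sqrt_mul hr] at h3
  have h4 := Real.sq_sqrt hr
  have h5 := Real.sq_sqrt h2
  have h6 := le_abs_self (pr O f φ)
  nlinarith [sq_nonneg (Real.sqrt r - Real.sqrt (M φ φ))]

theorem nsq_smul (hM : IsForm M) (hP : PDef M O) (a : ℝ) (f : W → ℝ) :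
    nsq M O (a • f) = a ^ 2 * nsq M O f := by
  obtain ⟨u, hu⟩ := exists_pot hM hP f
  rw [hu.nsq_eq hM, (hu.smul a).nsq_eq hM, smul_sq]

theorem nsq_neg (hM : IsForm M) (hP : PDef M O) (f : W → ℝ) : nsq M O (-f) = nsq M O f := by
  have := nsq_smul hM hP (-1) f
  simpa using this

theorem nsq_zero (hM : IsForm M) (_hP : PDef M O) : nsq M O 0 = 0 := by
  rw [isPot_zero.nsq_eq hM]; simp

theorem nsq_add_le (hM : IsForm M) (hP : PDef M O) (f g : W → ℝ) :
    Real.sqrt (nsq M O (f + g)) ≤ Real.sqrt (nsq M O f) + Real.sqrt (nsq M O g) := by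
  obtain ⟨u, hu⟩ := exists_pot hM hP f
  obtain ⟨v, hv⟩ := exists_pot hM hP g
  rw [hu.nsq_eq hM, hv.nsq_eq hM, (hu.add hv).nsq_eq hM]
  exact hM.tri u v

theorem nsq_sub_le (hM : IsForm M) (hP : PDef M O) (f g : W → ℝ) :
    Real.sqrt (nsq M O (f - g)) ≤ Real.sqrt (nsq M O f) + Real.sqrt (nsq M O g) := by
  have := nsq_add_le hM hP f (-g)
  rw [nsq_neg hM hP g] at this
  simpa [sub_eq_add_neg] using this

theorem pr_eq_of_supp {O' : Finset W} (h : O' ⊆ O) (f : W → ℝ) {φ : W → ℝ} (hφ : Supp O' φ) :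
    pr O' f φ = pr O f φ := by
  unfold pr
  refine Finset.sum_subset h fun x _ hx => ?_
  rw [hφ x hx, mul_zero]

theorem nsq_mono (hM : IsForm M) (hP : PDef M O) {O' : Finset W} (h : O' ⊆ O) (f : W → ℝ) :
    nsq M O' f ≤ nsq M O f := by
  refine nsq_le f fun φ hφ => ?_
  rw [pr_eq_of_supp h f hφ]
  exact le_nsq hM hP f (hφ.mono h)

theorem nsq_add_form (hM : IsForm M) (hP : PDef M O) (hD : IsForm D) (f : W → ℝ) :
    nsq (M + D) O f ≤ nsq M O f := by
  refine nsq_le f fun φ hφ => ?_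
  have h1 := le_nsq hM hP f hφ
  have h2 := hD.nonneg φ
  simp only [LinearMap.add_apply]
  linarith

/-! ### identities (1.0) -/

theorem wt_zero_mul_exp (hM : IsForm M) (b u : W → ℝ) (ψ : O → ℤ) :
    wt M O b ψ * Real.exp (M (emb O ψ - b) u) = Real.exp (M u u / 2) * wt M O (b + u) ψ := by
  unfold wt
  rw [← Real.exp_add, ← Real.exp_add]
  congr 1
  have e : emb O ψ - (b + u) = (emb O ψ - b) - u := by abel
  rw [e, hM.sub_sq (emb O ψ - b) u]
  ring

theorem En_def' (hM : IsForm M) (hP : PDef M O) (h : W → ℝ) :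
    Real.exp (-En M O h) = Th M O h / Th M O 0 := by
  unfold En
  rw [neg_neg, Real.exp_log (div_pos (Th_pos hM hP h) (Th_pos hM hP 0))]

theorem Th_eq (hM : IsForm M) (hP : PDef M O) (h : W → ℝ) :
    Th M O h = Th M O 0 * Real.exp (-En M O h) := by
  rw [En_def' hM hP]
  have := (Th_pos hM hP (0 : W → ℝ)).ne'
  field_simp

theorem En_zero (hM : IsForm M) (hP : PDef M O) : En M O 0 = 0 := by
  unfold En
  rw [div_self (Th_pos hM hP 0).ne', Real.log_one, neg_zero]

theorem wt_neg (M : BF W) (O : Finset W) (h : W → ℝ) (ψ : O → ℤ) :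
    wt M O (-h) ψ = wt M O h (-ψ) := by
  unfold wt
  have e : emb O (-ψ) - h = -(emb O ψ - -h) := by rw [emb_neg]; abel
  rw [e, neg_sq']

theorem Th_neg (M : BF W) (O : Finset W) (h : W → ℝ) : Th M O (-h) = Th M O h := by
  unfold Th
  simp only [wt_neg M O h]
  exact (Equiv.neg (O → ℤ)).tsum_eq (fun ψ => wt M O h ψ)

theorem En_neg (M : BF W) (O : Finset W) (h : W → ℝ) : En M O (-h) = En M O h := by
  unfold En
  rw [Th_neg]

theorem Ex_neg_shift (M : BF W) (O : Finset W) (h : W → ℝ) (F : (O → ℤ) → ℝ) :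
    Ex M O (-h) F = Ex M O h (fun ψ => F (-ψ)) := by
  unfold Ex
  rw [Th_neg]
  congr 1
  have := (Equiv.neg (O → ℤ)).tsum_eq (fun ψ => wt M O h ψ * F (-ψ))
  rw [← this]
  refine tsum_congr fun ψ => ?_
  rw [wt_neg]
  simp

/-- odd functions have mean zero in the unshifted model -/
theorem Ex_zero_odd (M : BF W) (O : Finset W) {F : (O → ℤ) → ℝ} (hF : ∀ ψ, F (-ψ) = -F ψ) :
    Ex M O 0 F = 0 := by
  have := Ex_neg_shift M O 0 F
  rw [neg_zero] at this
  simp only [hF] at this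
  rw [Ex_neg] at this
  linarith

theorem Th_shift (M : BF W) (O : Finset W) (h : W → ℝ) (χ : O → ℤ) :
    Th M O (h + emb O χ) = Th M O h := by
  unfold Th
  have := (Equiv.subRight χ).tsum_eq (fun ψ => wt M O h ψ)
  rw [← this]
  refine tsum_congr fun ψ => ?_
  unfold wt
  have e : emb O ((Equiv.subRight χ) ψ) - h = emb O ψ - (h + emb O χ) := by
    rw [Equiv.subRight_apply, emb_sub]; abel
  rw [e]

theorem En_shift (M : BF W) (O : Finset W) (h : W → ℝ) (χ : O → ℤ) :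
    En M O (h + emb O χ) = En M O h := by
  unfold En
  rw [Th_shift]

/-- tilting = shifting -/
theorem Ex_mul_exp (hM : IsForm M) (hP : PDef M O) (b u : W → ℝ) (F : (O → ℤ) → ℝ) :
    Ex M O b (fun ψ => F ψ * Real.exp (M (emb O ψ - b) u)) =
      Real.exp (M u u / 2 - En M O (b + u) + En M O b) * Ex M O (b + u) F := by
  unfold Ex
  have h1 : ∀ ψ, wt M O b ψ * (F ψ * Real.exp (M (emb O ψ - b) u))
      = Real.exp (M u u / 2) * (wt M O (b + u) ψ * F ψ) := by
    intro ψ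
    have := wt_zero_mul_exp (O := O) hM b u ψ
    calc wt M O b ψ * (F ψ * Real.exp (M (emb O ψ - b) u))
        = (wt M O b ψ * Real.exp (M (emb O ψ - b) u)) * F ψ := by ring
      _ = _ := by rw [this]; ring
  simp only [h1]
  rw [tsum_mul_left, Th_eq hM hP b, Th_eq hM hP (b + u)]
  have h0 := (Th_pos hM hP (0 : W → ℝ)).ne'
  rw [show M u u / 2 - En M O (b + u) + En M O b = M u u / 2 + -En M O (b + u) - -En M O b by ring,
    Real.exp_sub, Real.exp_add]
  field_simp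

theorem Ex_exp (hM : IsForm M) (hP : PDef M O) (b u : W → ℝ) :
    Ex M O b (fun ψ => Real.exp (M (emb O ψ - b) u)) =
      Real.exp (M u u / 2 - En M O (b + u) + En M O b) := by
  have := Ex_mul_exp hM hP b u (fun _ => 1)
  rw [Ex_const hM hP] at this
  simpa using this

theorem Ex_exp_zero (hM : IsForm M) (hP : PDef M O) (u : W → ℝ) :
    Ex M O 0 (fun ψ => Real.exp (M (emb O ψ) u)) = Real.exp (M u u / 2 - En M O u) := by
  have := Ex_exp hM hP 0 u
  rw [En_zero hM hP, zero_add, add_zero] at this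
  simpa using this

theorem Ex_mul_exp_zero (hM : IsForm M) (hP : PDef M O) (u : W → ℝ) (F : (O → ℤ) → ℝ) :
    Ex M O 0 (fun ψ => F ψ * Real.exp (M (emb O ψ) u)) =
      Real.exp (M u u / 2 - En M O u) * Ex M O u F := by
  have := Ex_mul_exp hM hP 0 u F
  rw [En_zero hM hP, zero_add, add_zero] at this
  simpa using this

theorem Su_eq (hM : IsForm M) (hP : PDef M O) {f u : W → ℝ} (hu : IsPot M O f u)
    (F : (O → ℤ) → ℝ) :
    Su M O f F = Real.exp (M u u / 2) * (Th M O u * Ex M O u F) := by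
  unfold Su Ex
  have h0 := (Th_pos hM hP u).ne'
  rw [mul_div_cancel₀ _ h0, ← tsum_mul_left]
  refine tsum_congr fun ψ => ?_
  have := wt_zero_mul_exp (O := O) hM 0 u ψ
  rw [zero_add, sub_zero, hu.emb' hM] at this
  rw [this]
  ring

theorem Su_eq_Ex (hM : IsForm M) (hP : PDef M O) (f : W → ℝ) (F : (O → ℤ) → ℝ) :
    Su M O f F = Th M O 0 * Ex M O 0 (fun ψ => F ψ * Real.exp (pr O f (emb O ψ))) := by
  unfold Su Ex
  have h0 := (Th_pos hM hP (0 : W → ℝ)).ne'
  rw [mul_div_cancel₀ _ h0]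
  exact tsum_congr fun ψ => by ring

theorem Su_one_pos (hM : IsForm M) (hP : PDef M O) (f : W → ℝ) : 0 < Su M O f (fun _ => 1) := by
  rw [Su_eq_Ex hM hP]
  refine mul_pos (Th_pos hM hP 0) (Ex_pos hM hP 0 ((tame_const 1).mul (tame_exp_pr f)) ?_)
  intro ψ; positivity

theorem Et_eq_Ex (hM : IsForm M) (hP : PDef M O) {f u : W → ℝ} (hu : IsPot M O f u)
    (F : (O → ℤ) → ℝ) : Et M O f F = Ex M O u F := by
  unfold Et
  rw [Su_eq hM hP hu, Su_eq hM hP hu, Ex_const hM hP]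
  have h0 := (Th_pos hM hP u).ne'
  have h1 := (Real.exp_pos (M u u / 2)).ne'
  field_simp

theorem exp_La (hM : IsForm M) (hP : PDef M O) (f : W → ℝ) :
    Real.exp (La M O f) = Ex M O 0 (fun ψ => Real.exp (pr O f (emb O ψ))) := by
  unfold La
  rw [Real.exp_log]
  exact Ex_pos hM hP 0 (tame_exp_pr f) fun ψ => Real.exp_pos _

/-- `Λ(f) = ‖f‖²/2 - E(u)` -/
theorem La_eq (hM : IsForm M) (hP : PDef M O) {f u : W → ℝ} (hu : IsPot M O f u) :
    La M O f = nsq M O f / 2 - En M O u := by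
  have h1 := exp_La hM hP f
  have h2 := Ex_exp_zero hM hP u
  simp only [hu.emb' hM] at h2
  rw [h2, ← hu.nsq_eq hM] at h1
  exact Real.exp_injective h1

theorem La_zero (hM : IsForm M) (hP : PDef M O) : La M O 0 = 0 := by
  rw [La_eq hM hP isPot_zero, nsq_zero hM hP, En_zero hM hP]; ring

theorem La_neg (hM : IsForm M) (hP : PDef M O) (f : W → ℝ) : La M O (-f) = La M O f := by
  obtain ⟨u, hu⟩ := exists_pot hM hP f
  rw [La_eq hM hP hu, La_eq hM hP hu.neg, nsq_neg hM hP, En_neg]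

/-- expectations in tilted models -/
theorem Et_eq (hM : IsForm M) (hP : PDef M O) (f : W → ℝ) (F : (O → ℤ) → ℝ) :
    Et M O f F = Ex M O 0 (fun ψ => F ψ * Real.exp (pr O f (emb O ψ))) * Real.exp (-La M O f) := by
  unfold Et
  rw [Su_eq_Ex hM hP, Su_eq_Ex hM hP]
  have h0 := (Th_pos hM hP (0 : W → ℝ)).ne'
  rw [Real.exp_neg, exp_La hM hP]
  have h1 : Ex M O 0 (fun ψ => Real.exp (pr O f (emb O ψ))) ≠ 0 := by
    rw [← exp_La hM hP]; exact (Real.exp_pos _).ne'
  simp only [one_mul]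
  field_simp

theorem Et_exp (hM : IsForm M) (hP : PDef M O) (f g : W → ℝ) :
    Et M O f (fun ψ => Real.exp (pr O g (emb O ψ))) = Real.exp (La M O (f + g) - La M O f) := by
  rw [Et_eq hM hP, sub_eq_add_neg, Real.exp_add, exp_La hM hP (f + g)]
  congr 2
  funext ψ
  rw [← Real.exp_add, pr_add_left]
  congr 1
  ring

end Pool.Agent.LR
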