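import Pool.Agent.LR.B1.Mom

/-!
B1: 1.7 (laws with a positive definite factor), 1.8.
-/

set_option autoImplicit false
set_option linter.unusedSectionVars false

noncomputable section

open scoped BigOperators Topology
open Filter Set

namespace Pool.Agent.LR

variable {W : Type*} [DecidableEq W] {M D : BF W} {O : Finset W}

/-! ### rules for `Su` -/

theorem summable_Su (hM : IsForm M) (hP : PDef M O) (f : W → ℝ) {F : (O → ℤ) → ℝ} (hF : Tame F) :
    Summable (fun ψ => wt M O 0 ψ * Real.exp (pr O f (emb O ψ)) * F ψ) := by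
  have := summable_wt_mul hM hP 0 ((tame_exp_pr (O := O) f).mul hF)
  refine this.congr fun ψ => by ring

theorem Su_add (hM : IsForm M) (hP : PDef M O) (f : W → ℝ) {F G : (O → ℤ) → ℝ} (hF : Tame F)
    (hG : Tame G) : Su M O f (fun ψ => F ψ + G ψ) = Su M O f F + Su M O f G := by
  unfold Su
  rw [← (summable_Su hM hP f hF).tsum_add (summable_Su hM hP f hG)]
  simp only [mul_add]

theorem Su_mul_left (M : BF W) (O : Finset W) (f : W → ℝ) (c : ℝ) (F : (O → ℤ) → ℝ) :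
    Su M O f (fun ψ => c * F ψ) = c * Su M O f F := by
  unfold Su
  rw [← tsum_mul_left]
  exact tsum_congr fun ψ => by ring

theorem Su_neg_fun (M : BF W) (O : Finset W) (f : W → ℝ) (F : (O → ℤ) → ℝ) :
    Su M O f (fun ψ => - F ψ) = - Su M O f F := by
  have := Su_mul_left M O f (-1) F
  simpa using this

theorem Su_nonneg (M : BF W) (O : Finset W) (f : W → ℝ) {F : (O → ℤ) → ℝ} (hF : ∀ ψ, 0 ≤ F ψ) :
    0 ≤ Su M O f F :=
  tsum_nonneg fun ψ => mul_nonneg (mul_nonneg (wt_pos M O 0 ψ).le (Real.exp_pos _).le) (hF ψ)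

theorem Su_mono (hM : IsForm M) (hP : PDef M O) (f : W → ℝ) {F G : (O → ℤ) → ℝ} (hF : Tame F)
    (hG : Tame G) (hle : ∀ ψ, F ψ ≤ G ψ) : Su M O f F ≤ Su M O f G := by
  unfold Su
  refine (summable_Su hM hP f hF).tsum_le_tsum (fun ψ => ?_) (summable_Su hM hP f hG)
  exact mul_le_mul_of_nonneg_left (hle ψ) (mul_nonneg (wt_pos M O 0 ψ).le (Real.exp_pos _).le)

theorem Su_pos' (hM : IsForm M) (hP : PDef M O) (f : W → ℝ) {F : (O → ℤ) → ℝ} (hF : Tame F)
    (hpos : ∀ ψ, 0 < F ψ) : 0 < Su M O f F := by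
  unfold Su
  exact (summable_Su hM hP f hF).tsum_pos
    (fun ψ => (mul_pos (mul_pos (wt_pos M O 0 ψ) (Real.exp_pos _)) (hpos ψ)).le) 0
    (mul_pos (mul_pos (wt_pos M O 0 0) (Real.exp_pos _)) (hpos 0))

theorem Su_pos (hM : IsForm M) (hP : PDef M O) (f : W → ℝ) {F : (O → ℤ) → ℝ} (hF : PD F)
    (hpos : ∀ ψ, 0 < F ψ) : 0 < Su M O f F := Su_pos' hM hP f hF.tame hpos

/-- changing the tilt -/
theorem Su_tilt (M : BF W) (O : Finset W) (f g : W → ℝ) (F : (O → ℤ) → ℝ) :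
    Su M O (f + g) F = Su M O f (fun ψ => Real.exp (pr O g (emb O ψ)) * F ψ) := by
  unfold Su
  refine tsum_congr fun ψ => ?_
  rw [pr_add_left, Real.exp_add]
  ring

theorem Su_zero_eq (hM : IsForm M) (hP : PDef M O) (F : (O → ℤ) → ℝ) :
    Su M O 0 F = Th M O 0 * Ex M O 0 F := by
  rw [Su_eq_Ex hM hP]
  simp only [pr_zero_left, Real.exp_zero, mul_one]

/-- total mass of the tilted model -/
theorem Su_one (hM : IsForm M) (hP : PDef M O) (f : W → ℝ) :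
    Su M O f (fun _ => 1) = Th M O 0 * Real.exp (La M O f) := by
  rw [Su_eq_Ex hM hP, exp_La hM hP]
  simp only [one_mul]

/-- sharper form: with the Laplace functional of the pure model -/
theorem Su_le_La (hM : IsForm M) (hP : PDef M O) (f : W → ℝ) {F : (O → ℤ) → ℝ} (hF : PD F) :
    Su M O f F ≤ Real.exp (La M O f) * Su M O 0 F := by
  rw [Su_zero_eq hM hP, Su_eq_Ex hM hP]
  have := Ex_pd_exp hM hP hF f
  have h0 := Th_nonneg M O (0 : W → ℝ)
  calc Th M O 0 * Ex M O 0 (fun ψ => F ψ * Real.exp (pr O f (emb O ψ)))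
      ≤ Th M O 0 * (Ex M O 0 F * Real.exp (La M O f)) := by gcongr
    _ = _ := by ring

theorem Su_zero_nonneg (hM : IsForm M) (hP : PDef M O) {F : (O → ℤ) → ℝ} (hF : PD F) :
    0 ≤ Su M O 0 F := by
  rw [Su_zero_eq hM hP]
  exact mul_nonneg (Th_nonneg M O 0) (Ex_pd_nonneg hM hP hF)

theorem Su_le (hM : IsForm M) (hP : PDef M O) (f : W → ℝ) {F : (O → ℤ) → ℝ} (hF : PD F) :
    Su M O f F ≤ Real.exp (nsq M O f / 2) * Su M O 0 F :=
  (Su_le_La hM hP f hF).trans (mul_le_mul_of_nonneg_right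
    (Real.exp_le_exp.2 (La_le hM hP f)) (Su_zero_nonneg hM hP hF))

theorem Su_even (M : BF W) (O : Finset W) (f : W → ℝ) {F : (O → ℤ) → ℝ}
    (hF : ∀ ψ, F (-ψ) = F ψ) : Su M O (-f) F = Su M O f F := by
  unfold Su
  rw [← (Equiv.neg (O → ℤ)).tsum_eq
    (fun ψ => wt M O 0 ψ * Real.exp (pr O f (emb O ψ)) * F ψ)]
  refine tsum_congr fun ψ => ?_
  have e1 : wt M O 0 ((Equiv.neg (O → ℤ)) ψ) = wt M O 0 ψ := by
    have := wt_neg M O 0 ψ
    rw [neg_zero] at this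
    rw [Equiv.neg_apply, ← this]
  have e2 : F ((Equiv.neg (O → ℤ)) ψ) = F ψ := by rw [Equiv.neg_apply, hF]
  have e3 : pr O f (emb O ((Equiv.neg (O → ℤ)) ψ)) = pr O (-f) (emb O ψ) := by
    rw [Equiv.neg_apply, emb_neg, pr_neg_right, pr_neg_left]
  rw [e1, e2, e3]

theorem Su_zero_le (hM : IsForm M) (hP : PDef M O) (f : W → ℝ) {F : (O → ℤ) → ℝ} (hF : PD F)
    (hpos : ∀ ψ, 0 ≤ F ψ) : Su M O 0 F ≤ Su M O f F := by
  have h1 : Su M O 0 F + Su M O 0 F ≤ Su M O f F + Su M O (-f) F := by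
    have e1 := Su_tilt M O 0 f F
    have e2 := Su_tilt M O 0 (-f) F
    rw [zero_add] at e1 e2
    rw [e1, e2]
    have t1 : Tame (fun ψ => Real.exp (pr O f (emb O ψ)) * F ψ) := (tame_exp_pr f).mul hF.tame
    have t2 : Tame (fun ψ => Real.exp (pr O (-f) (emb O ψ)) * F ψ) :=
      (tame_exp_pr (-f)).mul hF.tame
    rw [← Su_add hM hP 0 t1 t2, ← Su_add hM hP 0 hF.tame hF.tame]
    refine Su_mono hM hP 0 (hF.tame.add hF.tame) (t1.add t2) fun ψ => ?_
    rw [pr_neg_left]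
    have h2 := Real.add_one_le_exp (pr O f (emb O ψ))
    have h3 := Real.add_one_le_exp (-(pr O f (emb O ψ)))
    nlinarith [hpos ψ]
  rw [Su_even M O f hF.even] at h1
  linarith

/-- 1.7 (i) -/
theorem Su_tilt_le (hM : IsForm M) (hP : PDef M O) (f fa : W → ℝ) {F : (O → ℤ) → ℝ} (hF : PD F)
    (hpos : ∀ ψ, 0 ≤ F ψ) :
    Su M O (f + fa) F ≤ Real.exp (nsq M O (f + fa) / 2) * Su M O fa F :=
  (Su_le hM hP (f + fa) hF).trans (mul_le_mul_of_nonneg_left
    (Su_zero_le hM hP fa hF hpos) (Real.exp_pos _).le)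

theorem Su_tilt_le_La (hM : IsForm M) (hP : PDef M O) (f fa : W → ℝ) {F : (O → ℤ) → ℝ}
    (hF : PD F) (hpos : ∀ ψ, 0 ≤ F ψ) :
    Su M O (f + fa) F ≤ Real.exp (La M O (f + fa)) * Su M O fa F :=
  (Su_le_La hM hP (f + fa) hF).trans (mul_le_mul_of_nonneg_left
    (Su_zero_le hM hP fa hF hpos) (Real.exp_pos _).le)

/-- Jensen for tilted laws with an arbitrary positive factor -/
theorem Su_jensen (hM : IsForm M) (hP : PDef M O) (f g : W → ℝ) {F : (O → ℤ) → ℝ} (hF : Tame F)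
    (hpos : ∀ ψ, 0 < F ψ) :
    Su M O f F * Real.exp (Su M O f (fun ψ => F ψ * pr O g (emb O ψ)) / Su M O f F) ≤
      Su M O (f + g) F := by
  have hN := Su_pos' hM hP f hF hpos
  obtain ⟨m, hm⟩ : ∃ m, m = Su M O f (fun ψ => F ψ * pr O g (emb O ψ)) / Su M O f F := ⟨_, rfl⟩
  have hm' : Su M O f (fun ψ => F ψ * pr O g (emb O ψ)) = m * Su M O f F := by
    rw [hm]; field_simp
  rw [← hm, Su_tilt]
  have h1 : ∀ ψ : O → ℤ, (Real.exp m * (1 - m)) * F ψ + Real.exp m * (F ψ * pr O g (emb O ψ)) ≤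
      Real.exp (pr O g (emb O ψ)) * F ψ := by
    intro ψ
    have h2 := Real.add_one_le_exp (pr O g (emb O ψ) - m)
    have h3 : Real.exp (pr O g (emb O ψ)) = Real.exp m * Real.exp (pr O g (emb O ψ) - m) := by
      rw [← Real.exp_add]; congr 1; ring
    rw [h3]
    have h4 : 0 < Real.exp m * F ψ := mul_pos (Real.exp_pos m) (hpos ψ)
    nlinarith
  have h5 := Su_mono hM hP f ((hF.smul _).add ((hF.mul (tame_pr g)).smul _))
    ((tame_exp_pr g).mul hF) h1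
  rw [Su_add hM hP f (hF.smul _) ((hF.mul (tame_pr g)).smul _), Su_mul_left, Su_mul_left, hm']
    at h5
  refine le_trans (le_of_eq ?_) h5
  ring

theorem Su_tilt_mean_le (hM : IsForm M) (hP : PDef M O) (g fa : W → ℝ) {F : (O → ℤ) → ℝ}
    (hF : PD F) (hpos : ∀ ψ, 0 < F ψ) :
    Su M O fa (fun ψ => F ψ * pr O g (emb O ψ)) ≤
      2 * Real.sqrt (nsq M O fa) * Real.sqrt (nsq M O g) * Su M O fa F := by
  have hN := Su_pos' hM hP fa hF.tame hpos
  obtain ⟨m, hm⟩ : ∃ m, m = Su M O fa (fun ψ => F ψ * pr O g (emb O ψ)) / Su M O fa F := ⟨_, rfl⟩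
  have hm' : Su M O fa (fun ψ => F ψ * pr O g (emb O ψ)) = m * Su M O fa F := by
    rw [hm]; field_simp
  obtain ⟨A, hA⟩ : ∃ A, A = Real.sqrt (nsq M O fa) := ⟨_, rfl⟩
  obtain ⟨B, hB⟩ : ∃ B, B = Real.sqrt (nsq M O g) := ⟨_, rfl⟩
  have hA0 : 0 ≤ A := by rw [hA]; exact Real.sqrt_nonneg _
  have hB0 : 0 ≤ B := by rw [hB]; exact Real.sqrt_nonneg _
  rw [hm', ← hA, ← hB]
  refine mul_le_mul_of_nonneg_right ?_ hN.le
  -- `s m ≤ (A + s B)² / 2`
  have key : ∀ s : ℝ, 0 < s → s * m ≤ (A + s * B) ^ 2 / 2 := by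
    intro s hs
    have h1 := Su_jensen hM hP fa (s • g) hF.tame hpos
    have e1 : Su M O fa (fun ψ => F ψ * pr O (s • g) (emb O ψ)) = s * (m * Su M O fa F) := by
      rw [← hm', ← Su_mul_left]
      congr 1
      funext ψ
      rw [pr_smul_left]; ring
    have e2 : s * (m * Su M O fa F) / Su M O fa F = s * m := by field_simp
    rw [e1, e2] at h1
    have h2 := Su_le hM hP (fa + s • g) hF
    have h3 := Su_zero_le hM hP fa hF (fun ψ => (hpos ψ).le)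
    have h4 : Su M O fa F * Real.exp (s * m) ≤
        Su M O fa F * Real.exp (nsq M O (fa + s • g) / 2) := by
      calc Su M O fa F * Real.exp (s * m) ≤ Su M O (fa + s • g) F := h1
        _ ≤ Real.exp (nsq M O (fa + s • g) / 2) * Su M O 0 F := h2
        _ ≤ Real.exp (nsq M O (fa + s • g) / 2) * Su M O fa F := by gcongr
        _ = _ := by ring
    have h5 := Real.exp_le_exp.1 (le_of_mul_le_mul_left h4 hN)
    have h6 := nsq_add_le hM hP fa (s • g)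
    rw [nsq_smul hM hP, Real.sqrt_mul (sq_nonneg s), Real.sqrt_sq hs.le, ← hA, ← hB] at h6
    have h7 : nsq M O (fa + s • g) ≤ (A + s * B) ^ 2 :=
      (Real.sqrt_le_left (by positivity)).1 h6
    linarith
  refine le_of_forall_pos_le_add fun ε hε => ?_
  obtain ⟨δ, hδ, hδ2⟩ : ∃ δ > 0, 2 * (A + δ) * (B + δ) ≤ 2 * A * B + ε := by
    refine ⟨min 1 (ε / (2 * (A + B + 1))), lt_min one_pos (by positivity), ?_⟩
    obtain ⟨δ, hδ⟩ : ∃ δ, δ = min 1 (ε / (2 * (A + B + 1))) := ⟨_, rfl⟩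
    rw [← hδ]
    have h1 : δ ≤ 1 := by rw [hδ]; exact min_le_left _ _
    have h2 : δ ≤ ε / (2 * (A + B + 1)) := by rw [hδ]; exact min_le_right _ _
    have h3 : 0 < δ := by rw [hδ]; exact lt_min one_pos (by positivity)
    rw [le_div_iff₀ (by positivity)] at h2
    nlinarith
  refine le_trans ?_ hδ2
  have h1 := key ((A + δ) / (B + δ)) (by positivity)
  have h2 : (A + (A + δ) / (B + δ) * B) ≤ 2 * (A + δ) := by
    have : (A + δ) / (B + δ) * B ≤ A + δ := by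
      rw [div_mul_eq_mul_div, div_le_iff₀ (by positivity)]
      nlinarith
    linarith
  have h3 : (A + (A + δ) / (B + δ) * B) ^ 2 ≤ (2 * (A + δ)) ^ 2 := by
    gcongr
  have h4 : (A + δ) / (B + δ) * m ≤ (A + δ) / (B + δ) * (2 * (A + δ) * (B + δ)) := by
    have : (A + δ) / (B + δ) * (2 * (A + δ) * (B + δ)) = (2 * (A + δ)) ^ 2 / 2 := by
      field_simp
    rw [this]
    linarith
  exact le_of_mul_le_mul_left h4 (by positivity)

/-- 1.7 (ii) -/
theorem Su_tilt_mean (hM : IsForm M) (hP : PDef M O) (g fa : W → ℝ) {F : (O → ℤ) → ℝ} (hF : PD F)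
    (hpos : ∀ ψ, 0 < F ψ) :
    |Su M O fa (fun ψ => F ψ * pr O g (emb O ψ))| ≤
      2 * Real.sqrt (nsq M O fa) * Real.sqrt (nsq M O g) * Su M O fa F := by
  rw [abs_le]
  constructor
  · have h1 := Su_tilt_mean_le hM hP (-g) fa hF hpos
    rw [nsq_neg hM hP] at h1
    have e1 : Su M O fa (fun ψ => F ψ * pr O (-g) (emb O ψ))
        = - Su M O fa (fun ψ => F ψ * pr O g (emb O ψ)) := by
      rw [← Su_neg_fun]
      congr 1
      funext ψ
      rw [pr_neg_left]; ring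
    rw [e1] at h1
    linarith
  · exact Su_tilt_mean_le hM hP g fa hF hpos

/-- Hoelder inequality in the tilt -/
theorem Su_holder (hM : IsForm M) (hP : PDef M O) (f g : W → ℝ) {F : (O → ℤ) → ℝ} (hF : Tame F)
    (hpos : ∀ ψ, 0 ≤ F ψ) {p q : ℝ} (hpq : p.HolderConjugate q) :
    Su M O (f + g) F ≤ Su M O (p • f) F ^ (1 / p) * Su M O (q • g) F ^ (1 / q) := by
  have hw : ∀ ψ : O → ℤ, 0 ≤ wt M O 0 ψ * F ψ := fun ψ => mul_nonneg (wt_pos M O 0 ψ).le (hpos ψ)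
  have hp := hpq.pos
  have hq := hpq.symm.pos
  have e1 : ∀ (r : ℝ) (_ : 0 < r) (k : W → ℝ) (ψ : O → ℤ),
      ((wt M O 0 ψ * F ψ) ^ (1 / r) * Real.exp (pr O k (emb O ψ))) ^ r
      = wt M O 0 ψ * Real.exp (pr O (r • k) (emb O ψ)) * F ψ := by
    intro r hr k ψ
    rw [Real.mul_rpow (Real.rpow_nonneg (hw ψ) _) (Real.exp_pos _).le, ← Real.rpow_mul (hw ψ),
      one_div, inv_mul_cancel₀ hr.ne', Real.rpow_one, ← Real.exp_mul, pr_smul_left]
    ring_nf
  have e2 : ∀ ψ : O → ℤ, wt M O 0 ψ * Real.exp (pr O (f + g) (emb O ψ)) * F ψ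
      = ((wt M O 0 ψ * F ψ) ^ (1 / p) * Real.exp (pr O f (emb O ψ))) *
        ((wt M O 0 ψ * F ψ) ^ (1 / q) * Real.exp (pr O g (emb O ψ))) := by
    intro ψ
    have h1 : (wt M O 0 ψ * F ψ) ^ (1 / p) * (wt M O 0 ψ * F ψ) ^ (1 / q)
        = wt M O 0 ψ * F ψ := by
      rcases (hw ψ).eq_or_lt with h0 | h0
      · rw [← h0, Real.zero_rpow (one_div_pos.2 hp).ne', zero_mul]
      · rw [← Real.rpow_add h0, one_div, one_div, hpq.inv_add_inv_eq_one, Real.rpow_one]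
    calc wt M O 0 ψ * Real.exp (pr O (f + g) (emb O ψ)) * F ψ
        = (wt M O 0 ψ * F ψ) * (Real.exp (pr O f (emb O ψ)) * Real.exp (pr O g (emb O ψ))) := by
          rw [pr_add_left, Real.exp_add]; ring
      _ = ((wt M O 0 ψ * F ψ) ^ (1 / p) * (wt M O 0 ψ * F ψ) ^ (1 / q)) *
          (Real.exp (pr O f (emb O ψ)) * Real.exp (pr O g (emb O ψ))) := by rw [h1]
      _ = _ := by ring
  have key := Real.inner_le_Lp_mul_Lq_tsum_of_nonneg hpq
    (f := fun ψ : O → ℤ => (wt M O 0 ψ * F ψ) ^ (1 / p) * Real.exp (pr O f (emb O ψ)))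
    (g := fun ψ : O → ℤ => (wt M O 0 ψ * F ψ) ^ (1 / q) * Real.exp (pr O g (emb O ψ)))
    (fun ψ => mul_nonneg (Real.rpow_nonneg (hw ψ) _) (Real.exp_pos _).le)
    (fun ψ => mul_nonneg (Real.rpow_nonneg (hw ψ) _) (Real.exp_pos _).le)
    ((summable_Su hM hP (p • f) hF).congr fun ψ => (e1 p hp f ψ).symm)
    ((summable_Su hM hP (q • g) hF).congr fun ψ => (e1 q hq g ψ).symm)
  have h2 := key
  simp only [e1 p hp f, e1 q hq g] at h2
  refine le_trans (le_of_eq ?_) h2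
  unfold Su
  exact tsum_congr e2

/-! ### 1.8 -/

theorem Ex_exp_mul_neg (hM : IsForm M) (hP : PDef M O) (b u : W → ℝ) :
    Real.exp (M u u - 2 * En M O u) ≤
      Ex M O b (fun ψ => Real.exp (M (emb O ψ - b) u)) *
        Ex M O b (fun ψ => Real.exp (-M (emb O ψ - b) u)) := by
  have h1 := Ex_exp hM hP b u
  have h2 := Ex_exp hM hP b (-u)
  simp only [map_neg, LinearMap.neg_apply, neg_neg] at h2
  have e : (fun ψ : O → ℤ => Real.exp (-M (emb O ψ - b) u))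
      = fun ψ => Real.exp (-(M (emb O ψ - b) u)) := rfl
  rw [e, h1, h2, ← Real.exp_add, Real.exp_le_exp]
  have h3 := En_rsd hM hP b u
  rw [sub_eq_add_neg] at h3
  linarith

/-- convexity of `Λ` along two tilts (Cauchy-Schwarz) -/
theorem Su_cs (hM : IsForm M) (hP : PDef M O) (f g : W → ℝ) {F G : (O → ℤ) → ℝ} (hF : Tame F)
    (hG : Tame G) :
    (Su M O (f + g) (fun ψ => F ψ * G ψ)) ^ 2 ≤
      Su M O ((2 : ℝ) • f) (fun ψ => F ψ ^ 2) * Su M O ((2 : ℝ) • g) (fun ψ => G ψ ^ 2) := by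
  have h1 := Ex_cs hM hP 0 (F := fun ψ => F ψ * Real.exp (pr O f (emb O ψ)))
    (G := fun ψ => G ψ * Real.exp (pr O g (emb O ψ))) (hF.mul (tame_exp_pr f))
    (hG.mul (tame_exp_pr g))
  rw [Su_eq_Ex hM hP, Su_eq_Ex hM hP, Su_eq_Ex hM hP]
  have e1 : (fun ψ : O → ℤ => F ψ * G ψ * Real.exp (pr O (f + g) (emb O ψ)))
      = fun ψ => F ψ * Real.exp (pr O f (emb O ψ)) * (G ψ * Real.exp (pr O g (emb O ψ))) := by
    funext ψ
    rw [pr_add_left, Real.exp_add]; ring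
  have e2 : ∀ (f : W → ℝ) (F : (O → ℤ) → ℝ),
      (fun ψ : O → ℤ => F ψ ^ 2 * Real.exp (pr O ((2 : ℝ) • f) (emb O ψ)))
      = fun ψ => (F ψ * Real.exp (pr O f (emb O ψ))) ^ 2 := by
    intro f F
    funext ψ
    rw [pr_smul_left, mul_pow, ← Real.exp_nat_mul]
    norm_num
  rw [e1, e2, e2]
  have h0 : 0 ≤ Th M O (0 : W → ℝ) ^ 2 := sq_nonneg _
  calc (Th M O 0 * Ex M O 0 fun ψ =>
        F ψ * Real.exp (pr O f (emb O ψ)) * (G ψ * Real.exp (pr O g (emb O ψ)))) ^ 2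
      = Th M O 0 ^ 2 * (Ex M O 0 fun ψ =>
        F ψ * Real.exp (pr O f (emb O ψ)) * (G ψ * Real.exp (pr O g (emb O ψ)))) ^ 2 := by ring
    _ ≤ _ := mul_le_mul_of_nonneg_left h1 h0
    _ = _ := by ring

end Pool.Agent.LR
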