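import Pool.Agent.LR.B1.Basic

/-!
B1: coercivity, tame functions, summability, rules for expectations.
-/

set_option autoImplicit false
set_option linter.unusedSectionVars false

noncomputable section

open scoped BigOperators Topology
open Filter Set

namespace Pool.Agent.LR

variable {W : Type*} [DecidableEq W] {M D : BF W} {O : Finset W}

/-! ### coercivity -/

/-- extension by zero of a real field -/
def ext0 (O : Finset W) (g : O → ℝ) : W → ℝ := fun x => if h : x ∈ O then g ⟨x, h⟩ else 0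

theorem supp_ext0 (g : O → ℝ) : Supp O (ext0 O g) := fun x h => by simp [ext0, h]

theorem ext0_coe (g : O → ℝ) (x : O) : ext0 O g x = g x := by simp [ext0]

/-- extension by zero as a linear map -/
def ext0L (O : Finset W) : (O → ℝ) →ₗ[ℝ] (W → ℝ) where
  toFun := ext0 O
  map_add' f g := by
    funext x
    by_cases h : x ∈ O
    · simp [ext0, h]
    · simp [ext0, h]
  map_smul' a f := by
    funext x
    by_cases h : x ∈ O
    · simp [ext0, h]
    · simp [ext0, h]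

@[simp] theorem ext0L_apply (g : O → ℝ) : ext0L O g = ext0 O g := rfl

theorem Supp.ext0_eq {f : W → ℝ} (hf : Supp O f) : ext0 O (fun x => f x) = f := by
  funext x
  by_cases h : x ∈ O
  · simp [ext0, h]
  · simp [ext0, h, hf x h]

theorem continuous_form (M : BF W) (O : Finset W) :
    Continuous (fun g : O → ℝ => M (ext0 O g) (ext0 O g)) := by
  have h1 : (fun g : O → ℝ => M (ext0 O g) (ext0 O g))
      = fun g => (M.compl₁₂ (ext0L O) (ext0L O)) g g := by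
    funext g; rfl
  rw [h1]
  have h2 : ∀ g : O → ℝ, (M.compl₁₂ (ext0L O) (ext0L O)) g g
      = ∑ x, ∑ y, g x * g y * (M.compl₁₂ (ext0L O) (ext0L O)) (Pi.single x 1) (Pi.single y 1) := by
    intro g
    have e : g = ∑ x, g x • (Pi.single x (1:ℝ) : O → ℝ) := by
      funext z
      simp [Finset.sum_apply, Pi.single_apply]
    conv_lhs => rw [e]
    simp only [map_sum, map_smul, LinearMap.sum_apply, LinearMap.smul_apply, smul_eq_mul,
      Finset.mul_sum]
    rw [Finset.sum_comm]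
    refine Finset.sum_congr rfl fun x _ => Finset.sum_congr rfl fun y _ => by ring
  simp only [h2]
  fun_prop

theorem PDef.coer (hM : IsForm M) (hP : PDef M O) :
    ∃ c > 0, ∀ f, Supp O f → c * ∑ x ∈ O, f x ^ 2 ≤ M f f := by
  classical
  rcases O.eq_empty_or_nonempty with rfl | hne
  · exact ⟨1, one_pos, fun f _ => by simpa using hM.nonneg f⟩
  obtain ⟨x₀, hx₀⟩ := hne
  let S : Set (O → ℝ) := {g | ∑ x, g x ^ 2 = 1}
  have hSc : IsCompact S := by
    refine Metric.isCompact_of_isClosed_isBounded ?_ ?_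
    · exact isClosed_eq (by fun_prop) continuous_const
    · refine (Metric.isBounded_iff_subset_closedBall 0).2 ⟨1, fun g hg => ?_⟩
      rw [mem_closedBall_zero_iff, pi_norm_le_iff_of_nonneg zero_le_one]
      intro x
      have h1 : g x ^ 2 ≤ ∑ y, g y ^ 2 :=
        Finset.single_le_sum (f := fun y => g y ^ 2) (fun y _ => sq_nonneg _) (Finset.mem_univ x)
      have hg' : ∑ y, g y ^ 2 = 1 := hg
      rw [hg'] at h1
      rw [Real.norm_eq_abs, ← sq_le_one_iff_abs_le_one]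
      exact h1
  have hSn : S.Nonempty := by
    refine ⟨Pi.single ⟨x₀, hx₀⟩ 1, ?_⟩
    show ∑ x, (Pi.single (⟨x₀, hx₀⟩ : O) (1:ℝ) : O → ℝ) x ^ 2 = 1
    rw [Finset.sum_eq_single (⟨x₀, hx₀⟩ : O)]
    · simp
    · intro b _ hb; simp [Pi.single_eq_of_ne hb]
    · simp
  obtain ⟨g₀, hg₀, hmin⟩ := hSc.exists_isMinOn hSn (continuous_form M O).continuousOn
  have hg0 : ∑ x, g₀ x ^ 2 = 1 := hg₀
  have hpos : 0 < M (ext0 O g₀) (ext0 O g₀) := by
    refine hP _ (supp_ext0 g₀) ?_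
    intro h0
    have : ∀ x, g₀ x = 0 := by
      intro x
      rw [← ext0_coe g₀ x, h0]; rfl
    simp [this] at hg0
  refine ⟨_, hpos, fun f hf => ?_⟩
  obtain ⟨s, hs⟩ : ∃ s, s = ∑ x : O, f x ^ 2 := ⟨_, rfl⟩
  have hsum : ∑ x ∈ O, f x ^ 2 = s := by
    rw [hs, Finset.sum_coe_sort O (fun x => f x ^ 2)]
  rw [hsum]
  have hs0 : 0 ≤ s := by rw [hs]; exact Finset.sum_nonneg fun _ _ => sq_nonneg _
  rcases hs0.eq_or_lt with h0 | hs1
  · rw [← h0, mul_zero]; exact hM.nonneg f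
  · have hr : 0 < Real.sqrt s := Real.sqrt_pos.2 hs1
    have hmem : (fun x : O => (Real.sqrt s)⁻¹ * f x) ∈ S := by
      show ∑ x : O, ((Real.sqrt s)⁻¹ * f x) ^ 2 = 1
      have : ∀ x : O, ((Real.sqrt s)⁻¹ * f x) ^ 2 = s⁻¹ * f x ^ 2 := by
        intro x
        rw [mul_pow, inv_pow, Real.sq_sqrt hs0]
      simp only [this]
      rw [← Finset.mul_sum, ← hs]
      exact inv_mul_cancel₀ hs1.ne'
    have h1 := hmin hmem
    have h2 : ext0 O (fun x : O => (Real.sqrt s)⁻¹ * f x) = (Real.sqrt s)⁻¹ • f := by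
      funext x
      by_cases h : x ∈ O
      · simp [ext0, h]
      · simp [ext0, h, hf x h]
    have h3 : M (ext0 O g₀) (ext0 O g₀) ≤ s⁻¹ * M f f := by
      have : M (ext0 O fun x : O => (Real.sqrt s)⁻¹ * f x)
          (ext0 O fun x : O => (Real.sqrt s)⁻¹ * f x) = s⁻¹ * M f f := by
        rw [h2, smul_sq, inv_pow, Real.sq_sqrt hs0]
      rw [← this]
      exact h1
    calc M (ext0 O g₀) (ext0 O g₀) * s ≤ s⁻¹ * M f f * s := mul_le_mul_of_nonneg_right h3 hs0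
      _ = M f f := by field_simp

/-! ### tame functions -/

/-- at most exponential growth -/
def Tame (F : (O → ℤ) → ℝ) : Prop :=
  ∃ C K : ℝ, ∀ ψ, |F ψ| ≤ C * Real.exp (K * ∑ x : O, |(ψ x : ℝ)|)

/-- the `l^1` norm of an integer field -/
def l1 (ψ : O → ℤ) : ℝ := ∑ x : O, |(ψ x : ℝ)|

theorem l1_nonneg (ψ : O → ℤ) : 0 ≤ l1 ψ := Finset.sum_nonneg fun _ _ => abs_nonneg _

theorem Tame.nn {F : (O → ℤ) → ℝ} (hF : Tame F) :
    ∃ C K : ℝ, 0 ≤ C ∧ 0 ≤ K ∧ ∀ ψ, |F ψ| ≤ C * Real.exp (K * l1 ψ) := by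
  obtain ⟨C, K, h⟩ := hF
  refine ⟨|C|, |K|, abs_nonneg _, abs_nonneg _, fun ψ => (h ψ).trans ?_⟩
  have h1 : Real.exp (K * ∑ x : O, |(ψ x : ℝ)|) ≤ Real.exp (|K| * l1 ψ) :=
    Real.exp_le_exp.2 (mul_le_mul_of_nonneg_right (le_abs_self _) (l1_nonneg ψ))
  calc C * Real.exp (K * ∑ x : O, |(ψ x : ℝ)|) ≤ |C| * Real.exp (K * ∑ x : O, |(ψ x : ℝ)|) :=
        mul_le_mul_of_nonneg_right (le_abs_self _) (Real.exp_pos _).le
    _ ≤ _ := mul_le_mul_of_nonneg_left h1 (abs_nonneg _)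

theorem tame_mk {F : (O → ℤ) → ℝ} (C K : ℝ) (h : ∀ ψ, |F ψ| ≤ C * Real.exp (K * l1 ψ)) :
    Tame F := ⟨C, K, h⟩

theorem tame_bdd {F : (O → ℤ) → ℝ} (C : ℝ) (h : ∀ ψ, |F ψ| ≤ C) : Tame F :=
  ⟨C, 0, fun ψ => by simpa using h ψ⟩

theorem tame_const (c : ℝ) : Tame (O := O) (fun _ => c) := tame_bdd |c| fun _ => le_rfl

theorem Tame.of_le {F G : (O → ℤ) → ℝ} (hF : Tame F) (h : ∀ ψ, |G ψ| ≤ |F ψ|) : Tame G := by
  obtain ⟨C, K, h'⟩ := hF
  exact ⟨C, K, fun ψ => (h ψ).trans (h' ψ)⟩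

theorem Tame.add {F G : (O → ℤ) → ℝ} (hF : Tame F) (hG : Tame G) :
    Tame (fun ψ => F ψ + G ψ) := by
  obtain ⟨C, K, hC, hK, h⟩ := hF.nn
  obtain ⟨C', K', hC', hK', h'⟩ := hG.nn
  refine tame_mk (C + C') (K + K') fun ψ => ?_
  have hl := l1_nonneg ψ
  have e1 : Real.exp (K * l1 ψ) ≤ Real.exp ((K + K') * l1 ψ) :=
    Real.exp_le_exp.2 (by nlinarith)
  have e2 : Real.exp (K' * l1 ψ) ≤ Real.exp ((K + K') * l1 ψ) :=
    Real.exp_le_exp.2 (by nlinarith)
  calc |F ψ + G ψ| ≤ |F ψ| + |G ψ| := abs_add_le _ _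
    _ ≤ C * Real.exp (K * l1 ψ) + C' * Real.exp (K' * l1 ψ) := add_le_add (h ψ) (h' ψ)
    _ ≤ C * Real.exp ((K + K') * l1 ψ) + C' * Real.exp ((K + K') * l1 ψ) :=
        add_le_add (mul_le_mul_of_nonneg_left e1 hC) (mul_le_mul_of_nonneg_left e2 hC')
    _ = _ := by ring

theorem Tame.mul {F G : (O → ℤ) → ℝ} (hF : Tame F) (hG : Tame G) :
    Tame (fun ψ => F ψ * G ψ) := by
  obtain ⟨C, K, hC, hK, h⟩ := hF.nn
  obtain ⟨C', K', hC', hK', h'⟩ := hG.nn
  refine tame_mk (C * C') (K + K') fun ψ => ?_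
  rw [abs_mul, add_mul, Real.exp_add]
  calc |F ψ| * |G ψ| ≤ (C * Real.exp (K * l1 ψ)) * (C' * Real.exp (K' * l1 ψ)) :=
        mul_le_mul (h ψ) (h' ψ) (abs_nonneg _) (mul_nonneg hC (Real.exp_pos _).le)
    _ = _ := by ring

theorem Tame.smul {F : (O → ℤ) → ℝ} (hF : Tame F) (c : ℝ) : Tame (fun ψ => c * F ψ) :=
  (tame_const c).mul hF

theorem Tame.neg {F : (O → ℤ) → ℝ} (hF : Tame F) : Tame (fun ψ => - F ψ) :=
  hF.of_le fun ψ => by rw [abs_neg]

theorem Tame.sub {F G : (O → ℤ) → ℝ} (hF : Tame F) (hG : Tame G) :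
    Tame (fun ψ => F ψ - G ψ) := by
  simpa [sub_eq_add_neg] using hF.add hG.neg

theorem Tame.pow {F : (O → ℤ) → ℝ} (hF : Tame F) (n : ℕ) : Tame (fun ψ => F ψ ^ n) := by
  induction n with
  | zero => simpa using tame_const (O := O) 1
  | succ n ih => simpa [pow_succ] using ih.mul hF

theorem Tame.abs {F : (O → ℤ) → ℝ} (hF : Tame F) : Tame (fun ψ => |F ψ|) :=
  hF.of_le fun ψ => by rw [abs_abs]

theorem Tame.sum {κ : Type*} (t : Finset κ) {F : κ → (O → ℤ) → ℝ} (hF : ∀ k ∈ t, Tame (F k)) :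
    Tame (fun ψ => ∑ k ∈ t, F k ψ) := by
  classical
  induction t using Finset.induction_on with
  | empty => simpa using tame_const (O := O) 0
  | insert a t ha ih =>
    simp only [Finset.sum_insert ha]
    exact (hF a (by simp)).add (ih fun k hk => hF k (by simp [hk]))

theorem emb_eq_sum (ψ : O → ℤ) : emb O ψ = ∑ x : O, (ψ x : ℝ) • (Pi.single (x : W) (1:ℝ)) := by
  funext z
  by_cases h : z ∈ O
  · rw [emb_apply_mem h, Finset.sum_apply, Finset.sum_eq_single (⟨z, h⟩ : O)]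
    · simp
    · intro b _ hb
      have : (b : W) ≠ z := fun e => hb (Subtype.ext e)
      simp [this.symm]
    · simp
  · rw [emb_apply_not h, Finset.sum_apply]
    symm
    refine Finset.sum_eq_zero fun b _ => ?_
    have : z ≠ (b : W) := fun e => h (e ▸ b.2)
    simp [this]

theorem lin_emb_le (l : (W → ℝ) →ₗ[ℝ] ℝ) :
    ∃ K, 0 ≤ K ∧ ∀ ψ : O → ℤ, |l (emb O ψ)| ≤ K * l1 ψ := by
  refine ⟨∑ x : O, |l (Pi.single (x : W) (1:ℝ))|, Finset.sum_nonneg fun _ _ => abs_nonneg _,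
    fun ψ => ?_⟩
  rw [emb_eq_sum, map_sum]
  refine (Finset.abs_sum_le_sum_abs _ _).trans ?_
  unfold l1
  rw [Finset.mul_sum]
  refine Finset.sum_le_sum fun x _ => ?_
  rw [map_smul, smul_eq_mul, abs_mul, mul_comm]
  refine mul_le_mul_of_nonneg_right ?_ (abs_nonneg _)
  exact Finset.single_le_sum (f := fun x : O => |l (Pi.single (x : W) (1:ℝ))|)
    (fun _ _ => abs_nonneg _) (Finset.mem_univ x)

theorem tame_l1 : Tame (O := O) (fun ψ => l1 ψ) := by
  refine tame_mk 1 1 fun ψ => ?_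
  rw [abs_of_nonneg (l1_nonneg ψ), one_mul, one_mul]
  have := Real.add_one_le_exp (l1 ψ)
  linarith

theorem tame_lin (l : (W → ℝ) →ₗ[ℝ] ℝ) : Tame (O := O) (fun ψ => l (emb O ψ)) := by
  obtain ⟨K, hK, h⟩ := lin_emb_le (O := O) l
  refine (tame_l1.smul K).of_le fun ψ => ?_
  rw [abs_of_nonneg (mul_nonneg hK (l1_nonneg ψ))]
  exact h ψ

theorem tame_exp_lin (l : (W → ℝ) →ₗ[ℝ] ℝ) :
    Tame (O := O) (fun ψ => Real.exp (l (emb O ψ))) := by
  obtain ⟨K, hK, h⟩ := lin_emb_le (O := O) l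
  refine tame_mk 1 K fun ψ => ?_
  rw [abs_of_pos (Real.exp_pos _), one_mul]
  exact Real.exp_le_exp.2 ((le_abs_self _).trans (h ψ))

/-- the pairing as a linear map -/
def prL (O : Finset W) (f : W → ℝ) : (W → ℝ) →ₗ[ℝ] ℝ where
  toFun φ := pr O f φ
  map_add' := pr_add_right f
  map_smul' a φ := pr_smul_right a f φ

@[simp] theorem prL_apply (f φ : W → ℝ) : prL O f φ = pr O f φ := rfl

theorem tame_pr (f : W → ℝ) : Tame (O := O) (fun ψ => pr O f (emb O ψ)) := tame_lin (prL O f)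

theorem tame_exp_pr (f : W → ℝ) : Tame (O := O) (fun ψ => Real.exp (pr O f (emb O ψ))) :=
  tame_exp_lin (prL O f)

theorem tame_form_right (D : BF W) (h : W → ℝ) : Tame (O := O) (fun ψ => D (emb O ψ) h) :=
  tame_lin (D.flip h)

theorem tame_form_left (D : BF W) (h : W → ℝ) : Tame (O := O) (fun ψ => D h (emb O ψ)) :=
  tame_lin (D h)

theorem tame_form_self (D : BF W) : Tame (O := O) (fun ψ => D (emb O ψ) (emb O ψ)) := by
  have : (fun ψ : O → ℤ => D (emb O ψ) (emb O ψ))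
      = fun ψ => ∑ x : O, (ψ x : ℝ) * D (Pi.single (x : W) (1:ℝ)) (emb O ψ) := by
    funext ψ
    have key : ∀ v : W → ℝ, D (emb O ψ) v
        = ∑ x : O, (ψ x : ℝ) * D (Pi.single (x : W) (1:ℝ)) v := by
      intro v
      rw [emb_eq_sum ψ, map_sum, LinearMap.sum_apply]
      exact Finset.sum_congr rfl fun x _ => by simp
    exact key _
  rw [this]
  refine Tame.sum _ fun x _ => Tame.mul ?_ (tame_form_left D _)
  refine tame_l1.of_le fun ψ => ?_
  rw [abs_of_nonneg (l1_nonneg ψ)]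
  exact Finset.single_le_sum (f := fun x : O => |(ψ x : ℝ)|) (fun _ _ => abs_nonneg _)
    (Finset.mem_univ x)

theorem tame_form (D : BF W) (g h : W → ℝ) :
    Tame (O := O) (fun ψ => D (emb O ψ - g) (emb O ψ - h)) := by
  have : (fun ψ : O → ℤ => D (emb O ψ - g) (emb O ψ - h))
      = fun ψ => (D (emb O ψ) (emb O ψ) - D (emb O ψ) h) - (D g (emb O ψ) - D g h) := by
    funext ψ
    simp only [map_sub, LinearMap.sub_apply]
    ring
  rw [this]
  exact ((tame_form_self D).sub (tame_form_right D h)).sub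
    ((tame_form_left D g).sub (tame_const _))

/-! ### summability -/

theorem summable_int_exp {c : ℝ} (hc : 0 < c) (K : ℝ) :
    Summable (fun n : ℤ => Real.exp (-c * (n : ℝ) ^ 2 + K * |(n : ℝ)|)) := by
  have hb : ∀ t : ℝ, -c * t ^ 2 + K * |t| ≤ (K + 1) ^ 2 / (4 * c) + (-1) * |t| := by
    intro t
    have h1 : 0 ≤ c * (|t| - (K + 1) / (2 * c)) ^ 2 := by positivity
    have h2 : c * (|t| - (K + 1) / (2 * c)) ^ 2
        = c * t ^ 2 - (K + 1) * |t| + (K + 1) ^ 2 / (4 * c) := by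
      have : |t| ^ 2 = t ^ 2 := sq_abs t
      field_simp
      rw [← this]
      ring
    linarith
  have hg : Summable (fun n : ℕ => Real.exp ((-1) * (n : ℝ))) := by
    have := Real.summable_exp_neg_nat
    refine this.congr fun n => ?_
    simp
  have hnat : Summable (fun n : ℕ => Real.exp ((K + 1) ^ 2 / (4 * c)) *
      Real.exp ((-1) * (n : ℝ))) := hg.mul_left _
  refine Summable.of_nat_of_neg ?_ ?_
  · refine Summable.of_nonneg_of_le (fun n => (Real.exp_pos _).le) (fun n => ?_) hnat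
    rw [← Real.exp_add, Real.exp_le_exp]
    have := hb (n : ℝ)
    simpa using this
  · refine Summable.of_nonneg_of_le (fun n => (Real.exp_pos _).le) (fun n => ?_) hnat
    rw [← Real.exp_add, Real.exp_le_exp]
    have := hb (n : ℝ)
    simpa using this

theorem summable_pi_prod {ι : Type*} [Fintype ι] [DecidableEq ι] {g : ℤ → ℝ} (hg : Summable g)
    (h0 : ∀ n, 0 ≤ g n) : Summable (fun ψ : ι → ℤ => ∏ x, g (ψ x)) := by
  refine summable_of_sum_le (c := (∑' n, g n) ^ Fintype.card ι)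
    (fun ψ => Finset.prod_nonneg fun x _ => h0 _) (fun u => ?_)
  let t : ι → Finset ℤ := fun x => u.image (fun ψ => ψ x)
  have hu : u ⊆ Fintype.piFinset t := by
    intro ψ hψ
    rw [Fintype.mem_piFinset]
    exact fun x => Finset.mem_image_of_mem (fun ψ : ι → ℤ => ψ x) hψ
  calc ∑ ψ ∈ u, ∏ x, g (ψ x) ≤ ∑ ψ ∈ Fintype.piFinset t, ∏ x, g (ψ x) :=
        Finset.sum_le_sum_of_subset_of_nonneg hu fun ψ _ _ => Finset.prod_nonneg fun x _ => h0 _
    _ = ∏ x, ∑ n ∈ t x, g n := (Finset.prod_univ_sum t (fun _ n => g n)).symm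
    _ ≤ ∏ _x : ι, ∑' n, g n := Finset.prod_le_prod
        (fun x _ => Finset.sum_nonneg fun _ _ => h0 _) (fun x _ => hg.sum_le_tsum _ fun n _ => h0 n)
    _ = _ := by simp

theorem summable_gauss {c : ℝ} (hc : 0 < c) (K : ℝ) :
    Summable (fun ψ : O → ℤ => Real.exp (-c * ∑ x : O, (ψ x : ℝ) ^ 2 + K * l1 ψ)) := by
  have := summable_pi_prod (ι := O) (summable_int_exp hc K) (fun n => (Real.exp_pos _).le)
  refine this.congr fun ψ => ?_
  rw [← Real.exp_sum]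
  congr 1
  rw [Finset.sum_add_distrib, ← Finset.mul_sum, ← Finset.mul_sum]
  rfl

theorem sum_emb_sq (ψ : O → ℤ) : ∑ x ∈ O, emb O ψ x ^ 2 = ∑ x : O, (ψ x : ℝ) ^ 2 := by
  rw [← Finset.sum_coe_sort O (fun x => emb O ψ x ^ 2)]
  exact Finset.sum_congr rfl fun x _ => by rw [emb_apply_coe]

/-- Gaussian domination with an arbitrary positive factor -/
theorem summable_gen (hM : IsForm M) (hP : PDef M O) {t : ℝ} (ht : 0 < t) (h : W → ℝ)
    {F : (O → ℤ) → ℝ} (hF : Tame F) :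
    Summable (fun ψ => Real.exp (-t * M (emb O ψ - h) (emb O ψ - h)) * F ψ) := by
  obtain ⟨c, hc, hco⟩ := hP.coer hM
  obtain ⟨C, K, hC, hK, hCK⟩ := hF.nn
  have hs := (summable_gauss (O := O) (c := t * c / 2) (by positivity) K).mul_left
    (Real.exp (t * M h h) * C)
  refine Summable.of_norm_bounded hs fun ψ => ?_
  rw [norm_mul, Real.norm_eq_abs, Real.norm_eq_abs, abs_of_pos (Real.exp_pos _)]
  have h1 := hM.le_two (emb O ψ) h
  have h2 := hco (emb O ψ) (supp_emb ψ)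
  rw [sum_emb_sq] at h2
  have h3 : Real.exp (-t * M (emb O ψ - h) (emb O ψ - h)) ≤
      Real.exp (t * M h h) * Real.exp (-(t * c / 2) * ∑ x : O, (ψ x : ℝ) ^ 2) := by
    rw [← Real.exp_add, Real.exp_le_exp]
    nlinarith
  calc Real.exp (-t * M (emb O ψ - h) (emb O ψ - h)) * |F ψ|
      ≤ (Real.exp (t * M h h) * Real.exp (-(t * c / 2) * ∑ x : O, (ψ x : ℝ) ^ 2)) *
        (C * Real.exp (K * l1 ψ)) :=
        mul_le_mul h3 (hCK ψ) (abs_nonneg _) (by positivity)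
    _ = Real.exp (t * M h h) * C *
        Real.exp (-(t * c / 2) * ∑ x : O, (ψ x : ℝ) ^ 2 + K * l1 ψ) := by
        rw [Real.exp_add]; ring

theorem summable_wt_mul (hM : IsForm M) (hP : PDef M O) (h : W → ℝ) {F : (O → ℤ) → ℝ}
    (hF : Tame F) : Summable (fun ψ => wt M O h ψ * F ψ) :=
  summable_gen hM hP one_half_pos h hF

theorem summable_wt (hM : IsForm M) (hP : PDef M O) (h : W → ℝ) : Summable (wt M O h) := by
  simpa using summable_wt_mul hM hP h (tame_const 1)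

theorem wt_pos (M : BF W) (O : Finset W) (h : W → ℝ) (ψ : O → ℤ) : 0 < wt M O h ψ :=
  Real.exp_pos _

theorem Th_pos (hM : IsForm M) (hP : PDef M O) (h : W → ℝ) : 0 < Th M O h :=
  (summable_wt hM hP h).tsum_pos (fun ψ => (wt_pos M O h ψ).le) 0 (wt_pos M O h 0)

theorem Th_nonneg (M : BF W) (O : Finset W) (h : W → ℝ) : 0 ≤ Th M O h :=
  tsum_nonneg fun ψ => (wt_pos M O h ψ).le

/-! ### rules for expectations -/

theorem Ex_const (hM : IsForm M) (hP : PDef M O) (h : W → ℝ) (c : ℝ) :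
    Ex M O h (fun _ => c) = c := by
  unfold Ex
  rw [tsum_mul_right]
  have := (Th_pos hM hP h).ne'
  unfold Th at *
  field_simp

theorem Ex_add (hM : IsForm M) (hP : PDef M O) (h : W → ℝ) {F G : (O → ℤ) → ℝ} (hF : Tame F)
    (hG : Tame G) : Ex M O h (fun ψ => F ψ + G ψ) = Ex M O h F + Ex M O h G := by
  unfold Ex
  rw [← add_div, ← (summable_wt_mul hM hP h hF).tsum_add (summable_wt_mul hM hP h hG)]
  simp only [mul_add]

theorem Ex_mul_left (M : BF W) (O : Finset W) (h : W → ℝ) (c : ℝ) (F : (O → ℤ) → ℝ) :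
    Ex M O h (fun ψ => c * F ψ) = c * Ex M O h F := by
  unfold Ex
  rw [← mul_div_assoc, ← tsum_mul_left]
  congr 2
  funext ψ
  ring

theorem Ex_neg (M : BF W) (O : Finset W) (h : W → ℝ) (F : (O → ℤ) → ℝ) :
    Ex M O h (fun ψ => - F ψ) = - Ex M O h F := by
  have := Ex_mul_left M O h (-1) F
  simpa using this

theorem Ex_sub (hM : IsForm M) (hP : PDef M O) (h : W → ℝ) {F G : (O → ℤ) → ℝ} (hF : Tame F)
    (hG : Tame G) : Ex M O h (fun ψ => F ψ - G ψ) = Ex M O h F - Ex M O h G := by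
  have := Ex_add hM hP h hF hG.neg
  rw [Ex_neg] at this
  simpa [sub_eq_add_neg] using this

theorem Ex_nonneg (M : BF W) (O : Finset W) (h : W → ℝ) {F : (O → ℤ) → ℝ} (hF : ∀ ψ, 0 ≤ F ψ) :
    0 ≤ Ex M O h F :=
  div_nonneg (tsum_nonneg fun ψ => mul_nonneg (wt_pos M O h ψ).le (hF ψ)) (Th_nonneg M O h)

theorem Ex_mono (hM : IsForm M) (hP : PDef M O) (h : W → ℝ) {F G : (O → ℤ) → ℝ} (hF : Tame F)
    (hG : Tame G) (hle : ∀ ψ, F ψ ≤ G ψ) : Ex M O h F ≤ Ex M O h G := by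
  have h1 := Ex_sub hM hP h hG hF
  have h2 : 0 ≤ Ex M O h (fun ψ => G ψ - F ψ) := Ex_nonneg M O h fun ψ => sub_nonneg.2 (hle ψ)
  linarith

theorem Ex_abs_le (hM : IsForm M) (hP : PDef M O) (h : W → ℝ) {F : (O → ℤ) → ℝ} (hF : Tame F) :
    |Ex M O h F| ≤ Ex M O h (fun ψ => |F ψ|) := by
  rw [abs_le]
  constructor
  · rw [← Ex_neg]
    exact Ex_mono hM hP h hF.abs.neg hF fun ψ => neg_abs_le _
  · exact Ex_mono hM hP h hF hF.abs fun ψ => le_abs_self _

theorem Ex_pos (hM : IsForm M) (hP : PDef M O) (h : W → ℝ) {F : (O → ℤ) → ℝ} (hF : Tame F)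
    (hpos : ∀ ψ, 0 < F ψ) : 0 < Ex M O h F := by
  refine div_pos ?_ (Th_pos hM hP h)
  exact (summable_wt_mul hM hP h hF).tsum_pos
    (fun ψ => (mul_pos (wt_pos M O h ψ) (hpos ψ)).le) 0 (mul_pos (wt_pos M O h 0) (hpos 0))

theorem Ex_cs (hM : IsForm M) (hP : PDef M O) (h : W → ℝ) {F G : (O → ℤ) → ℝ} (hF : Tame F)
    (hG : Tame G) : (Ex M O h (fun ψ => F ψ * G ψ)) ^ 2 ≤
      Ex M O h (fun ψ => F ψ ^ 2) * Ex M O h (fun ψ => G ψ ^ 2) := by
  have key : ∀ t : ℝ, 0 ≤ Ex M O h (fun ψ => G ψ ^ 2) * (t * t) +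
      (2 * Ex M O h (fun ψ => F ψ * G ψ)) * t + Ex M O h (fun ψ => F ψ ^ 2) := by
    intro t
    have h0 : 0 ≤ Ex M O h (fun ψ => (F ψ + t * G ψ) ^ 2) := Ex_nonneg M O h fun ψ => sq_nonneg _
    have h1 : (fun ψ => (F ψ + t * G ψ) ^ 2)
        = fun ψ => (F ψ ^ 2 + (2 * t) * (F ψ * G ψ)) + t ^ 2 * G ψ ^ 2 := by
      funext ψ; ring
    rw [h1, Ex_add hM hP h ((hF.pow 2).add ((hF.mul hG).smul _)) ((hG.pow 2).smul _),
      Ex_add hM hP h (hF.pow 2) ((hF.mul hG).smul _), Ex_mul_left, Ex_mul_left] at h0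
    linarith
  have := discrim_le_zero key
  unfold discrim at this
  nlinarith [this]

theorem Ex_jensen (hM : IsForm M) (hP : PDef M O) (h : W → ℝ) {F : (O → ℤ) → ℝ} (hF : Tame F)
    (hE : Tame (fun ψ => Real.exp (F ψ))) :
    Real.exp (Ex M O h F) ≤ Ex M O h (fun ψ => Real.exp (F ψ)) := by
  obtain ⟨m, hm⟩ : ∃ m, m = Ex M O h F := ⟨_, rfl⟩
  rw [← hm]
  have h1 : ∀ ψ, Real.exp m * (1 - m) + Real.exp m * F ψ ≤ Real.exp (F ψ) := by
    intro ψ
    have := Real.add_one_le_exp (F ψ - m)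
    have h2 : Real.exp (F ψ) = Real.exp m * Real.exp (F ψ - m) := by
      rw [← Real.exp_add]; congr 1; ring
    rw [h2]
    nlinarith [Real.exp_pos m]
  have h3 := Ex_mono hM hP h ((tame_const _).add (hF.smul _)) hE h1
  rw [Ex_add hM hP h (tame_const _) (hF.smul _), Ex_const hM hP, Ex_mul_left, ← hm] at h3
  linarith

end Pool.Agent.LR
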